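import Pool.Agent.KS6_86.FR.ClaimW
import Pool.Graph.R_pool_sql_team_seeded_1acbe0a2.Y336.PF.Core

/-! The combinatorial core for progressions of bounded rank in an arbitrary group containing the
lattice. -/

set_option autoImplicit false

namespace Pool.Agent.KS6_86.FR

open H460 H139R2.GP Pool.Agent.Y336.PF

/-- claim* applied to a resampled progression -/
theorem claim_apply_W {n μ κ t : ℕ} {L : AddSubgroup (Fin n → ℤ)} (hC : ClaimW n μ κ t L)
    {G : Type*} [AddCommGroup G] (e : L →+ G) (ψ : G →+ EuclideanSpace ℝ (Fin n))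
    (hψ : ∀ y : L, ψ (e y) = emb (Fin n) y) {ι₀ : Type} [Fintype ι₀] (v : ι₀ → G)
    (hJ : Fintype.card ι₀ ≤ κ * n) (D : Finset L) (hD : ∀ s ∈ D, ∀ i, |(s : Fin n → ℤ) i| ≤ 2 ^ (n ^ 2))
    (z : G) (x : L → ι₀ → ℤ)
    (hx : ∀ s ∈ D, (∀ j, |x s j| ≤ 2 * 2 ^ t) ∧ ∑ j, x s j • v j = e s - z) :
    (D.card : ℝ) ≤ (2 : ℝ) ^ ((12 + (μ : ℝ) / 2) * n) := by
  classical
  set c : ℝ := (2 : ℝ) ^ (-((n ^ 2 : ℕ) : ℤ)) with hc
  set Φ : (ι₀ → ℤ) →+ EuclideanSpace ℝ (Fin n) :=
    ((LinearMap.lsmul ℝ (EuclideanSpace ℝ (Fin n)) c).toAddMonoidHom).comp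
      (ψ.comp (comb v)) with hΦ
  have hΦa : ∀ y, Φ y = c • ψ (∑ j, y j • v j) := fun y => rfl
  have hcard : (D.image (fun s : L => (s : Fin n → ℤ))).card = D.card :=
    Finset.card_image_of_injective _ Subtype.val_injective
  rw [← hcard]
  set X : (Fin n → ℤ) → (ι₀ → ℤ) := fun s => if h : s ∈ L then x ⟨s, h⟩ else 0 with hX
  have hXs : ∀ s : L, X (s : Fin n → ℤ) = x s := by
    intro s
    simp only [hX]
    rw [dif_pos s.2]
  apply hC ι₀ hJ Φ _ X
  · intro s hs j
    obtain ⟨y, hy, rfl⟩ := Finset.mem_image.1 hs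
    rw [hXs]
    exact (hx y hy).1 j
  · intro s hs i
    obtain ⟨y, hy, rfl⟩ := Finset.mem_image.1 hs
    exact hD y hy i
  · intro s hs
    obtain ⟨y, hy, rfl⟩ := Finset.mem_image.1 hs
    exact y.2
  · intro s hs s' hs'
    obtain ⟨y, hy, rfl⟩ := Finset.mem_image.1 hs
    obtain ⟨y', hy', rfl⟩ := Finset.mem_image.1 hs'
    rw [hXs, hXs, hΦa]
    have e1 : ∑ j, (x y - x y') j • v j = e (y - y') := by
      simp only [Pi.sub_apply, sub_smul, Finset.sum_sub_distrib]
      rw [(hx y hy).2, (hx y' hy').2, map_sub]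
      abel
    rw [e1, hψ]
    rfl

/-- many long independent sides give many sums -/
theorem long_sums {n t q : ℕ} {G : Type*} [AddCommGroup G]
    (ψ : G →+ EuclideanSpace ℝ (Fin n)) {d : ℕ} (v : Fin d → G) (N : Fin d → ℕ)
    (hN : ∀ i, 0 < N i)
    (hr : q ≤ Module.finrank ℝ (Submodule.span ℝ
      (Set.range (fun i : {i : Fin d // 2 ^ t < N i} => ψ (v i))))) :
    (2 : ℝ) ^ (t * q) ≤ ((sums (fun p : Idx N => v p.1) Finset.univ).card : ℝ) := by
  classical
  obtain ⟨K, b, hb, hspan, hli⟩ := exists_linearIndependent' ℝ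
    (fun i : {i : Fin d // 2 ^ t < N i} => ψ (v i))
  have : Finite K := Finite.of_injective b hb
  obtain ⟨_⟩ := nonempty_fintype K
  have hcard : q ≤ Fintype.card K := by
    rw [← hspan] at hr
    rw [finrank_span_eq_card hli] at hr
    exact hr
  set F : (K → Fin (2 ^ t)) → G := fun k => ∑ j, (k j : ℕ) • v (b j) with hF
  have hmem : ∀ k, F k ∈ sums (fun p : Idx N => v p.1) Finset.univ := by
    intro k
    have h1 := (prog_eq (0 : G) v N hN (F k)).1 ?_
    · obtain ⟨S, hS⟩ := h1
      rw [zero_add] at hS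
      exact (mem_sums _ _ _).2 ⟨S, Finset.subset_univ _, hS.symm⟩
    · refine ⟨fun i => ∑ j, if ((b j : Fin d) = i) then (k j : ℕ) else 0, ?_, ?_⟩
      · intro i
        by_cases h : ∃ j, (b j : Fin d) = i
        · obtain ⟨j, hj⟩ := h
          have h2 : (∑ j', if ((b j' : Fin d) = i) then (k j' : ℕ) else 0) = k j := by
            rw [Finset.sum_eq_single j]
            · rw [if_pos hj]
            · intro j' _ hne
              rw [if_neg]
              intro h3
              apply hne
              apply hb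
              apply Subtype.ext
              rw [h3, hj]
            · intro h3; exact absurd (Finset.mem_univ _) h3
          change (∑ j', if ((b j' : Fin d) = i) then (k j' : ℕ) else 0) < N i
          rw [h2]
          have h4 := (b j).2
          rw [hj] at h4
          exact lt_trans (k j).2 h4
        · push Not at h
          change (∑ j', if ((b j' : Fin d) = i) then (k j' : ℕ) else 0) < N i
          rw [Finset.sum_eq_zero]
          · exact hN i
          · intro j _
            rw [if_neg (h j)]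
      · rw [zero_add]
        simp only [hF]
        simp_rw [Finset.sum_smul]
        rw [Finset.sum_comm]
        apply Finset.sum_congr rfl
        intro j _
        rw [Finset.sum_eq_single (b j : Fin d)]
        · rw [if_pos rfl]
        · intro i _ hne
          rw [if_neg (fun h => hne h.symm), zero_smul]
        · intro h3; exact absurd (Finset.mem_univ _) h3
  have hinj : Function.Injective F := by
    intro k k' hkk
    have h1 : ψ (F k) = ψ (F k') := by rw [hkk]
    simp only [hF, map_sum, map_nsmul] at h1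
    have h2 : ∑ j, (((k j : ℕ) : ℝ) - ((k' j : ℕ) : ℝ)) • ψ (v (b j)) = 0 := by
      simp_rw [sub_smul, Finset.sum_sub_distrib]
      rw [sub_eq_zero]
      simp_rw [Nat.cast_smul_eq_nsmul]
      exact h1
    have h3 := (Fintype.linearIndependent_iff.1 hli) _ h2
    funext j
    have h4 := h3 j
    apply Fin.ext
    have h5 : ((k j : ℕ) : ℝ) = ((k' j : ℕ) : ℝ) := by linarith
    exact_mod_cast h5
  have h1 : Fintype.card (K → Fin (2 ^ t)) ≤
      (sums (fun p : Idx N => v p.1) Finset.univ).card := by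
    rw [← Finset.card_univ, ← Finset.card_image_of_injective _ hinj]
    apply Finset.card_le_card
    intro y hy
    obtain ⟨k, _, rfl⟩ := Finset.mem_image.1 hy
    exact hmem k
  rw [Fintype.card_fun, Fintype.card_fin, ← pow_mul] at h1
  calc (2 : ℝ) ^ (t * q) ≤ 2 ^ (t * Fintype.card K) :=
        pow_le_pow_right₀ (by norm_num) (Nat.mul_le_mul_left _ hcard)
    _ ≤ _ := by exact_mod_cast h1

/-- combinatorial core: the size of `A'` versus the size of a progression of bounded rank -/
theorem core_W {n μ κ t : ℕ} {L : AddSubgroup (Fin n → ℤ)} (hC : ClaimW n μ κ t L)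
    (hpts : ∀ (V : Submodule ℝ (EuclideanSpace ℝ (Fin n))) (d : ℕ), Module.finrank ℝ V ≤ d →
      ∀ S : Finset (Fin n → ℤ), (∀ x ∈ S, ∀ y ∈ S, x - y ∈ L ∧ H460.emb (Fin n) (x - y) ∈ V) →
      (∃ z : Fin n → ℤ, ∀ x ∈ S, ∀ i, |x i - z i| ≤ 2 ^ (n ^ 2)) →
      (S.card : ℝ) ≤ 2 ^ (6 * n + 1 + (μ + 4) * d))
    {G : Type*} [AddCommGroup G] (e : L →+ G) (he : Function.Injective e)
    {d : ℕ} (v : Fin d → G) (N : Fin d → ℕ) (hN : ∀ i, 0 < N i)
    (hd : Fintype.card {i : Fin d // 2 ≤ N i ∧ N i ≤ 2 ^ t} ≤ κ * n) (a : G)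
    (A' : Finset L) (hAb : ∀ s ∈ A', ∀ i, |(s : Fin n → ℤ) i| ≤ 2 ^ (n ^ 2))
    (hA' : ∀ s ∈ A', ∃ S : Finset (Idx N), e s = a + ∑ p ∈ S, v p.1) :
    ((2:ℝ) ^ (t * (n/4)) ≤ (sums (fun p : Idx N => v p.1) Finset.univ).card) ∨
    ((A'.card : ℝ)^3 ≤ ((sums (fun p : Idx N => v p.1) Finset.univ).card : ℝ)^2 *
      ((2 : ℝ) ^ ((12 + (μ : ℝ) / 2) * n) * 2 ^ (6 * n + 1 + (μ + 4) * (n/4)))) := by
  classical
  -- extension of the coordinates to the ambient group
  obtain ⟨ψ, hψ0⟩ : ∃ ψ : G →+ EuclideanSpace ℝ (Fin n),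
      ψ.comp e = (emb (Fin n)).comp L.subtype := by
    have hb : Module.Baer ℤ (EuclideanSpace ℝ (Fin n)) := by
      letI : DivisibleBy (EuclideanSpace ℝ (Fin n)) ℤ :=
        { div := fun x k => ((k : ℝ)⁻¹) • x
          div_zero := fun x => by simp
          div_cancel := fun {k} x hk => by
            have hk' : (k : ℝ) ≠ 0 := by exact_mod_cast hk
            rw [← Int.cast_smul_eq_zsmul ℝ, smul_smul, mul_inv_cancel₀ hk', one_smul] }
      exact Module.Baer.of_divisible _
    exact hb.extension_property_addMonoidHom e he _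
  have hψ : ∀ y : L, ψ (e y) = emb (Fin n) y := fun y => DFunLike.congr_fun hψ0 y
  set g : Idx N → G := fun p => v p.1 with hg
  rcases Nat.lt_or_ge (n / 4) (Module.finrank ℝ (Submodule.span ℝ
      (Set.range (fun i : {i : Fin d // 2 ^ t < N i} => ψ (v i))))) with hr | hr
  · left
    exact long_sums ψ v N hN hr.le
  · right
    set J : Finset (Idx N) := Finset.univ.filter (fun p => ¬ (2 ^ t < N p.1)) with hJ
    obtain ⟨z1, D1, x1, hDA1, hcard1, hx1⟩ := resample_emb e he g a J A' hA'
    obtain ⟨z2, D2, x2, hDA2, hcard2, hx2⟩ := resample_emb e he g a Jᶜ A' hA'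
    -- aggregation of the coefficients of equal generators
    have h3 : (D1.card : ℝ) ≤ (2 : ℝ) ^ ((12 + (μ : ℝ) / 2) * n) := by
      apply claim_apply_W hC e ψ hψ (fun i : {i : Fin d // 2 ≤ N i ∧ N i ≤ 2 ^ t} => v i) hd D1
        (fun s hs => hAb s (hDA1 hs)) z1
        (fun s i => ∑ p : J, if (p : Idx N).1 = i then x1 s p else 0)
      intro s hs
      constructor
      · intro i
        have h4 : |∑ p : J, if (p : Idx N).1 = (i : Fin d) then x1 s p else 0| ≤
            ∑ p : J, if (p : Idx N).1 = (i : Fin d) then (1 : ℤ) else 0 := by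
          refine (Finset.abs_sum_le_sum_abs _ _).trans ?_
          apply Finset.sum_le_sum
          intro p _
          split_ifs with h
          · exact (hx1 s hs).1 p
          · simp
        refine h4.trans ?_
        have h5 : (∑ p : J, if (p : Idx N).1 = (i : Fin d) then (1 : ℤ) else 0) =
            ∑ p ∈ J, if p.1 = (i : Fin d) then (1 : ℤ) else 0 :=
          Finset.sum_coe_sort J (fun p : Idx N => if p.1 = (i : Fin d) then (1 : ℤ) else 0)
        rw [h5]
        have h6 : ∑ p ∈ J, (if p.1 = (i : Fin d) then (1 : ℤ) else 0) ≤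
            ∑ p : Idx N, (if p.1 = (i : Fin d) then (1 : ℤ) else 0) :=
          Finset.sum_le_sum_of_subset_of_nonneg (Finset.subset_univ _)
            (fun p _ _ => by split_ifs <;> norm_num)
        have h7 : ∑ p : Idx N, (if p.1 = (i : Fin d) then (1 : ℤ) else 0) =
            ((N i - 1 : ℕ) : ℤ) := by
          rw [Fintype.sum_sigma, Finset.sum_eq_single (i : Fin d)]
          · simp
          · intro j _ hj
            simp [hj]
          · intro h; exact absurd (Finset.mem_univ _) h
        rw [h7] at h6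
        refine h6.trans ?_
        have h8 : N i - 1 ≤ 2 ^ t := by
          have := i.2.2
          omega
        have h9 : ((N i - 1 : ℕ) : ℤ) ≤ ((2 ^ t : ℕ) : ℤ) := by exact_mod_cast h8
        push_cast at h9 ⊢
        have h10 : (0 : ℤ) ≤ 2 ^ t := by positivity
        linarith
      · rw [← (hx1 s hs).2]
        simp_rw [Finset.sum_smul]
        rw [Finset.sum_comm]
        apply Finset.sum_congr rfl
        intro p _
        have hp1 : ¬ (2 ^ t < N (p : Idx N).1) := by
          have h := p.2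
          exact (Finset.mem_filter.1 h).2
        have hp2 : 2 ≤ N (p : Idx N).1 ∧ N (p : Idx N).1 ≤ 2 ^ t := by
          have h := (p : Idx N).2.2
          omega
        rw [Finset.sum_eq_single (⟨(p : Idx N).1, hp2⟩ : {i : Fin d // 2 ≤ N i ∧ N i ≤ 2 ^ t})]
        · rw [if_pos rfl]
        · intro i _ hne
          rw [if_neg (fun h => hne (Subtype.ext h.symm)), zero_smul]
        · intro h; exact absurd (Finset.mem_univ _) h
    have h4 : (D2.card : ℝ) ≤ 2 ^ (6 * n + 1 + (μ + 4) * (n/4)) := by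
      have hcard : (D2.image (fun s : L => (s : Fin n → ℤ))).card = D2.card :=
        Finset.card_image_of_injective _ Subtype.val_injective
      rw [← hcard]
      apply hpts _ (n/4) hr (D2.image (fun s : L => (s : Fin n → ℤ)))
      · intro s hs s' hs'
        obtain ⟨y, hy, rfl⟩ := Finset.mem_image.1 hs
        obtain ⟨y', hy', rfl⟩ := Finset.mem_image.1 hs'
        refine ⟨L.sub_mem y.2 y'.2, ?_⟩
        have e0 : (y : Fin n → ℤ) - (y' : Fin n → ℤ) = ((y - y' : L) : Fin n → ℤ) := rfl
        have e1 : e (y - y') = ∑ j, (x2 y j - x2 y' j) • g j := by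
          simp only [sub_smul, Finset.sum_sub_distrib]
          rw [(hx2 y hy).2, (hx2 y' hy').2, map_sub]; abel
        rw [e0, ← hψ, e1, map_sum]
        apply Submodule.sum_mem
        intro j _
        rw [map_zsmul]
        apply Submodule.smul_of_tower_mem
        apply Submodule.subset_span
        have hj : (j : Idx N) ∉ J := Finset.mem_compl.1 j.2
        have hj' : 2 ^ t < N (j : Idx N).1 := by
          by_contra h
          exact hj (Finset.mem_filter.2 ⟨Finset.mem_univ _, h⟩)
        exact ⟨⟨(j : Idx N).1, hj'⟩, rfl⟩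
      · refine ⟨0, fun s hs i => ?_⟩
        obtain ⟨y, hy, rfl⟩ := Finset.mem_image.1 hs
        simpa using hAb y (hDA2 hy) i
    have hc1 : ((A'.card : ℝ)) * ((sums g J).card : ℝ) ≤ ((sums g Finset.univ).card : ℝ) * D1.card := by
      exact_mod_cast hcard1
    have hc2 : ((A'.card : ℝ)) * ((sums g Jᶜ).card : ℝ) ≤ ((sums g Finset.univ).card : ℝ) * D2.card := by
      exact_mod_cast hcard2
    have hprod : (A'.card : ℝ) ≤ ((sums g J).card : ℝ) * ((sums g Jᶜ).card : ℝ) := by
      have h6 : A'.image e ⊆ ((sums g J) ×ˢ (sums g Jᶜ)).image (fun p => a + (p.1 + p.2)) := by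
        intro s hs
        obtain ⟨y, hy, rfl⟩ := Finset.mem_image.1 hs
        obtain ⟨S, hS⟩ := hA' y hy
        rw [Finset.mem_image]
        refine ⟨(∑ i ∈ S ∩ J, g i, ∑ i ∈ S \ J, g i), ?_, ?_⟩
        · rw [Finset.mem_product]
          refine ⟨(mem_sums _ _ _).2 ⟨S ∩ J, Finset.inter_subset_right, rfl⟩,
            (mem_sums _ _ _).2 ⟨S \ J, ?_, rfl⟩⟩
          intro i hi
          rw [Finset.mem_compl]; exact (Finset.mem_sdiff.1 hi).2
        · rw [hS]
          congr 1
          simp only
          rw [Finset.sum_inter_add_sum_sdiff]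
      have h7 := (Finset.card_le_card h6).trans Finset.card_image_le
      rw [Finset.card_product, Finset.card_image_of_injective A' he] at h7
      exact_mod_cast h7
    have hA0 : (0:ℝ) ≤ A'.card := by positivity
    have hs0 : (0:ℝ) ≤ (sums g Finset.univ).card := by positivity
    calc (A'.card : ℝ)^3 = A'.card * A'.card * A'.card := by ring
      _ ≤ A'.card * A'.card * (((sums g J).card : ℝ) * ((sums g Jᶜ).card : ℝ)) := by gcongr
      _ = (A'.card * ((sums g J).card : ℝ)) * (A'.card * ((sums g Jᶜ).card : ℝ)) := by ring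
      _ ≤ (((sums g Finset.univ).card : ℝ) * D1.card) * (((sums g Finset.univ).card : ℝ) * D2.card) := by
          gcongr
      _ = ((sums g Finset.univ).card : ℝ)^2 * (D1.card * D2.card) := by ring
      _ ≤ _ := by gcongr

end Pool.Agent.KS6_86.FR
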