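import Pool.Agent.KS6_86.FR.Absorb
import Pool.Agent.KS6_86.FR.CoreW

/-! The combinatorial core for cubes of arbitrary dimension. -/

set_option autoImplicit false

namespace Pool.Agent.KS6_86.FR

open H460 H139R2.GP Pool.Agent.Y336.PF
open scoped Pointwise

/-- the subset sums of the generators in `J` are covered by few combinations of few generators -/
def Absorbs {G ι : Type*} [AddCommGroup G] (g : ι → G) (J : Finset ι) (n κ t : ℕ) : Prop :=
  ∃ I : Finset ι, I.card ≤ κ * n ∧ ∃ E : Finset G, (E.card : ℝ) ≤ 2 ^ n ∧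
    ∀ x ∈ sums g J, ∃ e ∈ E, x - e ∈ Box g I (2 ^ t)

theorem sums_mono {G ι : Type*} [AddCommGroup G] (g : ι → G) {J J' : Finset ι} (h : J ⊆ J') :
    sums g J ⊆ sums g J' := by
  intro x hx
  obtain ⟨S, hS, rfl⟩ := (mem_sums _ _ _).1 hx
  exact (mem_sums _ _ _).2 ⟨S, hS.trans h, rfl⟩

/-- claim* applied to a resampled cube of large dimension -/
theorem claim_apply_A {n μ κ t : ℕ} {L : AddSubgroup (Fin n → ℤ)} (hC : ClaimW n μ κ t L)
    {G : Type*} [AddCommGroup G] (e : L →+ G) (ψ : G →+ EuclideanSpace ℝ (Fin n))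
    (hψ : ∀ y : L, ψ (e y) = emb (Fin n) y) {ι : Type} (g : ι → G) (J : Finset ι)
    (hab : Absorbs g J n κ t) (D : Finset L) (hD : ∀ s ∈ D, ∀ i, |(s : Fin n → ℤ) i| ≤ 2 ^ (n ^ 2))
    (z : G) (x : L → J → ℤ) (hx : ∀ s ∈ D, (∀ j, |x s j| ≤ 1) ∧ ∑ j, x s j • g j = e s - z) :
    (D.card : ℝ) ≤ (2 : ℝ) ^ ((14 + (μ : ℝ) / 2) * n) := by
  classical
  obtain ⟨I, hIc, E, hEc, hE⟩ := hab
  -- the differences of two subset sums
  have h1 : ∀ s ∈ D, ∃ p ∈ E, ∃ q ∈ E, e s - z - (p - q) ∈ Box g I (2 * 2 ^ t) := by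
    intro s hs
    obtain ⟨hx1, hx2⟩ := hx s hs
    set S1 : Finset ι := Finset.image (Subtype.val : J → ι)
      (Finset.univ.filter (fun j : J => x s j = 1)) with hS1
    set S2 : Finset ι := Finset.image (Subtype.val : J → ι)
      (Finset.univ.filter (fun j : J => x s j = -1)) with hS2
    have h2 : ∑ i ∈ S1, g i = ∑ j : J, if x s j = 1 then g j else 0 := by
      rw [hS1, Finset.sum_image (fun a _ b _ h => Subtype.ext h), Finset.sum_filter]
    have h3 : ∑ i ∈ S2, g i = ∑ j : J, if x s j = -1 then g j else 0 := by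
      rw [hS2, Finset.sum_image (fun a _ b _ h => Subtype.ext h), Finset.sum_filter]
    have h4 : e s - z = ∑ i ∈ S1, g i - ∑ i ∈ S2, g i := by
      rw [← hx2, h2, h3, ← Finset.sum_sub_distrib]
      apply Finset.sum_congr rfl
      intro j _
      have h5 := abs_le.1 (hx1 j)
      have h6 : x s j = -1 ∨ x s j = 0 ∨ x s j = 1 := by omega
      rcases h6 with h | h | h <;> simp [h]
    have h5 : ∑ i ∈ S1, g i ∈ sums g J := by
      refine (mem_sums _ _ _).2 ⟨S1, fun i hi => ?_, rfl⟩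
      obtain ⟨j, _, rfl⟩ := Finset.mem_image.1 hi
      exact j.2
    have h6 : ∑ i ∈ S2, g i ∈ sums g J := by
      refine (mem_sums _ _ _).2 ⟨S2, fun i hi => ?_, rfl⟩
      obtain ⟨j, _, rfl⟩ := Finset.mem_image.1 hi
      exact j.2
    obtain ⟨p, hp, hp'⟩ := hE _ h5
    obtain ⟨q, hq, hq'⟩ := hE _ h6
    refine ⟨p, hp, q, hq, ?_⟩
    have h7 : e s - z - (p - q) = (∑ i ∈ S1, g i - p) - (∑ i ∈ S2, g i - q) := by
      rw [h4]; abel
    rw [h7]
    exact Box.mono (Finset.Subset.refl _) (by omega) (Box.sub hp' hq')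
  set Dpq : G × G → Finset L := fun r => D.filter
    (fun s => e s - z - (r.1 - r.2) ∈ Box g I (2 * 2 ^ t)) with hDpq
  have h2 : D ⊆ (E ×ˢ E).biUnion Dpq := by
    intro s hs
    obtain ⟨p, hp, q, hq, h⟩ := h1 s hs
    rw [Finset.mem_biUnion]
    exact ⟨(p, q), Finset.mem_product.2 ⟨hp, hq⟩, Finset.mem_filter.2 ⟨hs, h⟩⟩
  have h3 : ∀ r ∈ E ×ˢ E, ((Dpq r).card : ℝ) ≤ (2 : ℝ) ^ ((12 + (μ : ℝ) / 2) * n) := by
    intro r _
    have h4 : ∀ s : L, ∃ m : ι → ℤ, s ∈ Dpq r → (∀ i, |m i| ≤ 2 * 2 ^ t) ∧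
        e s - z - (r.1 - r.2) = ∑ i ∈ I, m i • g i := by
      intro s
      by_cases hs : s ∈ Dpq r
      · obtain ⟨m, hm, h⟩ := (Finset.mem_filter.1 hs).2
        exact ⟨m, fun _ => ⟨fun i => by simpa using hm i, h⟩⟩
      · exact ⟨0, fun h => absurd h hs⟩
    choose m hm using h4
    apply claim_apply_W hC e ψ hψ (fun i : I => g i) (by simpa using hIc) (Dpq r)
      (fun s hs => hD s (Finset.mem_filter.1 hs).1) (z + (r.1 - r.2)) (fun s i => m s i)
    intro s hs
    obtain ⟨h5, h6⟩ := hm s hs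
    refine ⟨fun i => h5 i, ?_⟩
    rw [← sub_sub, h6]
    exact Finset.sum_coe_sort I (fun i => m s i • g i)
  have h4 : (D.card : ℝ) ≤ (E.card * E.card) * (2 : ℝ) ^ ((12 + (μ : ℝ) / 2) * n) := by
    calc (D.card : ℝ) ≤ ((E ×ˢ E).biUnion Dpq).card := by exact_mod_cast Finset.card_le_card h2
      _ ≤ ∑ r ∈ E ×ˢ E, ((Dpq r).card : ℝ) := by exact_mod_cast Finset.card_biUnion_le
      _ ≤ ∑ r ∈ E ×ˢ E, (2 : ℝ) ^ ((12 + (μ : ℝ) / 2) * n) := Finset.sum_le_sum h3
      _ = (E.card * E.card) * (2 : ℝ) ^ ((12 + (μ : ℝ) / 2) * n) := by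
        rw [Finset.sum_const, nsmul_eq_mul, Finset.card_product]
        push_cast
        ring
  refine h4.trans ?_
  calc ((E.card : ℝ) * E.card) * (2 : ℝ) ^ ((12 + (μ : ℝ) / 2) * n)
      ≤ (2 ^ n * 2 ^ n) * (2 : ℝ) ^ ((12 + (μ : ℝ) / 2) * n) := by gcongr
    _ = (2 : ℝ) ^ ((14 + (μ : ℝ) / 2) * n) := by
      rw [← pow_add, ← Real.rpow_natCast, ← Real.rpow_add (by norm_num)]
      congr 1
      push_cast
      ring

/-- combinatorial core: the size of `A'` versus the size of the cube -/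
theorem core_A {n μ κ t m : ℕ} {L : AddSubgroup (Fin n → ℤ)} (hC : ClaimW n μ κ t L)
    (hpts : ∀ (V : Submodule ℝ (EuclideanSpace ℝ (Fin n))) (d : ℕ), Module.finrank ℝ V ≤ d →
      ∀ S : Finset (Fin n → ℤ), (∀ x ∈ S, ∀ y ∈ S, x - y ∈ L ∧ H460.emb (Fin n) (x - y) ∈ V) →
      (∃ z : Fin n → ℤ, ∀ x ∈ S, ∀ i, |x i - z i| ≤ 2 ^ (n ^ 2)) →
      (S.card : ℝ) ≤ 2 ^ (6 * n + 1 + (μ + 4) * d))
    {G : Type*} [AddCommGroup G] (e : L →+ G) (he : Function.Injective e)
    {ι : Type} [Fintype ι] (g : ι → G) (a : G) (A' : Finset L)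
    (hab : ∀ J : Finset ι, J.card ≤ 2 ^ m * n → Absorbs g J n κ t)
    (hAb : ∀ s ∈ A', ∀ i, |(s : Fin n → ℤ) i| ≤ 2 ^ (n ^ 2))
    (hA' : ∀ s ∈ A', ∃ S : Finset ι, e s = a + ∑ i ∈ S, g i) :
    ((2:ℝ) ^ (m * (n/4)) ≤ (sums g Finset.univ).card) ∨
    ((A'.card : ℝ)^3 ≤ ((sums g Finset.univ).card : ℝ)^2 *
      ((2 : ℝ) ^ ((14 + (μ : ℝ) / 2) * n) * 2 ^ (6 * n + 1 + (μ + 4) * (n/4)))) := by
  classical
  -- extension of the coordinates to the ambient group
  obtain ⟨ψ, hψ0⟩ : ∃ ψ : G →+ EuclideanSpace ℝ (Fin n),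
      ψ.comp e = (emb (Fin n)).comp L.subtype := by
    have hb : Module.Baer ℤ (EuclideanSpace ℝ (Fin n)) := by
      let _ : DivisibleBy (EuclideanSpace ℝ (Fin n)) ℤ :=
        { div := fun x k => ((k : ℝ)⁻¹) • x
          div_zero := fun x => by simp
          div_cancel := fun {k} x hk => by
            have hk' : (k : ℝ) ≠ 0 := by exact_mod_cast hk
            rw [← Int.cast_smul_eq_zsmul ℝ, smul_smul, mul_inv_cancel₀ hk', one_smul] }
      exact Module.Baer.of_divisible _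
    exact hb.extension_property_addMonoidHom e he _
  have hψ : ∀ y : L, ψ (e y) = emb (Fin n) y := fun y => DFunLike.congr_fun hψ0 y
  rcases blocks (fun i => ψ (g i)) (n/4) (2^m) with ⟨B, hB1, hB2, hB3⟩ | ⟨J, hJ1, hJ2⟩
  · left
    have h1 := blocks_sums (fun i => ψ (g i)) (2^m) (n/4) B hB1 hB2 hB3
    have h2 := h1.trans (sums_map_card ψ g (Finset.univ.biUnion B))
    have h3 := h2.trans (Finset.card_le_card (sums_mono g (Finset.subset_univ
      (Finset.univ.biUnion B))))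
    rw [pow_mul]
    exact_mod_cast h3
  · right
    have hrank := finrank_le (fun i => ψ (g i)) (n/4) J hJ2
    obtain ⟨z1, D1, x1, hDA1, hcard1, hx1⟩ := resample_emb e he g a J A' hA'
    obtain ⟨z2, D2, x2, hDA2, hcard2, hx2⟩ := resample_emb e he g a Jᶜ A' hA'
    have hJcard : J.card ≤ 2^m * n := hJ1.trans (by gcongr; omega)
    have h3 := claim_apply_A hC e ψ hψ g J (hab J hJcard) D1 (fun s hs => hAb s (hDA1 hs)) z1 x1 hx1
    have h4 : (D2.card : ℝ) ≤ 2 ^ (6 * n + 1 + (μ + 4) * (n/4)) := by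
      have hcard : (D2.image (fun s : L => (s : Fin n → ℤ))).card = D2.card :=
        Finset.card_image_of_injective _ Subtype.val_injective
      rw [← hcard]
      apply hpts _ (n/4) hrank (D2.image (fun s : L => (s : Fin n → ℤ)))
      · intro s hs s' hs'
        obtain ⟨y, hy, rfl⟩ := Finset.mem_image.1 hs
        obtain ⟨y', hy', rfl⟩ := Finset.mem_image.1 hs'
        refine ⟨L.sub_mem y.2 y'.2, ?_⟩
        have e0 : (y : Fin n → ℤ) - (y' : Fin n → ℤ) = ((y - y' : L) : Fin n → ℤ) := rfl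
        have e1 : e (y - y') = ∑ j, (x2 y j - x2 y' j) • g j := by
          simp only [sub_smul, Finset.sum_sub_distrib]
          rw [(hx2 y hy).2, (hx2 y' hy').2, map_sub]; abel
        rw [e0, ← hψ, e1, map_sum]
        apply Submodule.sum_mem
        intro j _
        rw [map_zsmul]
        apply Submodule.smul_of_tower_mem
        apply Submodule.subset_span
        exact ⟨j, j.2, rfl⟩
      · refine ⟨0, fun s hs i => ?_⟩
        obtain ⟨y, hy, rfl⟩ := Finset.mem_image.1 hs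
        simpa using hAb y (hDA2 hy) i
    have hc1 : ((A'.card : ℝ)) * ((sums g J).card : ℝ) ≤ ((sums g Finset.univ).card : ℝ) * D1.card := by
      exact_mod_cast hcard1
    have hc2 : ((A'.card : ℝ)) * ((sums g Jᶜ).card : ℝ) ≤ ((sums g Finset.univ).card : ℝ) * D2.card := by
      exact_mod_cast hcard2
    have hprod : (A'.card : ℝ) ≤ ((sums g J).card : ℝ) * ((sums g Jᶜ).card : ℝ) := by
      have h6 : A'.image e ⊆ ((sums g J) ×ˢ (sums g Jᶜ)).image (fun p => a + (p.1 + p.2)) := by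
        intro s hs
        obtain ⟨y, hy, rfl⟩ := Finset.mem_image.1 hs
        obtain ⟨S, hS⟩ := hA' y hy
        rw [Finset.mem_image]
        refine ⟨(∑ i ∈ S ∩ J, g i, ∑ i ∈ S \ J, g i), ?_, ?_⟩
        · rw [Finset.mem_product]
          refine ⟨(mem_sums _ _ _).2 ⟨S ∩ J, Finset.inter_subset_right, rfl⟩,
            (mem_sums _ _ _).2 ⟨S \ J, ?_, rfl⟩⟩
          intro i hi
          rw [Finset.mem_compl]; exact (Finset.mem_sdiff.1 hi).2
        · rw [hS]
          congr 1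
          simp only
          rw [Finset.sum_inter_add_sum_sdiff]
      have h7 := (Finset.card_le_card h6).trans Finset.card_image_le
      rw [Finset.card_product, Finset.card_image_of_injective A' he] at h7
      exact_mod_cast h7
    have hA0 : (0:ℝ) ≤ A'.card := by positivity
    have hs0 : (0:ℝ) ≤ (sums g Finset.univ).card := by positivity
    calc (A'.card : ℝ)^3 = A'.card * A'.card * A'.card := by ring
      _ ≤ A'.card * A'.card * (((sums g J).card : ℝ) * ((sums g Jᶜ).card : ℝ)) := by gcongr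
      _ = (A'.card * ((sums g J).card : ℝ)) * (A'.card * ((sums g Jᶜ).card : ℝ)) := by ring
      _ ≤ (((sums g Finset.univ).card : ℝ) * D1.card) * (((sums g Finset.univ).card : ℝ) * D2.card) := by
          gcongr
      _ = ((sums g Finset.univ).card : ℝ)^2 * (D1.card * D2.card) := by ring
      _ ≤ _ := by gcongr

end Pool.Agent.KS6_86.FR
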