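import Pool.Agent.KS6_86.FR.Power
import Pool.Agent.KS6_86.FR.CoreA

/-! The absorption lemma. -/

set_option autoImplicit false

open scoped Pointwise
open H139R2.GP AddMonoidAlgebra

namespace Pool.Agent.KS6_86.FR

variable {G : Type*} [AddCommGroup G]

theorem one_le_card_sums {ι : Type*} (g : ι → G) (I : Finset ι) : 1 ≤ (sums g I).card :=
  Finset.card_pos.2 ⟨0, (mem_sums _ _ _).2 ⟨∅, Finset.empty_subset _, by simp⟩⟩

/-- a small set of generators such that every other generator nearly preserves its set of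
subset sums -/
theorem greedy {ι : Type*} [DecidableEq G] [DecidableEq ι] (g : ι → G) (J : Finset ι) {h : ℕ}
    (hs : (sums g J).card ≤ 2 ^ h) :
    ∃ I ⊆ J, I.card ≤ 4 * h ∧ ∀ j ∈ J \ I,
      ((two (sums g I) (g j)).card : ℝ) ≤ 5 / 4 * (sums g I).card := by
  obtain ⟨I, hI, hmax⟩ := Finset.exists_max_image
    (J.powerset.filter (fun I => (5 / 4 : ℝ) ^ I.card ≤ (sums g I).card)) (fun I => I.card)
    ⟨∅, by
      rw [Finset.mem_filter]
      refine ⟨Finset.empty_mem_powerset _, ?_⟩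
      rw [Finset.card_empty, pow_zero]
      exact_mod_cast one_le_card_sums g ∅⟩
  rw [Finset.mem_filter, Finset.mem_powerset] at hI
  obtain ⟨hIJ, hIc⟩ := hI
  refine ⟨I, hIJ, ?_, ?_⟩
  · by_contra hcon
    push Not at hcon
    have h1 : (5 / 4 : ℝ) ^ I.card ≤ 2 ^ h := by
      refine hIc.trans ?_
      have := (Finset.card_le_card (sums_mono g hIJ)).trans hs
      exact_mod_cast this
    have h2 : (2 : ℝ) ^ h ≤ (5 / 4 : ℝ) ^ (4 * h) := by
      rw [pow_mul]
      apply pow_le_pow_left₀ (by norm_num)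
      norm_num
    have h3 : (5 / 4 : ℝ) ^ (4 * h) < (5 / 4 : ℝ) ^ I.card :=
      pow_lt_pow_right₀ (by norm_num) hcon
    linarith
  · intro j hj
    obtain ⟨hjJ, hjI⟩ := Finset.mem_sdiff.1 hj
    by_contra hcon
    push Not at hcon
    have h1 := hmax (insert j I) (by
      rw [Finset.mem_filter, Finset.mem_powerset]
      refine ⟨Finset.insert_subset hjJ hIJ, ?_⟩
      rw [Finset.card_insert_of_notMem hjI, sums_insert g hjI, pow_succ]
      calc (5 / 4 : ℝ) ^ I.card * (5 / 4) ≤ (sums g I).card * (5 / 4) := by gcongr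
        _ = 5 / 4 * (sums g I).card := by ring
        _ ≤ _ := hcon.le)
    rw [Finset.card_insert_of_notMem hjI] at h1
    omega

/-- the absorption lemma -/
theorem absorbs_of {ι : Type*} (g : ι → G) (J : Finset ι) {n m H : ℕ} (hJ : J.card ≤ 2 ^ m * n)
    (hs : (sums g J).card ≤ 2 ^ (H * n)) : Absorbs g J n (4 * H + 1) (3 * m + 8) := by
  classical
  obtain ⟨I, hIJ, hIc, hI⟩ := greedy g J hs
  set Q := sums g I with hQ
  have hQne : Q.Nonempty := Finset.card_pos.1 (one_le_card_sums g I)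
  set N : ℕ := 2 * 4 ^ (m + 3) - 1 with hN
  have hN1 : N + 1 = 2 * 4 ^ (m + 3) := by
    have : 0 < 2 * 4 ^ (m + 3) := by positivity
    omega
  set α : ℝ := 1 / 2 ^ (m + 2) with hα
  have hα0 : 0 < α := by positivity
  set a : AddMonoidAlgebra ℝ G := unif Q ^ N with ha
  have hsq : 2 / Real.sqrt ((N + 1) * (1 / 2)) = α := by
    have h1 : ((N : ℝ) + 1) * (1 / 2) = (2 ^ (m + 3)) ^ 2 := by
      have h2 : ((N : ℝ) + 1) = 2 * 4 ^ (m + 3) := by exact_mod_cast hN1
      rw [h2, ← pow_mul, mul_comm (m + 3) 2, pow_mul]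
      norm_num
      ring
    rw [h1, Real.sqrt_sq (by positivity), hα, pow_succ (2 : ℝ) (m + 2)]
    field_simp
  have htot : ∑ x ∈ a.coeff.support, a.coeff x = 1 := by
    rw [← tot_eq, ha, map_pow, tot_unif Q hQne, one_pow]
  have hmove : ∀ j ∈ J \ I, ∑ x ∈ a.coeff.support, max (a.coeff x - a.coeff (g j + x)) 0 ≤
      α * ∑ x ∈ a.coeff.support, a.coeff x := by
    intro j hj
    rw [htot, mul_one]
    by_cases h0 : g j = 0
    · rw [h0]
      simp only [zero_add, sub_self, max_self, Finset.sum_const_zero]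
      exact hα0.le
    · refine (moved_le a (g j)).trans ?_
      rw [ha, ← hsq]
      exact pow_shift Q hQne h0 (hI j hj) N
  obtain ⟨R, hRJ, hRc, E, hEc, hE⟩ := absorb g I (J \ I) hα0 (N := N) a.coeff.support
    (fun x => a.coeff x)
    (fun x => pow_nonneg' (fun y => coeff_sum_single_nonneg Q (by positivity) y) N x)
    (fun x hx => Finsupp.notMem_support_iff.1 hx) (by rw [htot]; norm_num)
    (supp_pow_Box g I N) hmove m
  have hJI : (J \ I).card ≤ 2 ^ m * n := (Finset.card_le_card Finset.sdiff_subset).trans hJ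
  have hRn : R.card ≤ n := by
    have h1 := hRc.trans hJI
    exact Nat.le_of_mul_le_mul_left h1 (by positivity)
  refine ⟨I ∪ R, ?_, E, ?_, ?_⟩
  · calc (I ∪ R).card ≤ I.card + R.card := Finset.card_union_le _ _
      _ ≤ 4 * (H * n) + n := by omega
      _ = (4 * H + 1) * n := by ring
  · refine hEc.trans ?_
    have h1 : (1 : ℝ) ≤ 1 + 2 * α := by linarith
    calc (1 + 2 * α) ^ ((J \ I).card - R.card) ≤ (1 + 2 * α) ^ (2 ^ m * n) := by
          apply pow_le_pow_right₀ h1
          omega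
      _ = ((1 + 2 * α) ^ (2 ^ m)) ^ n := by rw [pow_mul]
      _ ≤ 2 ^ n := by
        apply pow_le_pow_left₀ (by positivity)
        have h2 : (1 + 2 * α) ^ (2 ^ m) ≤ Real.exp (2 * α) ^ (2 ^ m) := by
          apply pow_le_pow_left₀ (by positivity)
          have := Real.add_one_le_exp (2 * α)
          linarith
        refine h2.trans ?_
        rw [← Real.exp_nat_mul]
        have h3 : ((2 ^ m : ℕ) : ℝ) * (2 * α) = 1 / 2 := by
          rw [hα, pow_add]
          push_cast
          field_simp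
        rw [h3]
        have h4 : Real.exp (1 / 2) ^ 2 = Real.exp 1 := by
          rw [← Real.exp_nat_mul]; norm_num
        have h5 := Real.exp_one_lt_d9
        have h6 : 0 < Real.exp (1 / 2) := Real.exp_pos _
        nlinarith
  · intro x hx
    obtain ⟨S, hS, rfl⟩ := (mem_sums _ _ _).1 hx
    have h1 : ∑ i ∈ S \ (I ∪ R), g i ∈ sums g ((J \ I) \ R) := by
      refine (mem_sums _ _ _).2 ⟨_, fun i hi => ?_, rfl⟩
      obtain ⟨h2, h3⟩ := Finset.mem_sdiff.1 hi
      rw [Finset.mem_union, not_or] at h3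
      exact Finset.mem_sdiff.2 ⟨Finset.mem_sdiff.2 ⟨hS h2, h3.1⟩, h3.2⟩
    obtain ⟨e, he, he'⟩ := hE _ h1
    refine ⟨e, he, ?_⟩
    have h2 : ∑ i ∈ S ∩ (I ∪ R), g i ∈ Box g (I ∪ R) 1 := sums_Box g Finset.inter_subset_right
    have h3 : ∑ i ∈ S, g i - e = (∑ i ∈ S \ (I ∪ R), g i - e) + ∑ i ∈ S ∩ (I ∪ R), g i := by
      rw [← Finset.sum_inter_add_sum_sdiff S (I ∪ R)]
      abel
    rw [h3]
    have h4 := Box.add (Box.mono (Finset.subset_union_left (s₂ := R)) le_rfl he') h2
    refine Box.mono (Finset.Subset.refl _) ?_ h4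
    -- numerical bound of the coefficients
    have h5 : m < 2 ^ m := Nat.lt_two_pow_self
    have h6 : N ≤ 2 ^ (2 * m + 7) := by
      have : 2 ^ (2 * m + 7) = 2 * 4 ^ (m + 3) := by
        have h7 : (4 : ℕ) = 2 ^ 2 := by norm_num
        rw [h7, ← pow_mul, ← pow_succ']
        congr 1
      omega
    calc 2 * m * N + 1 ≤ 2 * m * 2 ^ (2 * m + 7) + 1 * 2 ^ (2 * m + 7) := by
          have : 1 ≤ 2 ^ (2 * m + 7) := Nat.one_le_two_pow
          have h8 : 2 * m * N ≤ 2 * m * 2 ^ (2 * m + 7) := Nat.mul_le_mul_left _ h6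
          omega
      _ = (2 * m + 1) * 2 ^ (2 * m + 7) := by ring
      _ ≤ (2 * 2 ^ m) * 2 ^ (2 * m + 7) := Nat.mul_le_mul_right _ (by omega)
      _ = 2 ^ (3 * m + 8) := by
        rw [← pow_succ', ← pow_add]
        congr 1
        ring

end Pool.Agent.KS6_86.FR
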