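import Pool.Agent.KS6_86.FR.Petri

/-! Absorption of many generators: half of the generators at a time. -/

set_option autoImplicit false

open scoped Pointwise
open H139R2.GP

namespace Pool.Agent.KS6_86.FR

variable {G ι : Type*} [AddCommGroup G]

theorem sums_insert [DecidableEq G] [DecidableEq ι] (g : ι → G) {U : Finset ι} {j : ι}
    (hj : j ∉ U) : sums g (insert j U) = two (sums g U) (g j) := by
  ext y
  rw [mem_two, mem_sums, mem_sums]
  constructor
  · rintro ⟨S, hS, rfl⟩
    by_cases h : j ∈ S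
    · right
      refine ⟨∑ i ∈ S.erase j, g i, (mem_sums _ _ _).2 ⟨S.erase j, ?_, rfl⟩, ?_⟩
      · intro i hi
        have h1 := hS (Finset.mem_of_mem_erase hi)
        exact (Finset.mem_insert.1 h1).resolve_left (Finset.ne_of_mem_erase hi)
      · exact Finset.add_sum_erase S g h
    · left
      refine ⟨S, fun i hi => ?_, rfl⟩
      exact (Finset.mem_insert.1 (hS hi)).resolve_left (fun h2 => h (h2 ▸ hi))
  · rintro (⟨S, hS, rfl⟩ | ⟨s, hs, rfl⟩)
    · exact ⟨S, hS.trans (Finset.subset_insert _ _), rfl⟩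
    · obtain ⟨S, hS, rfl⟩ := (mem_sums _ _ _).1 hs
      refine ⟨insert j S, Finset.insert_subset_insert _ hS, ?_⟩
      rw [Finset.sum_insert (fun h => hj (hS h))]

theorem add_two [DecidableEq G] (X C : Finset G) (x : G) : X + two C x = two (X + C) x := by
  ext y
  simp only [Finset.mem_add, mem_two]
  constructor
  · rintro ⟨a, ha, b, hb | ⟨c, hc, rfl⟩, rfl⟩
    · exact Or.inl ⟨a, ha, b, hb, rfl⟩
    · exact Or.inr ⟨a + c, ⟨a, ha, c, hc, rfl⟩, by abel⟩
  · rintro (⟨a, ha, b, hb, rfl⟩ | ⟨s, ⟨a, ha, b, hb, rfl⟩, rfl⟩)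
    · exact ⟨a, ha, b, Or.inl hb, rfl⟩
    · exact ⟨a, ha, x + b, Or.inr ⟨b, hb, rfl⟩, by abel⟩

theorem sums_empty (g : ι → G) : sums g ∅ = {0} := by
  ext y
  rw [mem_sums, Finset.mem_singleton]
  constructor
  · rintro ⟨S, hS, rfl⟩
    rw [Finset.subset_empty.1 hS, Finset.sum_empty]
  · rintro rfl
    exact ⟨∅, Finset.Subset.refl _, Finset.sum_empty⟩

/-- half of the generators are absorbed -/
theorem absorb_half [DecidableEq G] (J : Finset ι) (g : ι → G) (X : Finset G) (hX : X.Nonempty)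
    {α : ℝ} (hα : 0 < α) (hc : ∀ C : Finset G, cost J g (X + C) ≤ α * J.card * (X + C).card) :
    ∀ k : ℕ, 2 * k ≤ J.card + 1 → ∃ U ⊆ J, U.card = k ∧
      ((X + sums g U).card : ℝ) ≤ (1 + 2 * α) ^ k * X.card := by
  classical
  intro k
  induction k with
  | zero =>
    intro _
    refine ⟨∅, Finset.empty_subset _, rfl, ?_⟩
    rw [sums_empty]
    simp
  | succ k ih =>
    intro hk
    obtain ⟨U, hUJ, hUk, hU⟩ := ih (by omega)
    set Y := X + sums g U with hY
    have hYne : Y.Nonempty := hX.add ⟨0, (mem_sums _ _ _).2 ⟨∅, Finset.empty_subset _, by simp⟩⟩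
    have hY0 : (0 : ℝ) < Y.card := by exact_mod_cast hYne.card_pos
    set Bad : Finset ι := J.filter (fun j => (1 + 2 * α) * Y.card < (two Y (g j)).card) with hBad
    have h1 : (Bad.card : ℝ) * (2 * α * Y.card) ≤ α * J.card * Y.card := by
      refine le_trans ?_ (hc (sums g U))
      rw [← hY]
      unfold cost
      rw [← nsmul_eq_mul, ← Finset.sum_const]
      refine le_trans (Finset.sum_le_sum (fun j hj => ?_)) (Finset.sum_le_sum_of_subset_of_nonneg
        (Finset.filter_subset _ _) (fun j _ _ => ?_))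
      · have := (Finset.mem_filter.1 hj).2
        linarith
      · have : (Y.card : ℝ) ≤ (two Y (g j)).card := by exact_mod_cast le_card_two Y (g j)
        linarith
    have h2 : 2 * Bad.card ≤ J.card := by
      have h3 : (2 * (Bad.card : ℝ)) * (α * Y.card) ≤ J.card * (α * Y.card) := by linarith
      have h4 := le_of_mul_le_mul_right h3 (by positivity)
      exact_mod_cast h4
    -- a good generator which has not been used
    have h3 : ∃ j ∈ J, j ∉ Bad ∪ U := by
      by_contra hcon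
      push Not at hcon
      have h4 : J ⊆ Bad ∪ U := hcon
      have h5 := (Finset.card_le_card h4).trans (Finset.card_union_le _ _)
      -- strictness
      by_cases hB : Bad = ∅
      · rw [hB, Finset.card_empty] at h5
        omega
      · have h6 : (Bad.card : ℝ) * (2 * α * Y.card) < α * J.card * Y.card := by
          refine lt_of_lt_of_le ?_ (hc (sums g U))
          rw [← hY]
          unfold cost
          rw [← nsmul_eq_mul, ← Finset.sum_const]
          refine lt_of_lt_of_le (Finset.sum_lt_sum_of_nonempty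
            (Finset.nonempty_iff_ne_empty.2 hB) (fun j hj => ?_))
            (Finset.sum_le_sum_of_subset_of_nonneg
            (Finset.filter_subset _ _) (fun j _ _ => ?_))
          · have := (Finset.mem_filter.1 hj).2
            linarith
          · have : (Y.card : ℝ) ≤ (two Y (g j)).card := by exact_mod_cast le_card_two Y (g j)
            linarith
        have h7 : (2 * (Bad.card : ℝ)) * (α * Y.card) < J.card * (α * Y.card) := by linarith
        have h8 := lt_of_mul_lt_mul_right h7 (by positivity)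
        have h9 : 2 * Bad.card < J.card := by exact_mod_cast h8
        omega
    obtain ⟨j, hjJ, hj⟩ := h3
    rw [Finset.mem_union, not_or] at hj
    refine ⟨insert j U, Finset.insert_subset hjJ hUJ, ?_, ?_⟩
    · rw [Finset.card_insert_of_notMem hj.2, hUk]
    · rw [sums_insert g hj.2, add_two, ← hY]
      have h4 : ((two Y (g j)).card : ℝ) ≤ (1 + 2 * α) * Y.card := by
        by_contra hcon
        push Not at hcon
        exact hj.1 (Finset.mem_filter.2 ⟨hjJ, hcon⟩)
      calc ((two Y (g j)).card : ℝ) ≤ (1 + 2 * α) * Y.card := h4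
        _ ≤ (1 + 2 * α) * ((1 + 2 * α) ^ k * X.card) := by gcongr
        _ = (1 + 2 * α) ^ (k + 1) * X.card := by ring

/-- the combinations of the generators in `I` with coefficients at most `N` -/
def Box (g : ι → G) (I : Finset ι) (N : ℕ) : Set G :=
  {x | ∃ m : ι → ℤ, (∀ i, |m i| ≤ N) ∧ x = ∑ i ∈ I, m i • g i}

theorem Box.add {g : ι → G} {I : Finset ι} {N M : ℕ} {x y : G} (hx : x ∈ Box g I N)
    (hy : y ∈ Box g I M) : x + y ∈ Box g I (N + M) := by
  obtain ⟨m, hm, rfl⟩ := hx
  obtain ⟨m', hm', rfl⟩ := hy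
  refine ⟨m + m', fun i => ?_, ?_⟩
  · push_cast
    exact (abs_add_le _ _).trans (add_le_add (hm i) (hm' i))
  · simp only [Pi.add_apply, add_smul, Finset.sum_add_distrib]

theorem Box.sub {g : ι → G} {I : Finset ι} {N M : ℕ} {x y : G} (hx : x ∈ Box g I N)
    (hy : y ∈ Box g I M) : x - y ∈ Box g I (N + M) := by
  obtain ⟨m, hm, rfl⟩ := hx
  obtain ⟨m', hm', rfl⟩ := hy
  refine ⟨m - m', fun i => ?_, ?_⟩
  · push_cast
    exact (abs_sub _ _).trans (add_le_add (hm i) (hm' i))
  · simp only [Pi.sub_apply, sub_smul, Finset.sum_sub_distrib]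

theorem Box.mono {g : ι → G} {I I' : Finset ι} {N N' : ℕ} (hI : I ⊆ I') (hN : N ≤ N') {x : G}
    (hx : x ∈ Box g I N) : x ∈ Box g I' N' := by
  classical
  obtain ⟨m, hm, rfl⟩ := hx
  refine ⟨fun i => if i ∈ I then m i else 0, fun i => ?_, ?_⟩
  · dsimp only
    split_ifs
    · exact (hm i).trans (by exact_mod_cast hN)
    · simp
  · rw [← Finset.sum_subset hI (fun i _ hi => by simp [hi])]
    apply Finset.sum_congr rfl
    intro i hi
    simp [hi]

/-- the generators are absorbed, except for a proportion of `2 ^ (-k)` -/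
theorem absorb [DecidableEq G] [DecidableEq ι] (g : ι → G) (I J₀ : Finset ι) {α : ℝ} (hα : 0 < α)
    {N : ℕ} (T : Finset G) (F : G → ℝ) (hF0 : ∀ x, 0 ≤ F x) (hFT : ∀ x, x ∉ T → F x = 0)
    (hF1 : 0 < ∑ x ∈ T, F x) (hTB : ∀ x ∈ T, x ∈ Box g I N)
    (hF : ∀ j ∈ J₀, ∑ x ∈ T, max (F x - F (g j + x)) 0 ≤ α * ∑ x ∈ T, F x) :
    ∀ k : ℕ, ∃ R ⊆ J₀, 2 ^ k * R.card ≤ J₀.card ∧ ∃ E : Finset G,
      (E.card : ℝ) ≤ (1 + 2 * α) ^ (J₀.card - R.card) ∧
      ∀ x ∈ sums g (J₀ \ R), ∃ e ∈ E, x - e ∈ Box g I (2 * k * N) := by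
  intro k
  induction k with
  | zero =>
    refine ⟨J₀, Finset.Subset.refl _, by simp, {0}, by simp, ?_⟩
    intro x hx
    rw [Finset.sdiff_self, sums_empty, Finset.mem_singleton] at hx
    exact ⟨0, by simp, 0, by simp, by simp [hx]⟩
  | succ k ih =>
    obtain ⟨R, hRJ, hRc, E, hEc, hE⟩ := ih
    have hTne : T.Nonempty := by
      rw [Finset.nonempty_iff_ne_empty]
      rintro rfl
      simp at hF1
    obtain ⟨X, hXT, hXne, hXmin⟩ := exists_min R g T hTne
    have hX0 : (0 : ℝ) < X.card := by exact_mod_cast hXne.card_pos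
    have h1 := exists_level R g _ T F hF0 hFT hXmin
    have h2 : ∑ j ∈ R, ∑ x ∈ T, max (F x - F (g j + x)) 0 ≤ (α * R.card) * ∑ x ∈ T, F x := by
      calc ∑ j ∈ R, ∑ x ∈ T, max (F x - F (g j + x)) 0 ≤ ∑ j ∈ R, α * ∑ x ∈ T, F x :=
            Finset.sum_le_sum (fun j hj => hF j (hRJ hj))
        _ = (α * R.card) * ∑ x ∈ T, F x := by
            rw [Finset.sum_const, nsmul_eq_mul]; ring
    have h3 : cost R g X / X.card ≤ α * R.card := le_of_mul_le_mul_right (h1.trans h2) hF1
    have hc : ∀ C : Finset G, cost R g (X + C) ≤ α * R.card * (X + C).card := by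
      intro C
      refine (petridis_multi R g X (cost R g X / X.card) (fun S hS => hXmin S (hS.trans hXT))
        (by rw [div_mul_cancel₀ _ hX0.ne']) C).trans ?_
      gcongr
    obtain ⟨U, hUR, hUk, hU⟩ := absorb_half R g X hXne hα hc ((R.card + 1) / 2) (by omega)
    obtain ⟨E', hE'U, hE'c, hE'⟩ := Finset.ruzsa_covering_add hXne (A := sums g U)
      (K := (1 + 2 * α) ^ ((R.card + 1) / 2)) (by rw [add_comm]; exact hU)
    refine ⟨R \ U, (Finset.sdiff_subset).trans hRJ, ?_, E + E', ?_, ?_⟩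
    · rw [Finset.card_sdiff_of_subset hUR, hUk]
      calc 2 ^ (k + 1) * (R.card - (R.card + 1) / 2) = 2 ^ k * (2 * (R.card - (R.card + 1) / 2)) := by
            ring
        _ ≤ 2 ^ k * R.card := Nat.mul_le_mul_left _ (by omega)
        _ ≤ J₀.card := hRc
    · have hR1 : R.card ≤ J₀.card := Finset.card_le_card hRJ
      have hU1 : U.card ≤ R.card := Finset.card_le_card hUR
      calc ((E + E').card : ℝ) ≤ E.card * E'.card := by exact_mod_cast Finset.card_add_le
        _ ≤ (1 + 2 * α) ^ (J₀.card - R.card) * (1 + 2 * α) ^ ((R.card + 1) / 2) := by gcongr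
        _ = (1 + 2 * α) ^ (J₀.card - R.card + (R.card + 1) / 2) := by rw [pow_add]
        _ = (1 + 2 * α) ^ (J₀.card - (R \ U).card) := by
          congr 1
          rw [Finset.card_sdiff_of_subset hUR, hUk]
          omega
    · intro x hx
      obtain ⟨S, hS, rfl⟩ := (mem_sums _ _ _).1 hx
      have h4 : ∑ i ∈ S \ U, g i ∈ sums g (J₀ \ R) := by
        refine (mem_sums _ _ _).2 ⟨_, fun i hi => ?_, rfl⟩
        have h5 := hS (Finset.mem_sdiff.1 hi).1
        have h6 := (Finset.mem_sdiff.1 hi).2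
        rw [Finset.mem_sdiff, Finset.mem_sdiff] at h5
        rw [Finset.mem_sdiff]
        exact ⟨h5.1, fun h => h5.2 ⟨h, h6⟩⟩
      have h5 : ∑ i ∈ S ∩ U, g i ∈ sums g U :=
        (mem_sums _ _ _).2 ⟨_, Finset.inter_subset_right, rfl⟩
      obtain ⟨e, he, he'⟩ := hE _ h4
      obtain ⟨f, hf, w, hw, hfw⟩ := Finset.mem_add.1 (hE' h5)
      obtain ⟨a, ha, b, hb, rfl⟩ := Finset.mem_sub.1 hw
      refine ⟨e + f, Finset.add_mem_add he hf, ?_⟩
      have h6 : ∑ i ∈ S, g i = ∑ i ∈ S \ U, g i + ∑ i ∈ S ∩ U, g i := by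
        rw [add_comm, Finset.sum_inter_add_sum_sdiff]
      have h7 : ∑ i ∈ S, g i - (e + f) = (∑ i ∈ S \ U, g i - e) + (a - b) := by
        rw [h6, ← hfw]; abel
      rw [h7]
      have h8 := Box.add he' (Box.sub (hTB a (hXT ha)) (hTB b (hXT hb)))
      exact Box.mono (Finset.Subset.refl _) (N' := 2 * (k + 1) * N) (by
        have : 2 * (k + 1) * N = 2 * k * N + (N + N) := by ring
        omega) h8

end Pool.Agent.KS6_86.FR
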