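import Pool.Agent.KS6_86.FR.ClaimW
import Pool.Agent.KS6_86.FR.ParW
import Pool.Graph.R_pool_sql_team_seeded_1acbe0a2.Y336.PF.Asym

/-! The conditions hold for all large `n`, uniformly for `κ ≤ (log n)^(1/8)`.
Adapted from `Y336.PF.Asym`. -/

set_option autoImplicit false

namespace Pool.Agent.KS6_86.FR

open Filter Topology H460 Pool.Agent.Y336.PF

theorem tendsto_logbN : Tendsto (fun n : ℕ => Real.logb 2 (n : ℝ)) atTop atTop :=
  (Real.tendsto_logb_atTop (b := 2) (by norm_num)).comp tendsto_natCast_atTop_atTop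

theorem tendsto_JW : Tendsto (fun n : ℕ => ⌊(Real.logb 2 (n : ℝ)) ^ (1 / 20 : ℝ)⌋₊) atTop atTop :=
  tendsto_nat_floor_atTop.comp ((tendsto_rpow_atTop (by norm_num)).comp tendsto_logbN)

theorem pow_forty_le : ∀ᶠ J : ℕ in atTop, 64 * ((J : ℝ) + 1) ^ 40 ≤ 2 ^ J := by
  have h1 : Tendsto (fun J : ℕ => ((J : ℝ) ^ 40 / 2 ^ J)) atTop (𝓝 0) :=
    tendsto_pow_const_div_const_pow_of_one_lt 40 (r := (2 : ℝ)) (by norm_num)
  have h2 : ∀ᶠ J : ℕ in atTop, ((J : ℝ) ^ 40 / 2 ^ J) < 1 / (64 * 2 ^ 40) := by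
    apply h1.eventually (gt_mem_nhds _)
    positivity
  filter_upwards [h2, eventually_ge_atTop 1] with J hJ hJ1
  have hJ1' : (1 : ℝ) ≤ J := by exact_mod_cast hJ1
  have h2J : (0 : ℝ) < 2 ^ J := by positivity
  rw [div_lt_iff₀ h2J] at hJ
  have h3 : ((J : ℝ) + 1) ^ 40 ≤ (2 * J) ^ 40 := by
    apply pow_le_pow_left₀ (by positivity)
    linarith
  have h6 : (2 * (J : ℝ)) ^ 40 = 2 ^ 40 * (J : ℝ) ^ 40 := by ring
  rw [h6] at h3
  have h7 : 1 / (64 * 2 ^ 40) * (2 : ℝ) ^ J * (64 * 2 ^ 40) = 2 ^ J := by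
    field_simp
  nlinarith

/-- the reverse Minkowski parameters exist for all large `n`, uniformly in `κ ≤ (log n)^(1/8)` -/
theorem par_evW {C0 : ℝ} (hC0 : 1 ≤ C0) : ∃ D : ℕ, ∀ᶠ n : ℕ in atTop, ∀ κ : ℕ, D ≤ κ →
    (κ : ℝ) ^ 8 ≤ Real.logb 2 (n : ℝ) → Par (1 / (64 * (κ : ℝ)) / 2) ((κ : ℝ) + 1) (1 / 2) C0 n := by
  set C2 : ℝ := 40960 * C0 * 128 ^ 3 with hC2
  have hC20 : 0 < C2 := by rw [hC2]; positivity
  obtain ⟨D, hD⟩ := exists_nat_ge (8192 + 82 * 128 * (1 + C2))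
  refine ⟨D, ?_⟩
  filter_upwards [eventually_ge_atTop 8, tendsto_JW.eventually pow_forty_le, cube_le,
    tendsto_logbN.eventually_ge_atTop ((48 * C2 ^ 2) ^ 40)] with n hn8 hJpow hcube hLC κ hDκ hκL
  set L : ℝ := Real.logb 2 (n : ℝ) with hL
  set J : ℕ := ⌊L ^ (1 / 20 : ℝ)⌋₊ with hJ
  have hn8' : (8 : ℝ) ≤ n := by exact_mod_cast hn8
  have hn0 : (0 : ℝ) < n := by linarith
  have hDκ' : (D : ℝ) ≤ κ := by exact_mod_cast hDκ
  set x : ℝ := (κ : ℝ) with hx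
  have hA : 8192 + 82 * 128 * (1 + C2) ≤ x := hD.trans hDκ'
  have hA2 : 0 ≤ 82 * 128 * (1 + C2) := by positivity
  have hx1 : 8192 ≤ x := by linarith
  have hx0 : 0 < x := by linarith
  have hxb : 82 * 128 * (1 + C2) ≤ x := by linarith
  have hx1' : 1 ≤ x := by linarith
  -- powers of x
  have hp1 : x ≤ x ^ 8 := le_self_pow₀ hx1' (by norm_num)
  have hp2 : x ^ 2 ≤ x ^ 8 := pow_le_pow_right₀ hx1' (by norm_num)
  have hp5 : x ^ 5 ≤ x ^ 8 := pow_le_pow_right₀ hx1' (by norm_num)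
  have hxx : 8192 * x ≤ x ^ 2 := by nlinarith
  have hxL : x ≤ L := hp1.trans hκL
  have hL0 : 0 < L := by linarith
  have hL1 : 1 ≤ L := by linarith
  have hLn : L ≤ n := by
    have h1 : L ^ 3 ≤ n := by linarith
    have h3 : L ≤ L ^ 3 := le_self_pow₀ hL1 (by norm_num)
    linarith
  -- J
  have hJ20 : (J : ℝ) ^ 20 ≤ L := by
    have h1 : (J : ℝ) ≤ L ^ (1 / 20 : ℝ) := Nat.floor_le (by positivity)
    calc (J : ℝ) ^ 20 ≤ (L ^ (1 / 20 : ℝ)) ^ 20 := pow_le_pow_left₀ (by positivity) h1 20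
      _ = L := by
        rw [← Real.rpow_natCast, ← Real.rpow_mul hL0.le]
        norm_num
  have hJlt : L ≤ ((J : ℝ) + 1) ^ 20 := by
    have h1 : L ^ (1 / 20 : ℝ) ≤ (J : ℝ) + 1 := (Nat.lt_floor_add_one _).le
    calc L = (L ^ (1 / 20 : ℝ)) ^ 20 := by
          rw [← Real.rpow_natCast, ← Real.rpow_mul hL0.le]
          norm_num
      _ ≤ ((J : ℝ) + 1) ^ 20 := pow_le_pow_left₀ (by positivity) h1 20
  have hJL : (J : ℝ) ≤ L := by
    rcases Nat.eq_zero_or_pos J with h0 | h0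
    · rw [h0]; simpa using hL0.le
    · have h1 : (1 : ℝ) ≤ J := by exact_mod_cast h0
      exact (le_self_pow₀ h1 (by norm_num)).trans hJ20
  have hε : (0 : ℝ) < 1 / (64 * x) / 2 := by positivity
  have he : 1 / (64 * x) / 2 = 1 / (128 * x) := by rw [div_div]; ring_nf
  have hinv : ∀ y : ℝ, y / (1 / (64 * x) / 2) = y * (128 * x) := by
    intro y; rw [he]; field_simp
  refine par_ofW (J := J) hε ?_ (by linarith) (by norm_num) hC0 (by omega) ?_ ?_ ?_ ?_ ?_ hJL ?_ ?_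
  · rw [he, div_le_one (by positivity)]
    linarith
  · -- logb 2 (κ+1) + 2 ≤ L
    have h1 : Real.logb 2 (x + 1) ≤ x + 1 := by
      rw [Real.logb_le_iff_le_rpow (by norm_num) (by linarith)]
      have h2 : ((κ + 1 : ℕ) : ℝ) ≤ 2 ^ (κ + 1) := by exact_mod_cast (Nat.lt_two_pow_self).le
      have h3 : (2 : ℝ) ^ (x + 1) = 2 ^ (κ + 1) := by
        rw [hx, ← Nat.cast_succ, Real.rpow_natCast]
      rw [h3]
      push_cast at h2
      exact h2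
    linarith
  · rw [hinv]
    linarith
  · linarith
  · linarith
  · -- powers of two
    have h1 : 16 * (x + 1) / (1 / 2) = 32 * (x + 1) := by ring
    rw [h1]
    have h2 : x + 1 ≤ 2 * L := by linarith
    calc 32 * (x + 1) * L ≤ 32 * (2 * L) * L := by gcongr
      _ = 64 * L ^ 2 := by ring
      _ ≤ 64 * (((J : ℝ) + 1) ^ 20) ^ 2 := by gcongr
      _ = 64 * ((J : ℝ) + 1) ^ 40 := by ring
      _ ≤ 2 ^ J := hJpow
  · have h1 : 82 / (1 / (64 * x) / 2) = 82 * 128 * x := by rw [hinv]; ring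
    have h2 : 40960 * C0 / (1 / (64 * x) / 2) ^ 3 = C2 * x ^ 3 := by
      rw [he, hC2]; field_simp
    rw [h1, h2]
    have h3 : 1 + C2 * x ^ 3 ≤ (1 + C2) * x ^ 3 := by
      have h4 : 1 ≤ x ^ 3 := one_le_pow₀ hx1'
      nlinarith
    calc 82 * 128 * x * (1 + C2 * x ^ 3) * L ^ 2
        ≤ 82 * 128 * x * ((1 + C2) * x ^ 3) * L ^ 2 := by gcongr
      _ = (82 * 128 * (1 + C2)) * x ^ 4 * L ^ 2 := by ring
      _ ≤ x * x ^ 4 * L ^ 2 := by gcongr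
      _ = x ^ 5 * L ^ 2 := by ring
      _ ≤ L * L ^ 2 := by
        gcongr
        exact hp5.trans hκL
      _ = L ^ 3 := by ring
      _ ≤ (n : ℝ) / 8 := hcube
      _ = 1 / 2 * n / 4 := by ring
  · have h2 : 40960 * C0 / (1 / (64 * x) / 2) ^ 3 = C2 * x ^ 3 := by
      rw [he, hC2]; field_simp
    rw [h2]
    have h3 : 12 * (x + 1) * (C2 * x ^ 3) ^ 2 / (1 / 2) * (J : ℝ) ^ 2 ≤
        48 * C2 ^ 2 * x ^ 7 * (J : ℝ) ^ 2 := by
      calc 12 * (x + 1) * (C2 * x ^ 3) ^ 2 / (1 / 2) * (J : ℝ) ^ 2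
          = 24 * (x + 1) * (C2 ^ 2 * x ^ 6) * (J : ℝ) ^ 2 := by ring
        _ ≤ 24 * (2 * x) * (C2 ^ 2 * x ^ 6) * (J : ℝ) ^ 2 := by
          gcongr
          linarith
        _ = 48 * C2 ^ 2 * x ^ 7 * (J : ℝ) ^ 2 := by ring
    refine h3.trans ?_
    have h4 : (48 * C2 ^ 2 * x ^ 7 * (J : ℝ) ^ 2) ^ 40 ≤ L ^ 40 := by
      calc (48 * C2 ^ 2 * x ^ 7 * (J : ℝ) ^ 2) ^ 40
          = (48 * C2 ^ 2) ^ 40 * (x ^ 8) ^ 35 * ((J : ℝ) ^ 20) ^ 4 := by ring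
        _ ≤ L * L ^ 35 * L ^ 4 := by gcongr
        _ = L ^ 40 := by ring
    exact le_of_pow_le_pow_left₀ (by norm_num) hL0.le h4

/-- claim* for all large `n`, uniformly in `κ`, `μ`, `t` -/
theorem claim_evW (hP : PFR2Statement) : ∃ D : ℕ, 8192 ≤ D ∧ ∀ᶠ n : ℕ in atTop, ∀ κ μ t : ℕ,
    D ≤ κ → (κ : ℝ) ^ 8 ≤ Real.logb 2 (n : ℝ) →
    64 * ((t + 1) * κ + 1 : ℝ) ≤ Real.logb 2 (n : ℝ) → μ + 4 ≤ n →
    ∀ L : AddSubgroup (Fin n → ℤ), Good n μ L → ClaimW n μ κ t L := by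
  obtain ⟨C0, hC0, hRM⟩ := rm_at hP
  obtain ⟨D, hD⟩ := par_evW hC0
  refine ⟨max D 8192, le_max_right _ _, ?_⟩
  filter_upwards [hD, eventually_ge_atTop 1, cube_le] with n hn hn1 hcube κ μ t hκ hκL htL hμ L hL
  have hκ1 : D ≤ κ := (le_max_left _ _).trans hκ
  have hκ2 : 8192 ≤ κ := (le_max_right _ _).trans hκ
  have hpar := hn κ hκ1 hκL
  set x : ℝ := (κ : ℝ) with hx
  have hx1 : (8192 : ℝ) ≤ x := by rw [hx]; exact_mod_cast hκ2
  have hx0 : 0 < x := by linarith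
  have hε0 : (0 : ℝ) < 1 / (64 * x) := by positivity
  have hn0 : (0 : ℝ) < n := by exact_mod_cast hn1
  have he : 1 / (64 * x) / 2 = 1 / (128 * x) := by rw [div_div]; ring_nf
  have hε1 : 1 / (64 * x) / 2 ≤ 1 := by
    rw [he, div_le_one (by positivity)]; linarith
  have hR := hRM n _ _ _ (by positivity) hε1 (by linarith) (by norm_num) hpar
  have hp2 : x ^ 3 ≤ x ^ 8 := pow_le_pow_right₀ (by linarith) (by norm_num)
  have hL' : x ^ 3 ≤ Real.logb 2 (n : ℝ) := hp2.trans hκL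
  set LL : ℝ := Real.logb 2 (n : ℝ) with hLL
  have hnL : (n : ℝ) = (2 : ℝ) ^ LL := by
    rw [hLL, Real.rpow_logb (by norm_num) (by norm_num) hn0]
  have hLL1 : 1 ≤ LL := by
    have : 1 ≤ x ^ 3 := one_le_pow₀ (by linarith)
    linarith
  have hLLn : LL ≤ n := by
    have h1 : LL ^ 3 ≤ n := by
      have : (0 : ℝ) ≤ n := hn0.le
      linarith
    have h3 : LL ≤ LL ^ 3 := le_self_pow₀ hLL1 (by norm_num)
    linarith
  have hpow4 : 4 * (16 * x + 4) < 4 ^ κ := by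
    have h1 : ((κ : ℕ) : ℝ) < 2 ^ κ := by exact_mod_cast Nat.lt_two_pow_self
    have h2 : (4 : ℝ) ^ κ = 2 ^ κ * 2 ^ κ := by
      rw [← mul_pow]; norm_num
    rw [h2]
    nlinarith
  have ha : (2 : ℝ) ^ (κ + 1) ≤ (n : ℝ) ^ (1 / (64 * x) / 2) := by
    rw [hnL, ← Real.rpow_mul (by norm_num), ← Real.rpow_natCast]
    apply Real.rpow_le_rpow_of_exponent_le (by norm_num)
    rw [he, mul_one_div, le_div_iff₀ (by positivity)]
    push_cast
    rw [← hx]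
    nlinarith [mul_pos hx0 hx0, mul_pos (mul_pos hx0 hx0) hx0]
  have hfew := few_at (κ := κ) (i0 := κ) hε0 hn1 hR hpow4 ha
  have ht0 : (0 : ℝ) ≤ t := by positivity
  have htn : t ≤ n ^ 2 := by
    have h1 : (t : ℝ) ≤ n := by
      have h2 : (t : ℝ) ≤ 64 * ((t + 1) * x + 1) := by nlinarith
      linarith
    have h3 : t ≤ n := by exact_mod_cast h1
    exact h3.trans (Nat.le_self_pow two_ne_zero n)
  refine claim_genW (ε := 1 / (64 * x)) hε0 (by omega) hn1 htn ?_ hμ ?_ hfew L hL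
  · rw [← hx]
    apply le_of_eq
    field_simp
  · have hpi2 : Real.sqrt Real.pi ≤ 2 := by
      rw [Real.sqrt_le_left (by norm_num)]
      linarith [Real.pi_lt_four]
    have hsp : (0 : ℝ) ≤ Real.sqrt Real.pi := Real.sqrt_nonneg _
    have h2n : ((n : ℝ)) ^ ((n : ℝ) / 32) = (n : ℝ) ^ ((n : ℝ) / 64) * (n : ℝ) ^ ((n : ℝ) / 64) := by
      rw [← Real.rpow_add hn0]; ring_nf
    have h1 : 2 * Real.sqrt Real.pi ^ (κ * n) * (2 : ℝ) ^ (t * (κ * n)) ≤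
        (n : ℝ) ^ ((n : ℝ) / 64) := by
      calc 2 * Real.sqrt Real.pi ^ (κ * n) * (2 : ℝ) ^ (t * (κ * n))
          ≤ 2 * 2 ^ (κ * n) * (2 : ℝ) ^ (t * (κ * n)) := by gcongr
        _ = (2 : ℝ) ^ (1 + κ * n + t * (κ * n)) := by
          rw [pow_add, pow_add, pow_one]
        _ = (2 : ℝ) ^ ((1 + κ * n + t * (κ * n) : ℕ) : ℝ) := (Real.rpow_natCast _ _).symm
        _ ≤ (2 : ℝ) ^ (LL * ((n : ℝ) / 64)) := by
          apply Real.rpow_le_rpow_of_exponent_le (by norm_num)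
          push_cast
          rw [← hx]
          have hnR : (1 : ℝ) ≤ n := by exact_mod_cast hn1
          have := mul_le_mul_of_nonneg_right htL hn0.le
          nlinarith
        _ = (n : ℝ) ^ ((n : ℝ) / 64) := by
          rw [Real.rpow_mul (by norm_num), ← hnL]
    rw [h2n]
    calc 2 * Real.sqrt Real.pi ^ (κ * n) * ((2 : ℝ) ^ (t * (κ * n)) * (n : ℝ) ^ ((n : ℝ) / 64))
        = (2 * Real.sqrt Real.pi ^ (κ * n) * (2 : ℝ) ^ (t * (κ * n))) *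
          (n : ℝ) ^ ((n : ℝ) / 64) := by ring
      _ ≤ (n : ℝ) ^ ((n : ℝ) / 64) * (n : ℝ) ^ ((n : ℝ) / 64) := by gcongr

end Pool.Agent.KS6_86.FR
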