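import Pool.Agent.KS6_86.FR.Ultra

/-! A statement about all injective homomorphisms of a lattice holds for the homomorphisms which
are injective on a large ball. -/

set_option autoImplicit false

open scoped Pointwise
open Filter H139R2.GP

namespace Pool.Agent.KS6_86.FR

universe u

/-- if the coincidences of one family of sums hold for another one, there are at most as many
different sums in the other family -/
theorem card_sums_le {G G' : Type*} [AddCommGroup G] [AddCommGroup G'] {ι : Type*} [Fintype ι]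
    (g : ι → G) (g' : ι → G')
    (h : ∀ S S' : Finset ι, ∑ i ∈ S, g i = ∑ i ∈ S', g i → ∑ i ∈ S, g' i = ∑ i ∈ S', g' i) :
    (sums g' Finset.univ).card ≤ (sums g Finset.univ).card := by
  classical
  have h1 : ∀ y : G, ∃ y' : G', ∀ S : Finset ι, ∑ i ∈ S, g i = y → ∑ i ∈ S, g' i = y' := by
    intro y
    by_cases hy : ∃ S : Finset ι, ∑ i ∈ S, g i = y
    · obtain ⟨S, hS⟩ := hy
      exact ⟨∑ i ∈ S, g' i, fun S' hS' => h S' S (hS'.trans hS.symm)⟩
    · exact ⟨0, fun S hS => absurd ⟨S, hS⟩ hy⟩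
  choose φ hφ using h1
  have h2 : sums g' Finset.univ ⊆ (sums g Finset.univ).image φ := by
    intro x hx
    obtain ⟨S, _, rfl⟩ := (mem_sums _ _ _).1 hx
    exact Finset.mem_image.2 ⟨∑ i ∈ S, g i, (mem_sums _ _ _).2 ⟨S, Finset.subset_univ _, rfl⟩,
      (hφ _ S rfl).symm⟩
  exact (Finset.card_le_card h2).trans Finset.card_image_le

/-- the compactness principle for cubes -/
theorem compact_cubes {n : ℕ} (L : AddSubgroup (Fin n → ℤ)) (q b : ℝ) (hq : 0 < q)
    (h : ∀ (G : Type u) [AddCommGroup G] (e : L →+ G), Function.Injective e →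
      ∀ (ι : Type) [Fintype ι] (g : ι → G) (a : G) (A' : Finset L), (∀ s ∈ A', s ∈ AA L) →
      (∀ s ∈ A', ∃ S : Finset ι, e s = a + ∑ i ∈ S, g i) →
      (A'.card : ℝ) * q ≤ max b ((sums g Finset.univ).card : ℝ)) :
    ∃ B : ℕ, ∀ (G : Type u) [AddCommGroup G] (e : L →+ G),
      (∀ x : L, (∀ i, |(x : Fin n → ℤ) i| ≤ B) → e x = 0 → x = 0) →
      ∀ (ι : Type) [Fintype ι] (g : ι → G) (a : G) (A' : Finset L), (∀ s ∈ A', s ∈ AA L) →
      (∀ s ∈ A', ∃ S : Finset ι, e s = a + ∑ i ∈ S, g i) →
      (A'.card : ℝ) * q ≤ max b ((sums g Finset.univ).card : ℝ) := by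
  classical
  set R : ℕ := ⌈((AA L).ncard : ℝ) * q⌉₊ with hR
  -- a counterexample for every ball, with a bounded number of generators
  by_contra hcon
  have hcon' : ∀ B : ℕ, ∃ (G : Type u) (_ : AddCommGroup G) (e : L →+ G),
      (∀ x : L, (∀ i, |(x : Fin n → ℤ) i| ≤ B) → e x = 0 → x = 0) ∧
      ∃ (g : Fin R → G) (a : G) (A' : Finset L), (∀ s ∈ A', s ∈ AA L) ∧
      (∀ s ∈ A', ∃ S : Finset (Fin R), e s = a + ∑ i ∈ S, g i) ∧
      max b ((sums g Finset.univ).card : ℝ) < (A'.card : ℝ) * q := by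
    intro B
    by_contra hB
    apply hcon
    refine ⟨B, ?_⟩
    intro G _ e he ι _ g a A' hA1 hA2
    by_contra hbad
    push Not at hbad
    apply hB
    have hA'c : A'.card ≤ (AA L).ncard := by
      rw [Set.ncard_eq_toFinset_card _ (AA_finite L)]
      apply Finset.card_le_card
      intro s hs
      exact (AA_finite L).mem_toFinset.2 (hA1 s hs)
    have hcard : (sums g Finset.univ).card ≤ R := by
      have h1 : ((sums g Finset.univ).card : ℝ) ≤ ((AA L).ncard : ℝ) * q := by
        refine (le_max_right b _).trans (hbad.le.trans ?_)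
        have : (A'.card : ℝ) ≤ (AA L).ncard := by exact_mod_cast hA'c
        gcongr
      have h2 := h1.trans (Nat.le_ceil _)
      exact_mod_cast h2
    obtain ⟨g', hg'⟩ := reduce_family g hcard
    refine ⟨G, inferInstance, e, he, g', a, A', hA1, ?_, ?_⟩
    · intro s hs
      obtain ⟨S, hS⟩ := hA2 s hs
      have h1 : ∑ i ∈ S, g i ∈ sums g' Finset.univ := by
        rw [hg']
        exact (mem_sums _ _ _).2 ⟨S, Finset.subset_univ _, rfl⟩
      obtain ⟨S', _, hS'⟩ := (mem_sums _ _ _).1 h1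
      exact ⟨S', by rw [hS, hS']⟩
    · rw [hg']
      exact hbad
  choose G inst e he g a A' hA1 hA2 hbad using hcon'
  set U : Ultrafilter ℕ := hyperfilter ℕ with hU
  have hUat : ∀ p : ℕ → Prop, (∀ᶠ B in atTop, p B) → ∀ᶠ B in (U : Filter ℕ), p B := by
    intro p hp
    have : (U : Filter ℕ) ≤ atTop := by
      rw [← Nat.cofinite_eq_atTop]
      exact hyperfilter_le_cofinite
    exact this hp
  -- the limit
  set es : L →+ ((∀ B, G B) ⧸ nullSub G U) :=
    (QuotientAddGroup.mk' (nullSub G U)).comp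
      { toFun := fun x B => e B x
        map_zero' := by funext B; simp
        map_add' := by intro x y; funext B; simp } with hes
  have hesa : ∀ x, es x = QuotientAddGroup.mk (fun B => e B x) := fun _ => rfl
  set gs : Fin R → ((∀ B, G B) ⧸ nullSub G U) := fun i => QuotientAddGroup.mk (fun B => g B i)
    with hgs
  set as : ((∀ B, G B) ⧸ nullSub G U) := QuotientAddGroup.mk a with has
  have hsum : ∀ S : Finset (Fin R), ∑ i ∈ S, gs i =
      QuotientAddGroup.mk (fun B => ∑ i ∈ S, g B i) := by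
    intro S
    have h1 : ∑ i ∈ S, gs i = QuotientAddGroup.mk' (nullSub G U) (∑ i ∈ S, fun B => g B i) := by
      rw [map_sum]
      rfl
    rw [h1]
    change QuotientAddGroup.mk _ = QuotientAddGroup.mk _
    congr 1
    funext B
    rw [Finset.sum_apply]
  have hesinj : Function.Injective es := by
    rw [injective_iff_map_eq_zero]
    intro x hx
    have h1 : (QuotientAddGroup.mk (fun B => e B x) : (∀ B, G B) ⧸ nullSub G U) =
        QuotientAddGroup.mk (fun _ => 0) := hx
    rw [mk_eq_iff] at h1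
    have h2 : ∀ᶠ B : ℕ in (U : Filter ℕ), ∀ i, |(x : Fin n → ℤ) i| ≤ (B : ℤ) := by
      apply hUat
      rw [eventually_all]
      intro i
      filter_upwards [eventually_ge_atTop (|(x : Fin n → ℤ) i|).toNat] with B hB
      have := Int.self_le_toNat (|(x : Fin n → ℤ) i|)
      have h3 : ((|(x : Fin n → ℤ) i|).toNat : ℤ) ≤ B := by exact_mod_cast hB
      linarith
    obtain ⟨B, hB1, hB2⟩ := (h1.and h2).exists
    exact he B x hB2 hB1
  -- almost every counterexample is a counterexample in the limit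
  have hev1 : ∀ᶠ B in (U : Filter ℕ), ∀ S S' : Finset (Fin R),
      ∑ i ∈ S, g B i = ∑ i ∈ S', g B i → ∑ i ∈ S, gs i = ∑ i ∈ S', gs i := by
    rw [eventually_all]
    intro S
    rw [eventually_all]
    intro S'
    filter_upwards [ev_imp U (fun B => ∑ i ∈ S, g B i = ∑ i ∈ S', g B i)] with B hB hB'
    rw [hsum, hsum, mk_eq_iff]
    exact hB hB'
  have hev2 : ∀ᶠ B in (U : Filter ℕ), ∀ s ∈ (AA_finite L).toFinset, ∀ S : Finset (Fin R),
      e B s = a B + ∑ i ∈ S, g B i → es s = as + ∑ i ∈ S, gs i := by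
    rw [Filter.eventually_all_finset]
    intro s _
    rw [eventually_all]
    intro S
    filter_upwards [ev_imp U (fun B => e B s = a B + ∑ i ∈ S, g B i)] with B hB hB'
    rw [hsum, hesa, has, ← QuotientAddGroup.mk_add, mk_eq_iff]
    exact hB hB'
  obtain ⟨B, hB1, hB2⟩ := (hev1.and hev2).exists
  have h1 := h _ es hesinj (Fin R) gs as (A' B) (hA1 B) (fun s hs => by
    obtain ⟨S, hS⟩ := hA2 B s hs
    exact ⟨S, hB2 s ((AA_finite L).mem_toFinset.2 (hA1 B s hs)) S hS⟩)
  have h2 : ((sums gs Finset.univ).card : ℝ) ≤ (sums (g B) Finset.univ).card := by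
    exact_mod_cast card_sums_le (g B) gs hB1
  have h3 := hbad B
  have h4 : max b ((sums gs Finset.univ).card : ℝ) ≤ max b ((sums (g B) Finset.univ).card : ℝ) :=
    max_le_max le_rfl h2
  linarith

end Pool.Agent.KS6_86.FR
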