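import Pool.Agent.KS6_86.FR.Compact

/-! The compactness principle for progressions with few short sides, in torsion-free groups. -/

set_option autoImplicit false

open scoped Pointwise
open Filter H139R2.GP

namespace Pool.Agent.KS6_86.FR

universe u

/-- membership in the set of the subset sums of the unit generators of a progression -/
theorem mem_sums_prog {G : Type*} [AddCommGroup G] {d : ℕ} (v : Fin d → G) (N : Fin d → ℕ)
    (hN : ∀ i, 0 < N i) (x : G) : x ∈ sums (fun p : Idx N => v p.1) Finset.univ ↔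
      ∃ k : Fin d → ℕ, (∀ i, k i < N i) ∧ x = ∑ i, k i • v i := by
  have h1 := prog_eq (0 : G) v N hN x
  simp only [zero_add] at h1
  rw [h1, mem_sums]
  constructor
  · rintro ⟨S, _, rfl⟩; exact ⟨S, rfl⟩
  · rintro ⟨S, rfl⟩; exact ⟨S, Finset.subset_univ _, rfl⟩

/-- a family of nonzero elements of a torsion-free group has many subset sums -/
theorem card_lt_sums {G : Type*} [AddCommGroup G] (htf : ∀ (m : ℕ) (x : G), m ≠ 0 → m • x = 0 → x = 0)
    {ι : Type*} (g : ι → G) (I : Finset ι) (hI : ∀ i ∈ I, g i ≠ 0) :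
    I.card < (sums g I).card := by
  classical
  induction I using Finset.induction_on with
  | empty => simpa using one_le_card_sums g ∅
  | insert j I hj ih =>
    have h1 := ih (fun i hi => hI i (Finset.mem_insert_of_mem hi))
    rw [Finset.card_insert_of_notMem hj, sums_insert g hj]
    have hj0 := hI j (Finset.mem_insert_self _ _)
    suffices h : (sums g I).card < (two (sums g I) (g j)).card by omega
    apply Finset.card_lt_card
    rw [Finset.ssubset_iff_subset_ne]
    refine ⟨Finset.subset_union_left, ?_⟩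
    intro heq
    -- the set would be invariant
    have h2 : ∀ m : ℕ, ∀ y ∈ sums g I, m • g j + y ∈ sums g I := by
      intro m
      induction m with
      | zero => intro y hy; simpa using hy
      | succ m ihm =>
        intro y hy
        rw [heq, mem_two]
        right
        exact ⟨m • g j + y, ihm y hy, by rw [succ_nsmul]; abel⟩
    have h0 : (0 : G) ∈ sums g I := (mem_sums _ _ _).2 ⟨∅, Finset.empty_subset _, by simp⟩
    have h3 : Set.MapsTo (fun m : ℕ => m • g j) Set.univ (sums g I : Set G) := by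
      intro m _
      have := h2 m 0 h0
      rwa [add_zero] at this
    have h4 : Set.InjOn (fun m : ℕ => m • g j) Set.univ := by
      intro m _ m' _ h
      by_contra hne
      rcases Nat.lt_or_gt_of_ne hne with h5 | h5
      · have h6 : (m' - m) • g j = 0 := by
          rw [sub_nsmul _ h5.le]
          simp only at h
          rw [h, add_neg_cancel]
        exact hj0 (htf _ _ (by omega) h6)
      · have h6 : (m - m') • g j = 0 := by
          rw [sub_nsmul _ h5.le]
          simp only at h
          rw [h, add_neg_cancel]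
        exact hj0 (htf _ _ (by omega) h6)
    exact Set.infinite_univ.not_finite (Set.Finite.of_injOn h3 h4 (Finset.finite_toSet _))

/-- a progression with few elements in a torsion-free group has few relevant sides -/
theorem reduce_prog {G : Type*} [AddCommGroup G]
    (htf : ∀ (m : ℕ) (x : G), m ≠ 0 → m • x = 0 → x = 0) {d : ℕ} (v : Fin d → G)
    (N : Fin d → ℕ) (hN : ∀ i, 0 < N i) {R : ℕ}
    (hR : (sums (fun p : Idx N => v p.1) Finset.univ).card ≤ R) (t : ℕ) :
    ∃ (v' : Fin R → G) (N' : Fin R → ℕ), (∀ i, 0 < N' i) ∧ (∀ i, N' i < R + 2) ∧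
      Fintype.card {i : Fin R // 2 ≤ N' i ∧ N' i ≤ 2 ^ t} ≤
        Fintype.card {i : Fin d // 2 ≤ N i ∧ N i ≤ 2 ^ t} ∧
      sums (fun p : Idx N' => v' p.1) Finset.univ = sums (fun p : Idx N => v p.1) Finset.univ := by
  classical
  set I : Finset (Fin d) := Finset.univ.filter (fun i => v i ≠ 0 ∧ 2 ≤ N i) with hI
  have hImem : ∀ i, i ∈ I ↔ v i ≠ 0 ∧ 2 ≤ N i := fun i => by simp [hI]
  -- few relevant sides
  have hIR : I.card ≤ R := by
    have h1 := card_lt_sums htf v I (fun i hi => ((hImem i).1 hi).1)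
    have h2 : sums v I ⊆ sums (fun p : Idx N => v p.1) Finset.univ := by
      intro x hx
      obtain ⟨S, hS, rfl⟩ := (mem_sums _ _ _).1 hx
      rw [mem_sums_prog v N hN]
      refine ⟨fun i => if i ∈ S then 1 else 0, fun i => ?_, ?_⟩
      · dsimp only
        split_ifs with h
        · have := ((hImem i).1 (hS h)).2
          omega
        · exact hN i
      · simp [ite_smul]
    have h3 := Finset.card_le_card h2
    omega
  -- short sides
  have hNR : ∀ i ∈ I, N i ≤ R := by
    intro i hi
    have h0 := ((hImem i).1 hi).1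
    have h1 : (Finset.range (N i)).image (fun k => k • v i) ⊆
        sums (fun p : Idx N => v p.1) Finset.univ := by
      intro x hx
      obtain ⟨k, hk, rfl⟩ := Finset.mem_image.1 hx
      rw [mem_sums_prog v N hN]
      refine ⟨fun j => if j = i then k else 0, fun j => ?_, ?_⟩
      · dsimp only
        split_ifs with h
        · rw [h]; exact Finset.mem_range.1 hk
        · exact hN j
      · simp [ite_smul]
    have h2 : ((Finset.range (N i)).image (fun k => k • v i)).card = N i := by
      rw [Finset.card_image_of_injOn, Finset.card_range]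
      intro m _ m' _ h
      by_contra hne
      rcases Nat.lt_or_gt_of_ne hne with h5 | h5
      · have h6 : (m' - m) • v i = 0 := by
          rw [sub_nsmul _ h5.le]
          simp only at h
          rw [h, add_neg_cancel]
        exact h0 (htf _ _ (by omega) h6)
      · have h6 : (m - m') • v i = 0 := by
          rw [sub_nsmul _ h5.le]
          simp only at h
          rw [h, add_neg_cancel]
        exact h0 (htf _ _ (by omega) h6)
    have h3 := Finset.card_le_card h1
    omega
  obtain ⟨f⟩ : Nonempty (I ↪ Fin R) := by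
    rw [Function.Embedding.nonempty_iff_card_le]
    simpa using hIR
  set v' : Fin R → G := Function.extend f (fun i : I => v i) 0 with hv'
  set N' : Fin R → ℕ := Function.extend f (fun i : I => N i) 1 with hN'
  have hv'f : ∀ i : I, v' (f i) = v i := fun i => f.injective.extend_apply _ _ i
  have hN'f : ∀ i : I, N' (f i) = N i := fun i => f.injective.extend_apply _ _ i
  have hv'0 : ∀ k, (¬ ∃ i, f i = k) → v' k = 0 := fun k hk => Function.extend_apply' _ _ _ hk
  have hN'0 : ∀ k, (¬ ∃ i, f i = k) → N' k = 1 := fun k hk => Function.extend_apply' _ _ _ hk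
  have hN'pos : ∀ k, 0 < N' k := by
    intro k
    by_cases h : ∃ i, f i = k
    · obtain ⟨i, rfl⟩ := h
      rw [hN'f]; exact hN _
    · rw [hN'0 k h]; norm_num
  refine ⟨v', N', hN'pos, ?_, ?_, ?_⟩
  · intro k
    by_cases h : ∃ i, f i = k
    · obtain ⟨i, rfl⟩ := h
      rw [hN'f]
      have := hNR i i.2
      omega
    · rw [hN'0 k h]; omega
  · have h1 : ∀ k : {i : Fin R // 2 ≤ N' i ∧ N' i ≤ 2 ^ t}, ∃ i : I, f i = k := by
      intro k
      by_contra h
      have := hN'0 _ h
      have := k.2.1
      omega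
    choose φ hφ using h1
    apply Fintype.card_le_of_injective (fun k => (⟨(φ k : Fin d), by
      have := k.2
      rw [← hφ k, hN'f] at this
      exact this⟩ : {i : Fin d // 2 ≤ N i ∧ N i ≤ 2 ^ t}))
    intro k k' h
    have h2 : φ k = φ k' := Subtype.ext (Subtype.mk.inj h)
    apply Subtype.ext
    rw [← hφ k, ← hφ k', h2]
  · ext x
    rw [mem_sums_prog v' N' hN'pos, mem_sums_prog v N hN]
    constructor
    · rintro ⟨k, hk, rfl⟩
      refine ⟨fun i => if h : i ∈ I then k (f ⟨i, h⟩) else 0, fun i => ?_, ?_⟩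
      · dsimp only
        split_ifs with h
        · have := hk (f ⟨i, h⟩)
          rw [hN'f] at this
          exact this
        · exact hN i
      · have h1 : ∑ i, (if h : i ∈ I then k (f ⟨i, h⟩) else 0) • v i =
            ∑ i : I, k (f i) • v i := by
          rw [← Finset.sum_subset (Finset.subset_univ I)
            (fun i _ hi => by rw [dif_neg hi, zero_smul]), ← Finset.sum_coe_sort I]
          apply Finset.sum_congr rfl
          intro i _
          rw [dif_pos i.2]
        rw [h1]
        symm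
        apply Fintype.sum_of_injective f f.injective
        · intro j hj
          rw [hv'0 j (fun ⟨i, hi⟩ => hj ⟨i, hi⟩), smul_zero]
        · intro i
          rw [hv'f]
    · rintro ⟨k, hk, rfl⟩
      set k' : Fin R → ℕ := Function.extend f (fun i : I => k i) 0 with hk'
      have hk'f : ∀ i : I, k' (f i) = k i := fun i => f.injective.extend_apply _ _ i
      have hk'0 : ∀ j, (¬ ∃ i, f i = j) → k' j = 0 := fun j hj => Function.extend_apply' _ _ _ hj
      refine ⟨k', fun j => ?_, ?_⟩
      · by_cases h : ∃ i, f i = j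
        · obtain ⟨i, rfl⟩ := h
          rw [hk'f, hN'f]; exact hk _
        · rw [hk'0 j h]; exact hN'pos j
      · have h1 : ∑ i, k i • v i = ∑ i : I, k i • v i := by
          rw [← Finset.sum_subset (Finset.subset_univ I) (fun i _ hi => by
            rw [hImem, not_and_or, not_not] at hi
            rcases hi with h | h
            · rw [h, smul_zero]
            · have h2 := hk i
              have h3 : k i = 0 := by omega
              rw [h3, zero_smul]), ← Finset.sum_coe_sort I]
        rw [h1]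
        apply Fintype.sum_of_injective f f.injective
        · intro j hj
          rw [hv'0 j (fun ⟨i, hi⟩ => hj ⟨i, hi⟩), smul_zero]
        · intro i
          rw [hv'f, hk'f]

/-- a function to a finite type is constant almost everywhere -/
theorem ultra_const (U : Ultrafilter ℕ) {X : Type*} [Finite X] (f : ℕ → X) :
    ∃ x, ∀ᶠ B in (U : Filter ℕ), f B = x := by
  by_contra hcon
  push Not at hcon
  have h1 : ∀ᶠ B in (U : Filter ℕ), ∀ x, ¬ (f B = x) := by
    rw [eventually_all]
    intro x
    exact hcon x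
  obtain ⟨B, hB⟩ := h1.exists
  exact hB (f B) rfl

/-- the compactness principle for progressions with few short sides -/
theorem compact_progs {n : ℕ} (L : AddSubgroup (Fin n → ℤ)) (q b : ℝ) (hq : 0 < q) (t m : ℕ)
    (h : ∀ (G : Type u) [AddCommGroup G] (e : L →+ G), Function.Injective e →
      ∀ (d : ℕ) (v : Fin d → G) (N : Fin d → ℕ), (∀ i, 0 < N i) →
      Fintype.card {i : Fin d // 2 ≤ N i ∧ N i ≤ 2 ^ t} ≤ m →
      ∀ (a : G) (A' : Finset L), (∀ s ∈ A', s ∈ AA L) →
      (∀ s ∈ A', ∃ S : Finset (Idx N), e s = a + ∑ p ∈ S, v p.1) →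
      (A'.card : ℝ) * q ≤ max b ((sums (fun p : Idx N => v p.1) Finset.univ).card : ℝ)) :
    ∃ B : ℕ, ∀ (G : Type u) [AddCommGroup G], (∀ (m : ℕ) (x : G), m ≠ 0 → m • x = 0 → x = 0) →
      ∀ (e : L →+ G),
      (∀ x : L, (∀ i, |(x : Fin n → ℤ) i| ≤ B) → e x = 0 → x = 0) →
      ∀ (d : ℕ) (v : Fin d → G) (N : Fin d → ℕ), (∀ i, 0 < N i) →
      Fintype.card {i : Fin d // 2 ≤ N i ∧ N i ≤ 2 ^ t} ≤ m →
      ∀ (a : G) (A' : Finset L), (∀ s ∈ A', s ∈ AA L) →
      (∀ s ∈ A', ∃ S : Finset (Idx N), e s = a + ∑ p ∈ S, v p.1) →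
      (A'.card : ℝ) * q ≤ max b ((sums (fun p : Idx N => v p.1) Finset.univ).card : ℝ) := by
  classical
  set R : ℕ := ⌈((AA L).ncard : ℝ) * q⌉₊ with hR
  -- a counterexample for every ball, with a bounded number of generators
  by_contra hcon
  have hcon' : ∀ B : ℕ, ∃ (G : Type u) (_ : AddCommGroup G) (e : L →+ G),
      (∀ x : L, (∀ i, |(x : Fin n → ℤ) i| ≤ B) → e x = 0 → x = 0) ∧
      ∃ (v : Fin R → G) (N : Fin R → ℕ) (a : G) (A' : Finset L), (∀ i, 0 < N i) ∧
      (∀ i, N i < R + 2) ∧ Fintype.card {i : Fin R // 2 ≤ N i ∧ N i ≤ 2 ^ t} ≤ m ∧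
      (∀ s ∈ A', s ∈ AA L) ∧
      (∀ s ∈ A', ∃ S : Finset (Idx N), e s = a + ∑ p ∈ S, v p.1) ∧
      max b ((sums (fun p : Idx N => v p.1) Finset.univ).card : ℝ) < (A'.card : ℝ) * q := by
    intro B
    by_contra hB
    apply hcon
    refine ⟨B, ?_⟩
    intro G _ htf e he d v N hN hshort a A' hA1 hA2
    by_contra hbad
    push Not at hbad
    apply hB
    have hA'c : A'.card ≤ (AA L).ncard := by
      rw [Set.ncard_eq_toFinset_card _ (AA_finite L)]
      apply Finset.card_le_card
      intro s hs
      exact (AA_finite L).mem_toFinset.2 (hA1 s hs)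
    have hcard : (sums (fun p : Idx N => v p.1) Finset.univ).card ≤ R := by
      have h1 : ((sums (fun p : Idx N => v p.1) Finset.univ).card : ℝ) ≤
          ((AA L).ncard : ℝ) * q := by
        refine (le_max_right b _).trans (hbad.le.trans ?_)
        have : (A'.card : ℝ) ≤ (AA L).ncard := by exact_mod_cast hA'c
        gcongr
      have h2 := h1.trans (Nat.le_ceil _)
      exact_mod_cast h2
    obtain ⟨v', N', hN'0, hN'R, hN's, hv'⟩ := reduce_prog htf v N hN hcard t
    refine ⟨G, inferInstance, e, he, v', N', a, A', hN'0, hN'R, hN's.trans hshort, hA1, ?_, ?_⟩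
    · intro s hs
      obtain ⟨S, hS⟩ := hA2 s hs
      have h1 : ∑ p ∈ S, v p.1 ∈ sums (fun p : Idx N' => v' p.1) Finset.univ := by
        rw [hv']
        exact (mem_sums _ _ _).2 ⟨S, Finset.subset_univ _, rfl⟩
      obtain ⟨S', _, hS'⟩ := (mem_sums _ _ _).1 h1
      exact ⟨S', by rw [hS, hS']⟩
    · rw [hv']
      exact hbad
  choose G inst e he v N a A' hN0 hNR hshort hA1 hA2 hbad using hcon'
  set U : Ultrafilter ℕ := hyperfilter ℕ with hU
  have hUat : ∀ p : ℕ → Prop, (∀ᶠ B in atTop, p B) → ∀ᶠ B in (U : Filter ℕ), p B := by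
    intro p hp
    have : (U : Filter ℕ) ≤ atTop := by
      rw [← Nat.cofinite_eq_atTop]
      exact hyperfilter_le_cofinite
    exact this hp
  -- the sides are constant almost everywhere
  obtain ⟨N₁, hN₁⟩ := ultra_const U (fun B => (fun i => ⟨N B i, hNR B i⟩ : Fin R → Fin (R + 2)))
  set N₀ : Fin R → ℕ := fun i => (N₁ i : ℕ) with hN₀
  have hNev : ∀ᶠ B in (U : Filter ℕ), N B = N₀ := by
    filter_upwards [hN₁] with B hB
    funext i
    rw [hN₀, ← hB]
  -- the limit
  set es : L →+ ((∀ B, G B) ⧸ nullSub G U) :=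
    (QuotientAddGroup.mk' (nullSub G U)).comp
      { toFun := fun x B => e B x
        map_zero' := by funext B; simp
        map_add' := by intro x y; funext B; simp } with hes
  have hesa : ∀ x, es x = QuotientAddGroup.mk (fun B => e B x) := fun _ => rfl
  set vs : Fin R → ((∀ B, G B) ⧸ nullSub G U) := fun i => QuotientAddGroup.mk (fun B => v B i)
    with hvs
  set as : ((∀ B, G B) ⧸ nullSub G U) := QuotientAddGroup.mk a with has
  have hsum : ∀ S : Finset (Idx N₀), ∑ p ∈ S, vs p.1 =
      QuotientAddGroup.mk (fun B => ∑ p ∈ S, v B p.1) := by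
    intro S
    have h1 : ∑ p ∈ S, vs p.1 =
        QuotientAddGroup.mk' (nullSub G U) (∑ p ∈ S, fun B => v B p.1) := by
      rw [map_sum]
      rfl
    rw [h1]
    change QuotientAddGroup.mk _ = QuotientAddGroup.mk _
    congr 1
    funext B
    rw [Finset.sum_apply]
  have hesinj : Function.Injective es := by
    rw [injective_iff_map_eq_zero]
    intro x hx
    have h1 : (QuotientAddGroup.mk (fun B => e B x) : (∀ B, G B) ⧸ nullSub G U) =
        QuotientAddGroup.mk (fun _ => 0) := hx
    rw [mk_eq_iff] at h1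
    have h2 : ∀ᶠ B : ℕ in (U : Filter ℕ), ∀ i, |(x : Fin n → ℤ) i| ≤ (B : ℤ) := by
      apply hUat
      rw [eventually_all]
      intro i
      filter_upwards [eventually_ge_atTop (|(x : Fin n → ℤ) i|).toNat] with B hB
      have := Int.self_le_toNat (|(x : Fin n → ℤ) i|)
      have h3 : ((|(x : Fin n → ℤ) i|).toNat : ℤ) ≤ B := by exact_mod_cast hB
      linarith
    obtain ⟨B, hB1, hB2⟩ := (h1.and h2).exists
    exact he B x hB2 hB1
  -- almost every counterexample is a counterexample in the limit
  have hev1 : ∀ᶠ B in (U : Filter ℕ), ∀ S S' : Finset (Idx N₀),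
      ∑ p ∈ S, v B p.1 = ∑ p ∈ S', v B p.1 → ∑ p ∈ S, vs p.1 = ∑ p ∈ S', vs p.1 := by
    rw [eventually_all]
    intro S
    rw [eventually_all]
    intro S'
    filter_upwards [ev_imp U (fun B => ∑ p ∈ S, v B p.1 = ∑ p ∈ S', v B p.1)] with B hB hB'
    rw [hsum, hsum, mk_eq_iff]
    exact hB hB'
  have hev2 : ∀ᶠ B in (U : Filter ℕ), ∀ s ∈ (AA_finite L).toFinset, ∀ S : Finset (Idx N₀),
      e B s = a B + ∑ p ∈ S, v B p.1 → es s = as + ∑ p ∈ S, vs p.1 := by
    rw [Filter.eventually_all_finset]
    intro s _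
    rw [eventually_all]
    intro S
    filter_upwards [ev_imp U (fun B => e B s = a B + ∑ p ∈ S, v B p.1)] with B hB hB'
    rw [hsum, hesa, has, ← QuotientAddGroup.mk_add, mk_eq_iff]
    exact hB hB'
  obtain ⟨B, ⟨hB1, hB2⟩, hB3⟩ := ((hev1.and hev2).and hNev).exists
  have key : ∀ N₂ : Fin R → ℕ, N B = N₂ → (∀ i, 0 < N₂ i) ∧
      Fintype.card {i : Fin R // 2 ≤ N₂ i ∧ N₂ i ≤ 2 ^ t} ≤ m ∧
      (∀ s ∈ A' B, ∃ S : Finset (Idx N₂), e B s = a B + ∑ p ∈ S, v B p.1) ∧
      max b ((sums (fun p : Idx N₂ => v B p.1) Finset.univ).card : ℝ) <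
        ((A' B).card : ℝ) * q := by
    rintro _ rfl
    exact ⟨hN0 B, hshort B, hA2 B, hbad B⟩
  obtain ⟨k1, k2, k3, k4⟩ := key N₀ hB3
  have h1 := h _ es hesinj R vs N₀ k1 k2 as (A' B) (hA1 B) (fun s hs => by
    obtain ⟨S, hS⟩ := k3 s hs
    exact ⟨S, hB2 s ((AA_finite L).mem_toFinset.2 (hA1 B s hs)) S hS⟩)
  have h2 : ((sums (fun p : Idx N₀ => vs p.1) Finset.univ).card : ℝ) ≤
      (sums (fun p : Idx N₀ => v B p.1) Finset.univ).card := by
    exact_mod_cast card_sums_le (fun p : Idx N₀ => v B p.1) (fun p : Idx N₀ => vs p.1) hB1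
  have h4 := max_le_max (le_refl b) h2
  linarith

end Pool.Agent.KS6_86.FR
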