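import Mathlib

/-! Balanced digits: a homomorphism from `ℤ ^ n` to the multiples of an element which is
injective on a ball. -/

set_option autoImplicit false

namespace Pool.Agent.KS6_86.FR

theorem digits_bound {n : ℕ} {B : ℤ} (hB : 0 ≤ B) (y : Fin n → ℤ) (hy : ∀ i, |y i| ≤ B) :
    2 * |∑ i, y i * (2 * B + 1) ^ (i : ℕ)| < (2 * B + 1) ^ n := by
  induction n with
  | zero => simp
  | succ n ih =>
    rw [Fin.sum_univ_castSucc]
    have h1 := ih (fun i => y i.castSucc) (fun i => hy i.castSucc)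
    have h2 := hy (Fin.last n)
    have h3 : |∑ i : Fin n, y i.castSucc * (2 * B + 1) ^ ((i.castSucc : Fin (n + 1)) : ℕ) +
        y (Fin.last n) * (2 * B + 1) ^ ((Fin.last n : Fin (n + 1)) : ℕ)| ≤
        |∑ i : Fin n, y i.castSucc * (2 * B + 1) ^ (i : ℕ)| + B * (2 * B + 1) ^ n := by
      refine (abs_add_le _ _).trans ?_
      apply add_le_add
      · apply le_of_eq
        rfl
      · rw [abs_mul, abs_of_nonneg (show (0 : ℤ) ≤ (2 * B + 1) ^ ((Fin.last n : Fin (n + 1)) : ℕ) by
          positivity)]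
        simp only [Fin.val_last]
        gcongr
    rw [pow_succ]
    nlinarith

theorem digits_inj {n : ℕ} {B : ℤ} (hB : 0 ≤ B) (y : Fin n → ℤ) (hy : ∀ i, |y i| ≤ B)
    (h : ∑ i, y i * (2 * B + 1) ^ (i : ℕ) = 0) : ∀ i, y i = 0 := by
  induction n with
  | zero => exact fun i => i.elim0
  | succ n ih =>
    rw [Fin.sum_univ_succ] at h
    have h1 : ∑ i : Fin n, y i.succ * (2 * B + 1) ^ ((i.succ : Fin (n + 1)) : ℕ) =
        (2 * B + 1) * ∑ i : Fin n, y i.succ * (2 * B + 1) ^ (i : ℕ) := by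
      rw [Finset.mul_sum]
      apply Finset.sum_congr rfl
      intro i _
      rw [Fin.val_succ, pow_succ]
      ring
    rw [h1] at h
    simp only [Fin.val_zero, pow_zero, mul_one] at h
    set s := ∑ i : Fin n, y i.succ * (2 * B + 1) ^ (i : ℕ) with hs
    have h2 := abs_le.1 (hy 0)
    have h3 : s = 0 := by
      by_contra hne
      rcases lt_or_gt_of_ne hne with h4 | h4
      · have : s ≤ -1 := by omega
        nlinarith
      · have : 1 ≤ s := by omega
        nlinarith
    rw [h3, mul_zero, add_zero] at h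
    intro i
    refine Fin.cases h (fun j => ?_) i
    exact ih (fun i => y i.succ) (fun i => hy i.succ) h3 j

/-- the homomorphism `y ↦ (∑ y_i (2B+1)^i) x` -/
def dig {G : Type*} [AddCommGroup G] (n B : ℕ) (x : G) : (Fin n → ℤ) →+ G where
  toFun y := (∑ i, y i * (2 * (B : ℤ) + 1) ^ (i : ℕ)) • x
  map_zero' := by simp
  map_add' := by
    intro y z
    rw [← add_smul, ← Finset.sum_add_distrib]
    congr 2
    funext i
    rw [Pi.add_apply]
    ring

theorem dig_inj {G : Type*} [AddCommGroup G] {n B : ℕ} {x : G}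
    (hx : ∀ m : ℕ, 0 < m → m ≤ (2 * B + 1) ^ n → m • x ≠ 0) (y : Fin n → ℤ)
    (hy : ∀ i, |y i| ≤ (B : ℤ)) (h : dig n B x y = 0) : y = 0 := by
  have hB : (0 : ℤ) ≤ B := by positivity
  have h1 := digits_bound hB y hy
  set s := ∑ i, y i * (2 * (B : ℤ) + 1) ^ (i : ℕ) with hs
  have h2 : s • x = 0 := h
  have h3 : s = 0 := by
    by_contra hne
    have h4 : 0 < s.natAbs := Int.natAbs_pos.2 hne
    have h5 : s.natAbs ≤ (2 * B + 1) ^ n := by
      have h6 : (s.natAbs : ℤ) ≤ (((2 * B + 1) ^ n : ℕ) : ℤ) := by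
        rw [Int.natCast_natAbs]
        push_cast
        have := abs_nonneg s
        linarith
      exact_mod_cast h6
    apply hx _ h4 h5
    rcases Int.natAbs_eq s with h6 | h6
    · rw [h6] at h2
      rw [← natCast_zsmul]
      exact h2
    · rw [h6, neg_smul, neg_eq_zero] at h2
      rw [← natCast_zsmul]
      exact h2
  funext i
  exact digits_inj hB y hy h3 i

theorem dig_mem {G : Type*} [AddCommGroup G] (n B : ℕ) (x : G) (y : Fin n → ℤ) :
    dig n B x y ∈ AddSubgroup.zmultiples x :=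
  ⟨_, rfl⟩

end Pool.Agent.KS6_86.FR
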