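import Pool.Agent.KS6_86.FR.AsymW
import Pool.Agent.KS6_86.FR.CoreW
import Pool.Graph.R_pool_sql_team_seeded_1acbe0a2.Y336.PF.Main

/-! Lattice points in a cube and progressions with few short sides. -/

set_option autoImplicit false

namespace Pool.Agent.KS6_86.FR

open Filter Topology H460 Pool.Agent.Y336.PF H139R2.GP

/-- numerical conclusion -/
theorem num_maxW {n μ C1 t : ℕ} (hn : 8 ≤ n) (hμ : μ = 20 * C1 + 100)
    (ht : t = 8 * (C1 + μ + 12)) (a p b : ℝ) (hb : (2:ℝ) ^ (μ * n) / 2 ≤ b) (hp0 : 0 ≤ p)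
    (ha0 : 0 ≤ a) (ha : a ≤ 2 ^ (6 * n + 1 + (μ + 4) * n))
    (h : ((2:ℝ) ^ (t * (n/4)) ≤ p) ∨
    (a^3 ≤ p^2 * ((2 : ℝ) ^ ((14 + (μ : ℝ) / 2) * n) * 2 ^ (6 * n + 1 + (μ + 4) * (n/4))))) :
    a * (2:ℝ) ^ (C1 * n) ≤ max b p := by
  have hb0 : 0 < b := lt_of_lt_of_le (by positivity) hb
  set M := max b p with hM
  have hbM : b ≤ M := le_max_left _ _
  have hpM : p ≤ M := le_max_right _ _
  have hM0 : 0 < M := lt_of_lt_of_le hb0 hbM
  have hnr : (8:ℝ) ≤ n := by exact_mod_cast hn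
  have hn4' : ((n/4 : ℕ) : ℝ) ≤ (n:ℝ)/4 := by
    have : 4 * (n/4) ≤ n := by omega
    have : (4:ℝ) * ((n/4 : ℕ) : ℝ) ≤ n := by exact_mod_cast this
    linarith
  have hC0 : (0:ℝ) ≤ C1 := by positivity
  have hμ0 : (0:ℝ) ≤ μ := by positivity
  have hμr : (μ:ℝ) = 20 * C1 + 100 := by rw [hμ]; push_cast; ring
  have hCn : 0 ≤ (C1 : ℝ) * n := by positivity
  have hμn : 0 ≤ (μ : ℝ) * n := by positivity
  rcases h with h | h
  · refine le_trans ?_ (h.trans hpM)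
    calc a * (2:ℝ) ^ (C1 * n) ≤ 2 ^ (6 * n + 1 + (μ + 4) * n) * (2:ℝ) ^ (C1 * n) := by gcongr
      _ = 2 ^ (6 * n + 1 + (μ + 4) * n + C1 * n) := by rw [← pow_add]
      _ ≤ 2 ^ (t * (n/4)) := by
        apply pow_le_pow_right₀ (by norm_num)
        have h8 : n ≤ 8 * (n / 4) := by omega
        have h9 : (C1 + μ + 12) * n ≤ (C1 + μ + 12) * (8 * (n / 4)) := Nat.mul_le_mul_left _ h8
        have h10 : t * (n / 4) = (C1 + μ + 12) * (8 * (n / 4)) := by rw [ht]; ring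
        rw [h10]
        refine le_trans ?_ h9
        nlinarith
  · set Y := (2 : ℝ) ^ ((14 + (μ : ℝ) / 2) * n) * 2 ^ (6 * n + 1 + (μ + 4) * (n/4)) with hY
    have hY0 : 0 < Y := by positivity
    have h1 : Y * ((2:ℝ) ^ (C1 * n)) ^ 3 ≤ M := by
      refine le_trans ?_ (hb.trans hbM)
      have e2 : (2:ℝ) ^ (μ * n) / 2 = (2:ℝ) ^ ((μ : ℝ) * n - 1) := by
        rw [Real.rpow_sub (by norm_num), Real.rpow_one]
        congr 1
        rw [← Real.rpow_natCast]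
        push_cast
        rfl
      rw [e2, hY, ← pow_mul, ← Real.rpow_natCast 2 (6 * n + 1 + (μ + 4) * (n/4)),
        ← Real.rpow_natCast 2 (C1 * n * 3), ← Real.rpow_add (by norm_num),
        ← Real.rpow_add (by norm_num)]
      apply Real.rpow_le_rpow_of_exponent_le (by norm_num)
      push_cast
      have h5 : ((μ:ℝ)+4) * ((n/4 : ℕ) : ℝ) ≤ (μ+4) * (n/4) := by gcongr
      rw [hμr] at h5
      rw [hμr]
      nlinarith
    have h2 : (a * (2:ℝ) ^ (C1 * n)) ^ 3 ≤ M ^ 3 := by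
      calc (a * (2:ℝ) ^ (C1 * n)) ^ 3 = a ^ 3 * ((2:ℝ) ^ (C1 * n)) ^ 3 := by ring
        _ ≤ (p ^ 2 * Y) * ((2:ℝ) ^ (C1 * n)) ^ 3 := by gcongr
        _ = p ^ 2 * (Y * ((2:ℝ) ^ (C1 * n)) ^ 3) := by ring
        _ ≤ M ^ 2 * M := by gcongr
        _ = M ^ 3 := by ring
    exact (pow_le_pow_iff_left₀ (by positivity) hM0.le (by norm_num)).1 h2

/-- numerical consequences of the size of `n` -/
theorem big_of {n μ C1 κ t : ℕ} (hn : Real.log n ≤ n / 1000) (hn0 : 1 ≤ n)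
    (hμ : μ = 20 * C1 + 100) (hκ : 1 ≤ κ)
    (ht : 64 * ((t + 1) * κ + 1 : ℝ) ≤ Real.logb 2 (n : ℝ)) (hCt : 8 * (C1 + μ + 12) ≤ t) :
    H139R2.Big n μ := by
  refine ⟨?_, hn⟩
  have h1 : Real.logb 2 n * Real.log 2 = Real.log n := by
    unfold Real.logb
    field_simp
  have h2 : (1:ℝ) / 2 ≤ Real.log 2 := by
    have := Real.log_two_gt_d9
    linarith
  have h3 : (8 * (C1 + μ + 12) : ℝ) ≤ t := by exact_mod_cast hCt
  have hκ' : (1 : ℝ) ≤ κ := by exact_mod_cast hκ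
  have hC0 : (0 : ℝ) ≤ C1 := by positivity
  have hμ0 : (0 : ℝ) ≤ μ := by positivity
  have ht0 : (0 : ℝ) ≤ t := by positivity
  have h4 : 64 * ((t : ℝ) + 1) ≤ Real.logb 2 n := by
    refine le_trans ?_ ht
    nlinarith
  rw [← h1]
  nlinarith

/-- the first part: progressions with at most `κ n` short sides -/
theorem main_W : ∃ D : ℕ, 8192 ≤ D ∧ ∀ᶠ n : ℕ in atTop, ∀ κ C1 t : ℕ, D ≤ κ →
    t = 8 * (C1 + (20 * C1 + 100) + 12) → (κ : ℝ) ^ 8 ≤ Real.logb 2 (n : ℝ) →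
    64 * ((t + 1) * κ + 1 : ℝ) ≤ Real.logb 2 (n : ℝ) →
    ∃ L : AddSubgroup (Fin n → ℤ), Good n (20 * C1 + 100) L ∧
    ∀ (G : Type*) [AddCommGroup G] (e : L →+ G), Function.Injective e →
    ∀ (d : ℕ) (v : Fin d → G) (N : Fin d → ℕ), (∀ i, 0 < N i) →
      Fintype.card {i : Fin d // 2 ≤ N i ∧ N i ≤ 2 ^ t} ≤ κ * n →
      ∀ (a : G) (A' : Finset L),
      (∀ s ∈ A', ∀ i, |(s : Fin n → ℤ) i| ≤ 2 ^ (n ^ 2)) →
      (∀ s ∈ A', ∃ S : Finset (Idx N), e s = a + ∑ p ∈ S, v p.1) →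
      (A'.card : ℝ) * (2 : ℝ) ^ (C1 * n) ≤ max ((boxSet L).ncard : ℝ)
        ((sums (fun p : Idx N => v p.1) Finset.univ).card : ℝ) := by
  obtain ⟨D, hD8, hD⟩ := claim_evW H137.PFR.pfr2Statement
  refine ⟨D, hD8, ?_⟩
  have hlogn : ∀ᶠ n : ℕ in atTop, Real.log n ≤ n / 1000 := by
    have h3 := Real.isLittleO_log_id_atTop.comp_tendsto (tendsto_natCast_atTop_atTop (R := ℝ))
    have h4 := h3.bound (show (0:ℝ) < 1/1000 by norm_num)
    filter_upwards [h4] with n hn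
    simp only [Function.comp, id] at hn
    have : Real.log n ≤ ‖Real.log n‖ := le_abs_self _
    rw [Real.norm_natCast] at hn
    linarith
  filter_upwards [hD, hlogn, eventually_ge_atTop 8] with n hn hlog hn8 κ C1 t hκ ht hκL htL
  obtain ⟨μ, hμ⟩ : ∃ μ, μ = 20 * C1 + 100 := ⟨_, rfl⟩
  rw [← hμ] at ht ⊢
  have hBig : H139R2.Big n μ := big_of hlog (by omega) hμ (by omega) htL ht.ge
  have hμn : μ + 4 ≤ n := by
    have h1 := hBig.mu_le
    have h2 := hBig.n_ge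
    have h3 : ((μ + 4 : ℕ) : ℝ) ≤ (n : ℝ) := by
      push_cast
      linarith
    exact_mod_cast h3
  obtain ⟨L, hL⟩ := lattice_at hBig
  refine ⟨L, hL, ?_⟩
  intro G _ e he d v N hN hd a A' hAb hA'
  have hC := hn κ μ t hκ hκL htL hμn L hL
  have hμn2 : μ + 4 ≤ n ^ 2 := hμn.trans (Nat.le_self_pow two_ne_zero n)
  have hpts := fun (V : Submodule ℝ (EuclideanSpace ℝ (Fin n))) (d : ℕ)
    (hd : Module.finrank ℝ V ≤ d) (S : Finset (Fin n → ℤ))
    (hS : ∀ x ∈ S, ∀ y ∈ S, x - y ∈ L ∧ H460.emb (Fin n) (x - y) ∈ V)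
    (hz : ∃ z : Fin n → ℤ, ∀ x ∈ S, ∀ i, |x i - z i| ≤ 2 ^ (n ^ 2)) =>
      (let ⟨z, hz'⟩ := hz; pts_bound hμn2 hL V hd S hS z hz')
  have hcore := core_W hC hpts e he v N hN hd a A' hAb hA'
  have hAcard : (A'.card : ℝ) ≤ 2 ^ (6 * n + 1 + (μ + 4) * n) := by
    classical
    have h1 : (A'.image (fun s : L => (s : Fin n → ℤ))).card = A'.card :=
      Finset.card_image_of_injective _ Subtype.val_injective
    rw [← h1]
    apply hpts ⊤ n (by simp)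
    · intro s hs s' hs'
      obtain ⟨y, hy, rfl⟩ := Finset.mem_image.1 hs
      obtain ⟨y', hy', rfl⟩ := Finset.mem_image.1 hs'
      exact ⟨L.sub_mem y.2 y'.2, Submodule.mem_top⟩
    · refine ⟨0, fun s hs i => ?_⟩
      obtain ⟨y, hy, rfl⟩ := Finset.mem_image.1 hs
      simpa using hAb y hy i
  refine num_maxW hn8 hμ ht _ _ _ hL.card (by positivity) (by positivity) hAcard ?_
  rcases hcore with h | h
  · exact Or.inl h
  · right
    refine h.trans ?_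
    gcongr
    · norm_num
    · norm_num

end Pool.Agent.KS6_86.FR
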