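import Pool.Agent.KS6_86.FR.AL
import Pool.Agent.KS6_86.FR.MainW

/-! Lattice points in a cube and cubes of arbitrary dimension in an arbitrary group. -/

set_option autoImplicit false

namespace Pool.Agent.KS6_86.FR

open Filter Topology H460 Pool.Agent.Y336.PF H139R2.GP

/-- the second part: cubes of arbitrary dimension -/
theorem main_A : ∃ D : ℕ, ∀ᶠ n : ℕ in atTop, ∀ C1 : ℕ, D ≤ C1 →
    ((84 * C1 + 445 : ℕ) : ℝ) ^ 8 ≤ Real.logb 2 (n : ℝ) →
    64 * (((504 * C1 + 2696 : ℕ) + 1 : ℝ) * (84 * C1 + 445 : ℕ) + 1) ≤ Real.logb 2 (n : ℝ) →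
    ∃ L : AddSubgroup (Fin n → ℤ), Good n (20 * C1 + 100) L ∧
    ∀ (G : Type*) [AddCommGroup G] (e : L →+ G), Function.Injective e →
    ∀ (ι : Type) [Fintype ι] (g : ι → G) (a : G) (A' : Finset L),
      (∀ s ∈ A', ∀ i, |(s : Fin n → ℤ) i| ≤ 2 ^ (n ^ 2)) →
      (∀ s ∈ A', ∃ S : Finset ι, e s = a + ∑ i ∈ S, g i) →
      (A'.card : ℝ) * (2 : ℝ) ^ (C1 * n) ≤
        max ((boxSet L).ncard : ℝ) ((sums g Finset.univ).card : ℝ) := by
  obtain ⟨D, hD8, hD⟩ := claim_evW H137.PFR.pfr2Statement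
  refine ⟨D, ?_⟩
  have hlogn : ∀ᶠ n : ℕ in atTop, Real.log n ≤ n / 1000 := by
    have h3 := Real.isLittleO_log_id_atTop.comp_tendsto (tendsto_natCast_atTop_atTop (R := ℝ))
    have h4 := h3.bound (show (0:ℝ) < 1/1000 by norm_num)
    filter_upwards [h4] with n hn
    simp only [Function.comp, id] at hn
    have : Real.log n ≤ ‖Real.log n‖ := le_abs_self _
    rw [Real.norm_natCast] at hn
    linarith
  filter_upwards [hD, hlogn, eventually_ge_atTop 8] with n hn hlog hn8 C1 hC1 hκL htL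
  obtain ⟨μ, hμ⟩ : ∃ μ, μ = 20 * C1 + 100 := ⟨_, rfl⟩
  obtain ⟨m, hm⟩ : ∃ m, m = 8 * (C1 + μ + 12) := ⟨_, rfl⟩
  obtain ⟨H, hH⟩ : ∃ H, H = C1 + μ + 11 := ⟨_, rfl⟩
  have hκe : 84 * C1 + 445 = 4 * H + 1 := by omega
  have hte : 504 * C1 + 2696 = 3 * m + 8 := by omega
  rw [hκe] at hκL htL
  rw [hte] at htL
  rw [← hμ]
  have hBig : H139R2.Big n μ := big_of hlog (by omega) hμ (by omega) htL (by omega)
  have hμn : μ + 4 ≤ n := by
    have h1 := hBig.mu_le
    have h2 := hBig.n_ge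
    have h3 : ((μ + 4 : ℕ) : ℝ) ≤ (n : ℝ) := by
      push_cast
      linarith
    exact_mod_cast h3
  obtain ⟨L, hL⟩ := lattice_at hBig
  refine ⟨L, hL, ?_⟩
  intro G _ e he ι _ g a A' hAb hA'
  have hC := hn (4 * H + 1) μ (3 * m + 8) (by omega) hκL htL hμn L hL
  have hμn2 : μ + 4 ≤ n ^ 2 := hμn.trans (Nat.le_self_pow two_ne_zero n)
  have hpts := fun (V : Submodule ℝ (EuclideanSpace ℝ (Fin n))) (d : ℕ)
    (hd : Module.finrank ℝ V ≤ d) (S : Finset (Fin n → ℤ))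
    (hS : ∀ x ∈ S, ∀ y ∈ S, x - y ∈ L ∧ H460.emb (Fin n) (x - y) ∈ V)
    (hz : ∃ z : Fin n → ℤ, ∀ x ∈ S, ∀ i, |x i - z i| ≤ 2 ^ (n ^ 2)) =>
      (let ⟨z, hz'⟩ := hz; pts_bound hμn2 hL V hd S hS z hz')
  have hAcard : (A'.card : ℝ) ≤ 2 ^ (6 * n + 1 + (μ + 4) * n) := by
    classical
    have h1 : (A'.image (fun s : L => (s : Fin n → ℤ))).card = A'.card :=
      Finset.card_image_of_injective _ Subtype.val_injective
    rw [← h1]
    apply hpts ⊤ n (by simp)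
    · intro s hs s' hs'
      obtain ⟨y, hy, rfl⟩ := Finset.mem_image.1 hs
      obtain ⟨y', hy', rfl⟩ := Finset.mem_image.1 hs'
      exact ⟨L.sub_mem y.2 y'.2, Submodule.mem_top⟩
    · refine ⟨0, fun s hs i => ?_⟩
      obtain ⟨y, hy, rfl⟩ := Finset.mem_image.1 hs
      simpa using hAb y hy i
  -- large cubes
  by_cases hp : (A'.card : ℝ) * (2 : ℝ) ^ (C1 * n) ≤ ((sums g Finset.univ).card : ℝ)
  · exact hp.trans (le_max_right _ _)
  push Not at hp
  have hpH : (sums g Finset.univ).card ≤ 2 ^ (H * n) := by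
    have h1 : ((sums g Finset.univ).card : ℝ) ≤ 2 ^ (H * n) := by
      refine hp.le.trans ?_
      calc (A'.card : ℝ) * (2 : ℝ) ^ (C1 * n)
          ≤ 2 ^ (6 * n + 1 + (μ + 4) * n) * (2 : ℝ) ^ (C1 * n) := by gcongr
        _ = 2 ^ (6 * n + 1 + (μ + 4) * n + C1 * n) := by rw [← pow_add]
        _ ≤ 2 ^ (H * n) := by
          refine pow_le_pow_right₀ (by norm_num) ?_
          have e1 : H * n = C1 * n + μ * n + 11 * n := by rw [hH]; ring
          have e2 : (μ + 4) * n = μ * n + 4 * n := by ring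
          rw [e1, e2]
          omega
    exact_mod_cast h1
  have hcore := core_A (m := m) hC hpts e he g a A' (fun J hJ => absorbs_of g J hJ
    ((Finset.card_le_card (sums_mono g (Finset.subset_univ J))).trans hpH)) hAb hA'
  exact num_maxW hn8 hμ hm _ _ _ hL.card (by positivity) (by positivity) hAcard hcore

end Pool.Agent.KS6_86.FR
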