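import Mathlib

/-! The `ℓ¹` norm on a group algebra and the smoothing of convolution powers. -/

set_option autoImplicit false

namespace Pool.Agent.KS6_86.FR

open AddMonoidAlgebra

variable {G : Type*} [AddCommGroup G]

set_option linter.unusedSectionVars false

/-- the `ℓ¹` norm -/
noncomputable def nrm (a : AddMonoidAlgebra ℝ G) : ℝ := a.coeff.sum fun _ r => |r|

theorem nrm_eq {a : AddMonoidAlgebra ℝ G} {T : Finset G} (h : a.coeff.support ⊆ T) :
    nrm a = ∑ x ∈ T, |a.coeff x| :=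
  Finsupp.sum_of_support_subset _ h _ (by simp)

theorem nrm_nonneg (a : AddMonoidAlgebra ℝ G) : 0 ≤ nrm a :=
  Finset.sum_nonneg (fun _ _ => abs_nonneg _)

theorem nrm_zero : nrm (0 : AddMonoidAlgebra ℝ G) = 0 := by
  unfold nrm
  rw [coeff_zero, Finsupp.sum_zero_index]

theorem nrm_single (x : G) (r : ℝ) : nrm (single x r) = |r| := by
  unfold nrm
  rw [coeff_single, Finsupp.sum_single_index (by simp)]

theorem nrm_add_le (a b : AddMonoidAlgebra ℝ G) : nrm (a + b) ≤ nrm a + nrm b := by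
  classical
  rw [nrm_eq (T := a.coeff.support ∪ b.coeff.support) (by
      rw [coeff_add]; exact Finsupp.support_add),
    nrm_eq (a := a) (T := a.coeff.support ∪ b.coeff.support) Finset.subset_union_left,
    nrm_eq (a := b) (T := a.coeff.support ∪ b.coeff.support) Finset.subset_union_right,
    ← Finset.sum_add_distrib]
  apply Finset.sum_le_sum
  intro x _
  rw [coeff_add, Finsupp.add_apply]
  exact abs_add_le _ _

theorem nrm_sum_le {κ : Type*} (s : Finset κ) (a : κ → AddMonoidAlgebra ℝ G) :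
    nrm (∑ i ∈ s, a i) ≤ ∑ i ∈ s, nrm (a i) := by
  classical
  induction s using Finset.induction_on with
  | empty => simp [nrm_zero]
  | insert i s hi ih =>
    rw [Finset.sum_insert hi, Finset.sum_insert hi]
    exact (nrm_add_le _ _).trans (by linarith)

theorem nrm_mul_le (a b : AddMonoidAlgebra ℝ G) : nrm (a * b) ≤ nrm a * nrm b := by
  rw [mul_def]
  unfold Finsupp.sum
  calc nrm (∑ x ∈ a.coeff.support, ∑ y ∈ b.coeff.support, single (x + y) (a.coeff x * b.coeff y))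
      ≤ ∑ x ∈ a.coeff.support, nrm (∑ y ∈ b.coeff.support, single (x + y)
          (a.coeff x * b.coeff y)) := nrm_sum_le _ _
    _ ≤ ∑ x ∈ a.coeff.support, ∑ y ∈ b.coeff.support,
          nrm (single (x + y) (a.coeff x * b.coeff y)) :=
        Finset.sum_le_sum (fun x _ => nrm_sum_le _ _)
    _ = ∑ x ∈ a.coeff.support, ∑ y ∈ b.coeff.support, |a.coeff x| * |b.coeff y| := by
        simp_rw [nrm_single, abs_mul]
    _ = nrm a * nrm b := by
        unfold nrm Finsupp.sum
        rw [Finset.sum_mul_sum]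

theorem nrm_one : nrm (1 : AddMonoidAlgebra ℝ G) = 1 := by
  rw [one_def, nrm_single, abs_one]

theorem nrm_pow_le (a : AddMonoidAlgebra ℝ G) (k : ℕ) : nrm (a ^ k) ≤ nrm a ^ k := by
  induction k with
  | zero => simp [nrm_one]
  | succ k ih =>
    rw [pow_succ, pow_succ]
    exact (nrm_mul_le _ _).trans (mul_le_mul_of_nonneg_right ih (nrm_nonneg _))

theorem nrm_smul (r : ℝ) (a : AddMonoidAlgebra ℝ G) : nrm (r • a) = |r| * nrm a := by
  unfold nrm
  rw [coeff_smul, Finsupp.sum_of_support_subset (s := a.coeff.support) _ Finsupp.support_smul _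
    (by simp)]
  unfold Finsupp.sum
  rw [Finset.mul_sum]
  apply Finset.sum_congr rfl
  intro x _
  rw [Finsupp.smul_apply, smul_eq_mul, abs_mul]

/-- the second moment of the binomial distribution -/
theorem binom_var (n : ℕ) :
    ∑ i ∈ Finset.range (n + 1), ((n : ℝ) - 2 * (i : ℝ)) ^ 2 * (n.choose i : ℝ) =
      (n : ℝ) * 2 ^ n := by
  have h := congrArg (Polynomial.eval (1 / 2 : ℝ)) (bernsteinPolynomial.variance ℝ n)
  rw [Polynomial.eval_finsetSum] at h
  have h1 : ∀ i ∈ Finset.range (n + 1), Polynomial.eval (1 / 2 : ℝ)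
      ((n • Polynomial.X - (i : Polynomial ℝ)) ^ 2 * bernsteinPolynomial ℝ n i) =
      (((n : ℝ) - 2 * (i : ℝ)) ^ 2 * (n.choose i : ℝ)) * ((1 / 4) * (1 / 2) ^ n) := by
    intro i hi
    have hi' : i ≤ n := by
      have := Finset.mem_range.1 hi
      omega
    have h2 : (1 / 2 : ℝ) ^ n = (1 / 2) ^ i * (1 / 2) ^ (n - i) := by
      rw [← pow_add]; congr 1; omega
    simp only [bernsteinPolynomial, Polynomial.eval_mul, Polynomial.eval_pow, Polynomial.eval_sub,
      Polynomial.eval_natCast, Polynomial.eval_X, Polynomial.eval_one, nsmul_eq_mul]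
    rw [h2]
    norm_num
    ring
  rw [Finset.sum_congr rfl h1, ← Finset.sum_mul] at h
  simp only [Polynomial.eval_mul, Polynomial.eval_sub,
      Polynomial.eval_natCast, Polynomial.eval_X, Polynomial.eval_one, nsmul_eq_mul] at h
  have h3 : (1 / 2 : ℝ) ^ n * 2 ^ n = 1 := by
    rw [← mul_pow]; norm_num
  have h4 := congrArg (fun z => z * (4 * 2 ^ n)) h
  calc ∑ i ∈ Finset.range (n + 1), ((n : ℝ) - 2 * (i : ℝ)) ^ 2 * (n.choose i : ℝ)
      = (∑ i ∈ Finset.range (n + 1), ((n : ℝ) - 2 * (i : ℝ)) ^ 2 * (n.choose i : ℝ)) *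
        ((1 / 2 : ℝ) ^ n * 2 ^ n) := by rw [h3, mul_one]
    _ = (∑ i ∈ Finset.range (n + 1), ((n : ℝ) - 2 * (i : ℝ)) ^ 2 * (n.choose i : ℝ)) *
        (1 / 4 * (1 / 2) ^ n) * (4 * 2 ^ n) := by ring
    _ = n * (1 / 2) * (1 - 1 / 2) * (4 * 2 ^ n) := h4
    _ = n * 2 ^ n := by ring

theorem binom_abs (n : ℕ) :
    ∑ i ∈ Finset.range (n + 1), |(n : ℝ) - 2 * (i : ℝ)| * (n.choose i : ℝ) ≤
      Real.sqrt n * 2 ^ n := by
  have h := Finset.sum_mul_sq_le_sq_mul_sq (Finset.range (n + 1))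
    (fun i : ℕ => |(n : ℝ) - 2 * i| * Real.sqrt (n.choose i)) (fun i => Real.sqrt (n.choose i))
  have e1 : ∑ i ∈ Finset.range (n + 1), (|(n : ℝ) - 2 * i| * Real.sqrt (n.choose i)) *
      Real.sqrt (n.choose i) = ∑ i ∈ Finset.range (n + 1), |(n : ℝ) - 2 * i| * n.choose i := by
    apply Finset.sum_congr rfl
    intro i _
    rw [mul_assoc, Real.mul_self_sqrt (by positivity)]
  have e2 : ∑ i ∈ Finset.range (n + 1), (|(n : ℝ) - 2 * i| * Real.sqrt (n.choose i)) ^ 2 =
      n * 2 ^ n := by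
    rw [← binom_var]
    apply Finset.sum_congr rfl
    intro i _
    rw [mul_pow, sq_abs, Real.sq_sqrt (by positivity)]
  have e3 : ∑ i ∈ Finset.range (n + 1), (Real.sqrt (n.choose i)) ^ 2 = 2 ^ n := by
    have h1 : ∑ i ∈ Finset.range (n + 1), (n.choose i : ℝ) = 2 ^ n := by
      exact_mod_cast Nat.sum_range_choose n
    rw [← h1]
    apply Finset.sum_congr rfl
    intro i _
    rw [Real.sq_sqrt (by positivity)]
  rw [e1, e2, e3] at h
  apply le_of_sq_le_sq _ (by positivity) |> fun h => h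
  rw [mul_pow, Real.sq_sqrt (by positivity)]
  calc _ ≤ (n : ℝ) * 2 ^ n * 2 ^ n := h
    _ = _ := by ring

/-- the polynomial `(1 - X) (1 + X) ^ k` has small coefficients -/
theorem walk_one (T : AddMonoidAlgebra ℝ G) (hT : nrm T ≤ 1) (k : ℕ) :
    nrm ((1 - T) * (1 + T) ^ k) ≤ 2 ^ (k + 1) / Real.sqrt (k + 1) := by
  set n := k + 1 with hn
  set p : Polynomial ℝ := (1 + Polynomial.X) ^ n with hp
  set q : Polynomial ℝ := (n : Polynomial ℝ) * p - 2 * (Polynomial.X * Polynomial.derivative p) with hq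
  have hq1 : q = (n : Polynomial ℝ) * ((1 - Polynomial.X) * (1 + Polynomial.X) ^ k) := by
    rw [hq, hp, Polynomial.derivative_pow]
    simp only [Polynomial.derivative_add, Polynomial.derivative_one, Polynomial.derivative_X,
      zero_add, mul_one, hn, Nat.add_sub_cancel]
    have : Polynomial.C (((k + 1 : ℕ)) : ℝ) = ((k + 1 : ℕ) : Polynomial ℝ) := by simp
    rw [this]
    ring
  have hcoef : ∀ i : ℕ, q.coeff i = ((n : ℝ) - 2 * (i : ℝ)) * (n.choose i : ℝ) := by
    intro i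
    have e1 : ((n : Polynomial ℝ) * p).coeff i = (n : ℝ) * (n.choose i : ℝ) := by
      rw [hp, Polynomial.coeff_natCast_mul, Polynomial.coeff_one_add_X_pow]
    have e2 : (2 * (Polynomial.X * Polynomial.derivative p)).coeff i =
        2 * ((i : ℝ) * (n.choose i : ℝ)) := by
      rw [Polynomial.coeff_ofNat_mul]
      congr 1
      cases i with
      | zero => simp
      | succ i =>
        rw [Polynomial.coeff_X_mul, Polynomial.coeff_derivative, hp,
          Polynomial.coeff_one_add_X_pow]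
        push_cast
        ring
    rw [hq, Polynomial.coeff_sub, e1, e2]
    ring
  have hdeg : q.natDegree < n + 1 := by
    rw [Nat.lt_succ_iff, Polynomial.natDegree_le_iff_coeff_eq_zero]
    intro i hi
    rw [hcoef, Nat.choose_eq_zero_of_lt hi]
    simp
  have h1 : Polynomial.aeval T q = (n : ℝ) • ((1 - T) * (1 + T) ^ k) := by
    rw [hq1]
    simp only [map_mul, map_sub, map_add, map_pow, map_one, Polynomial.aeval_X, map_natCast]
    rw [← nsmul_eq_mul, Nat.cast_smul_eq_nsmul]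
  have h2 : Polynomial.aeval T q = ∑ i ∈ Finset.range (n + 1), q.coeff i • T ^ i :=
    Polynomial.aeval_eq_sum_range' hdeg T
  have h3 : (n : ℝ) * nrm ((1 - T) * (1 + T) ^ k) ≤ Real.sqrt n * 2 ^ n := by
    calc (n : ℝ) * nrm ((1 - T) * (1 + T) ^ k) = nrm ((n : ℝ) • ((1 - T) * (1 + T) ^ k)) := by
          rw [nrm_smul, abs_of_nonneg (by positivity)]
      _ = nrm (∑ i ∈ Finset.range (n + 1), q.coeff i • T ^ i) := by rw [← h1, h2]
      _ ≤ ∑ i ∈ Finset.range (n + 1), nrm (q.coeff i • T ^ i) := nrm_sum_le _ _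
      _ ≤ ∑ i ∈ Finset.range (n + 1), |(n : ℝ) - 2 * i| * n.choose i := by
          apply Finset.sum_le_sum
          intro i _
          rw [nrm_smul, hcoef, abs_mul, abs_of_nonneg (show (0:ℝ) ≤ (n.choose i : ℝ) by positivity)]
          have h4 : nrm (T ^ i) ≤ 1 := (nrm_pow_le T i).trans (pow_le_one₀ (nrm_nonneg _) hT)
          calc |(n : ℝ) - 2 * i| * n.choose i * nrm (T ^ i) ≤ |(n : ℝ) - 2 * i| * n.choose i * 1 := by
                gcongr
            _ = _ := mul_one _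
      _ ≤ Real.sqrt n * 2 ^ n := binom_abs n
  have hn0 : (0 : ℝ) < n := by rw [hn]; positivity
  have hsn : 0 < Real.sqrt n := Real.sqrt_pos.2 hn0
  have hcast : ((k : ℝ) + 1) = n := by rw [hn]; push_cast; rfl
  rw [hcast, le_div_iff₀ hsn]
  have h5 : Real.sqrt n * Real.sqrt n = n := Real.mul_self_sqrt hn0.le
  have h6 : Real.sqrt n * (nrm ((1 - T) * (1 + T) ^ k) * Real.sqrt n) ≤ Real.sqrt n * 2 ^ n := by
    calc _ = (Real.sqrt n * Real.sqrt n) * nrm ((1 - T) * (1 + T) ^ k) := by ring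
      _ = (n : ℝ) * nrm ((1 - T) * (1 + T) ^ k) := by rw [h5]
      _ ≤ _ := h3
  exact le_of_mul_le_mul_left h6 hsn

/-- the average of `1 / (k + 1)` for the binomial distribution -/
theorem binom_inv {θ : ℝ} (h0 : 0 < θ) (h1 : θ ≤ 1) (N : ℕ) :
    ∑ k ∈ Finset.range (N + 1), (N.choose k : ℝ) * θ ^ k * (1 - θ) ^ (N - k) / (k + 1) ≤
      1 / ((N + 1) * θ) := by
  rw [le_div_iff₀ (by positivity)]
  have h2 : (1 : ℝ) = ∑ m ∈ Finset.range (N + 1 + 1),
      θ ^ m * (1 - θ) ^ (N + 1 - m) * ((N + 1).choose m : ℝ) := by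
    rw [← add_pow]; simp
  rw [Finset.sum_range_succ'] at h2
  rw [Finset.sum_mul]
  have h3 : ∀ k ∈ Finset.range (N + 1), (N.choose k : ℝ) * θ ^ k * (1 - θ) ^ (N - k) / (k + 1) *
      ((N + 1) * θ) = θ ^ (k + 1) * (1 - θ) ^ (N + 1 - (k + 1)) * ((N + 1).choose (k + 1) : ℝ) := by
    intro k _
    have h4 : ((N + 1 : ℕ) : ℝ) * N.choose k = (N + 1).choose (k + 1) * ((k + 1 : ℕ) : ℝ) := by
      exact_mod_cast Nat.add_one_mul_choose_eq N k
    push_cast at h4
    have h5 : N + 1 - (k + 1) = N - k := by omega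
    rw [h5, div_mul_eq_mul_div, div_eq_iff (by positivity)]
    calc (N.choose k : ℝ) * θ ^ k * (1 - θ) ^ (N - k) * ((N + 1) * θ)
        = (((N : ℝ) + 1) * N.choose k) * (θ ^ k * θ * (1 - θ) ^ (N - k)) := by ring
      _ = _ := by rw [h4]; ring
  rw [Finset.sum_congr rfl h3]
  have h4 : 0 ≤ θ ^ 0 * (1 - θ) ^ (N + 1 - 0) * ((N + 1).choose 0 : ℝ) := by
    have : 0 ≤ 1 - θ := by linarith
    positivity
  linarith

/-- smoothing: a convolution power is almost invariant under the shift -/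
theorem walk (T a b : AddMonoidAlgebra ℝ G) (hT : nrm T ≤ 1) {θ : ℝ} (h0 : 0 < θ) (h1 : θ ≤ 1)
    (ha : nrm a ≤ θ / 2) (hb : nrm b ≤ 1 - θ) (N : ℕ) :
    nrm ((1 - T) * (a * (1 + T) + b) ^ N) ≤ 2 / Real.sqrt ((N + 1) * θ) := by
  have hθ : 0 ≤ 1 - θ := by linarith
  have e : (1 - T) * (a * (1 + T) + b) ^ N = ∑ k ∈ Finset.range (N + 1),
      ((N.choose k : ℝ) • (a ^ k * b ^ (N - k))) * ((1 - T) * (1 + T) ^ k) := by
    rw [add_pow, Finset.mul_sum]
    apply Finset.sum_congr rfl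
    intro k _
    rw [mul_pow, Nat.cast_smul_eq_nsmul, nsmul_eq_mul]
    ring
  set p : ℕ → ℝ := fun k => (N.choose k : ℝ) * θ ^ k * (1 - θ) ^ (N - k) with hp
  have hp0 : ∀ k, 0 ≤ p k := fun k => by rw [hp]; positivity
  have h2 : nrm ((1 - T) * (a * (1 + T) + b) ^ N) ≤
      2 * ∑ k ∈ Finset.range (N + 1), p k / Real.sqrt (k + 1) := by
    rw [e, Finset.mul_sum]
    refine (nrm_sum_le _ _).trans (Finset.sum_le_sum (fun k _ => ?_))
    refine (nrm_mul_le _ _).trans ?_
    have h3 : nrm ((N.choose k : ℝ) • (a ^ k * b ^ (N - k))) ≤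
        (N.choose k : ℝ) * ((θ / 2) ^ k * (1 - θ) ^ (N - k)) := by
      rw [nrm_smul, abs_of_nonneg (by positivity)]
      have h4 : nrm (a ^ k * b ^ (N - k)) ≤ (θ / 2) ^ k * (1 - θ) ^ (N - k) := by
        refine (nrm_mul_le _ _).trans ?_
        have h5 : nrm (a ^ k) ≤ (θ / 2) ^ k :=
          (nrm_pow_le a k).trans (pow_le_pow_left₀ (nrm_nonneg _) ha k)
        have h6 : nrm (b ^ (N - k)) ≤ (1 - θ) ^ (N - k) :=
          (nrm_pow_le b _).trans (pow_le_pow_left₀ (nrm_nonneg _) hb _)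
        exact mul_le_mul h5 h6 (nrm_nonneg _) (by positivity)
      gcongr
    have h7 := walk_one T hT k
    calc nrm ((N.choose k : ℝ) • (a ^ k * b ^ (N - k))) * nrm ((1 - T) * (1 + T) ^ k)
        ≤ ((N.choose k : ℝ) * ((θ / 2) ^ k * (1 - θ) ^ (N - k))) *
          (2 ^ (k + 1) / Real.sqrt (k + 1)) :=
          mul_le_mul h3 h7 (nrm_nonneg _) (by positivity)
      _ = 2 * (p k / Real.sqrt (k + 1)) := by
        rw [hp, div_pow, pow_succ (2 : ℝ) k]
        field_simp
  have h3 : (∑ k ∈ Finset.range (N + 1), p k / Real.sqrt (k + 1)) ^ 2 ≤ 1 / ((N + 1) * θ) := by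
    have h := Finset.sum_mul_sq_le_sq_mul_sq (Finset.range (N + 1))
      (fun k : ℕ => Real.sqrt (p k)) (fun k => Real.sqrt (p k) / Real.sqrt (k + 1))
    have e1 : ∑ k ∈ Finset.range (N + 1), Real.sqrt (p k) * (Real.sqrt (p k) / Real.sqrt (k + 1)) =
        ∑ k ∈ Finset.range (N + 1), p k / Real.sqrt (k + 1) := by
      apply Finset.sum_congr rfl
      intro k _
      rw [← mul_div_assoc, Real.mul_self_sqrt (hp0 k)]
    have e2 : ∑ k ∈ Finset.range (N + 1), Real.sqrt (p k) ^ 2 = 1 := by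
      have h4 : ∑ k ∈ Finset.range (N + 1), p k = 1 := by
        have h5 : (θ + (1 - θ)) ^ N = 1 := by simp
        rw [add_pow] at h5
        rw [← h5]
        apply Finset.sum_congr rfl
        intro k _
        rw [hp]; ring
      rw [← h4]
      apply Finset.sum_congr rfl
      intro k _
      rw [Real.sq_sqrt (hp0 k)]
    have e3 : ∑ k ∈ Finset.range (N + 1), (Real.sqrt (p k) / Real.sqrt (k + 1)) ^ 2 =
        ∑ k ∈ Finset.range (N + 1), (N.choose k : ℝ) * θ ^ k * (1 - θ) ^ (N - k) / (k + 1) := by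
      apply Finset.sum_congr rfl
      intro k _
      rw [div_pow, Real.sq_sqrt (hp0 k), Real.sq_sqrt (by positivity)]
    rw [e1, e2, e3, one_mul] at h
    exact h.trans (binom_inv h0 h1 N)
  have h4 : ∑ k ∈ Finset.range (N + 1), p k / Real.sqrt (k + 1) ≤
      1 / Real.sqrt ((N + 1) * θ) := by
    apply le_of_sq_le_sq _ (by positivity) |> fun h => h
    refine h3.trans ?_
    rw [div_pow, one_pow, Real.sq_sqrt (by positivity)]
  calc _ ≤ _ := h2
    _ ≤ 2 * (1 / Real.sqrt ((N + 1) * θ)) := by gcongr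
    _ = _ := by ring

end Pool.Agent.KS6_86.FR
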