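import Pool.Graph.R_seed8.H139R2.GP.Resamp

/-! Absorption of many generators: the Petridis argument for many sets with two elements. -/

set_option autoImplicit false

open scoped Pointwise

namespace Pool.Agent.KS6_86.FR

variable {G ι : Type*} [AddCommGroup G] [DecidableEq G]

/-- `S + {0, x}` -/
def two (S : Finset G) (x : G) : Finset G := S ∪ (x +ᵥ S)

theorem mem_two {S : Finset G} {x y : G} : y ∈ two S x ↔ y ∈ S ∨ ∃ s ∈ S, x + s = y := by
  simp [two, Finset.mem_vadd_finset]

theorem two_mono {S T : Finset G} (h : S ⊆ T) (x : G) : two S x ⊆ two T x :=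
  Finset.union_subset_union h (Finset.vadd_finset_subset_vadd_finset h)

theorem le_card_two (S : Finset G) (x : G) : S.card ≤ (two S x).card :=
  Finset.card_le_card Finset.subset_union_left

theorem two_vadd (S : Finset G) (x y : G) : two (y +ᵥ S) x = y +ᵥ two S x := by
  rw [two, two, Finset.vadd_finset_union, vadd_comm]

theorem two_union (S T : Finset G) (x : G) : two (S ∪ T) x = two S x ∪ two T x := by
  ext y
  simp only [two, Finset.vadd_finset_union, Finset.mem_union]
  tauto

/-- the number of the new elements, summed over the generators -/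
noncomputable def cost (J : Finset ι) (g : ι → G) (S : Finset G) : ℝ :=
  ∑ j ∈ J, (((two S (g j)).card : ℝ) - S.card)

theorem petridis_multi (J : Finset ι) (g : ι → G) (X : Finset G) (ρ : ℝ)
    (hmin : ∀ S ⊆ X, ρ * S.card ≤ cost J g S) (hX : cost J g X ≤ ρ * X.card) (C : Finset G) :
    cost J g (X + C) ≤ ρ * (X + C).card := by
  classical
  induction C using Finset.induction_on with
  | empty => simp [cost, two]
  | insert x C _ ih =>
    have e1 : X + insert x C = (X + C) ∪ (x +ᵥ X) := by
      ext y
      simp only [Finset.mem_add, Finset.mem_union, Finset.mem_insert, Finset.mem_vadd_finset,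
        vadd_eq_add]
      constructor
      · rintro ⟨a, ha, b, hb | hb, rfl⟩
        · right; exact ⟨a, ha, by rw [hb, add_comm]⟩
        · left; exact ⟨a, ha, b, hb, rfl⟩
      · rintro (⟨a, ha, b, hb, rfl⟩ | ⟨a, ha, rfl⟩)
        · exact ⟨a, ha, b, Or.inr hb, rfl⟩
        · exact ⟨a, ha, x, Or.inl rfl, by rw [add_comm]⟩
    set Y := X + C with hY
    set X' : Finset G := X.filter (fun a => x + a ∈ Y) with hX'
    have e2 : Y ∩ (x +ᵥ X) = x +ᵥ X' := by
      ext y
      simp only [Finset.mem_inter, Finset.mem_vadd_finset, hX', Finset.mem_filter, vadd_eq_add]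
      constructor
      · rintro ⟨h1, a, ha, rfl⟩
        exact ⟨a, ⟨ha, h1⟩, rfl⟩
      · rintro ⟨a, ⟨ha, h1⟩, rfl⟩
        exact ⟨h1, a, ha, rfl⟩
    have e3 : ((Y ∪ (x +ᵥ X)).card : ℝ) = Y.card + X.card - X'.card := by
      have h := Finset.card_union_add_card_inter Y (x +ᵥ X)
      rw [e2, Finset.card_vadd_finset, Finset.card_vadd_finset] at h
      have h' : ((Y ∪ (x +ᵥ X)).card : ℝ) + X'.card = Y.card + X.card := by exact_mod_cast h
      linarith
    have e4 : ∀ j, ((two (Y ∪ (x +ᵥ X)) (g j)).card : ℝ) ≤
        (two Y (g j)).card + (two X (g j)).card - (two X' (g j)).card := by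
      intro j
      rw [two_union]
      have h := Finset.card_union_add_card_inter (two Y (g j)) (two (x +ᵥ X) (g j))
      have h1 : x +ᵥ two X' (g j) ⊆ two Y (g j) ∩ two (x +ᵥ X) (g j) := by
        rw [← two_vadd, ← e2]
        exact Finset.subset_inter (two_mono Finset.inter_subset_left _)
          (two_mono Finset.inter_subset_right _)
      have h2 := Finset.card_le_card h1
      rw [Finset.card_vadd_finset] at h2
      rw [two_vadd, Finset.card_vadd_finset] at h
      rw [two_vadd] at h2 ⊢
      have h' : ((two Y (g j) ∪ (x +ᵥ two X (g j))).card : ℝ) +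
          (two Y (g j) ∩ (x +ᵥ two X (g j))).card = (two Y (g j)).card + (two X (g j)).card := by
        exact_mod_cast h
      have h2' : ((two X' (g j)).card : ℝ) ≤ (two Y (g j) ∩ (x +ᵥ two X (g j))).card := by
        exact_mod_cast h2
      linarith
    rw [e1, e3]
    have h5 := hmin X' (Finset.filter_subset _ _)
    calc cost J g (Y ∪ (x +ᵥ X)) ≤ cost J g Y + cost J g X - cost J g X' := by
          unfold cost
          rw [← Finset.sum_add_distrib, ← Finset.sum_sub_distrib]
          apply Finset.sum_le_sum
          intro j _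
          have := e4 j
          rw [e3]
          linarith
      _ ≤ ρ * Y.card + ρ * X.card - ρ * X'.card := by linarith
      _ = ρ * (Y.card + X.card - X'.card) := by ring

/-- a minimiser of the ratio -/
theorem exists_min (J : Finset ι) (g : ι → G) (S₀ : Finset G) (hS₀ : S₀.Nonempty) :
    ∃ X ⊆ S₀, X.Nonempty ∧ ∀ S ⊆ S₀, cost J g X / X.card * S.card ≤ cost J g S := by
  classical
  obtain ⟨X, hX, hmin⟩ := Finset.exists_min_image (S₀.powerset.filter (fun S => S.Nonempty))
    (fun S => cost J g S / S.card) ⟨S₀, by simp [hS₀]⟩
  rw [Finset.mem_filter, Finset.mem_powerset] at hX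
  refine ⟨X, hX.1, hX.2, ?_⟩
  intro S hS
  rcases S.eq_empty_or_nonempty with rfl | hne
  · simp [cost, two]
  · have h1 := hmin S (Finset.mem_filter.2 ⟨Finset.mem_powerset.2 hS, hne⟩)
    have h2 : (0 : ℝ) < S.card := by exact_mod_cast hne.card_pos
    rwa [le_div_iff₀ h2] at h1

/-- a nonnegative function whose mass moves little under all the shifts has a level set which
is almost invariant -/
theorem exists_level (J : Finset ι) (g : ι → G) (ρ : ℝ) (T : Finset G) :
    ∀ (F : G → ℝ), (∀ x, 0 ≤ F x) → (∀ x, x ∉ T → F x = 0) →
    (∀ S ⊆ T, ρ * S.card ≤ cost J g S) →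
    ρ * ∑ x ∈ T, F x ≤ ∑ j ∈ J, ∑ x ∈ T, max (F x - F (g j + x)) 0 := by
  classical
  induction T using Finset.strongInduction with
  | H T ih =>
    intro F hF0 hFT hmin
    rcases T.eq_empty_or_nonempty with rfl | hne
    · simp
    -- points with `F = 0`
    by_cases hz : ∃ z ∈ T, F z = 0
    · obtain ⟨z, hzT, hz⟩ := hz
      have h1 := ih (T.erase z) (Finset.erase_ssubset hzT) F hF0 (fun x hx => by
        by_cases hxz : x = z
        · rw [hxz]; exact hz
        · exact hFT x (fun h => hx (Finset.mem_erase.2 ⟨hxz, h⟩)))
        (fun S hS => hmin S (hS.trans (Finset.erase_subset _ _)))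
      have h2 : ∑ x ∈ T, F x = ∑ x ∈ T.erase z, F x := by
        rw [← Finset.add_sum_erase T F hzT, hz, zero_add]
      rw [h2]
      refine h1.trans ?_
      apply Finset.sum_le_sum
      intro j _
      apply Finset.sum_le_sum_of_subset_of_nonneg (Finset.erase_subset _ _)
      intro x _ _
      exact le_max_right _ _
    · push Not at hz
      obtain ⟨z, hzT, hzmin⟩ := Finset.exists_min_image T F hne
      set m := F z with hm
      have hm0 : 0 < m := lt_of_le_of_ne (hF0 z) (fun h => hz z hzT h.symm)
      set F' : G → ℝ := fun x => if x ∈ T then F x - m else 0 with hF'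
      have hF'z : F' z = 0 := by simp [hF', hzT, hm]
      have h1 := ih (T.erase z) (Finset.erase_ssubset hzT) F' (fun x => by
          simp only [hF']
          split_ifs with h
          · linarith [hzmin x h]
          · exact le_rfl) (fun x hx => by
          by_cases hxz : x = z
          · rw [hxz]; exact hF'z
          · simp only [hF']
            rw [if_neg (fun h => hx (Finset.mem_erase.2 ⟨hxz, h⟩))])
        (fun S hS => hmin S (hS.trans (Finset.erase_subset _ _)))
      have h2 : ∑ x ∈ T.erase z, F' x = ∑ x ∈ T, F' x := by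
        rw [← Finset.add_sum_erase T F' hzT, hF'z, zero_add]
      have h3 : ∑ x ∈ T, F' x = ∑ x ∈ T, F x - m * T.card := by
        have : ∑ x ∈ T, F' x = ∑ x ∈ T, (F x - m) := by
          apply Finset.sum_congr rfl
          intro x hx
          simp [hF', hx]
        rw [this, Finset.sum_sub_distrib, Finset.sum_const, nsmul_eq_mul]
        ring
      have h4 : ∀ j, ∑ x ∈ T.erase z, max (F' x - F' (g j + x)) 0 +
          m * (((two T (g j)).card : ℝ) - T.card) ≤ ∑ x ∈ T, max (F x - F (g j + x)) 0 := by
        intro j
        have e1 : (((two T (g j)).card : ℝ) - T.card) = ∑ x ∈ T, if g j + x ∈ T then 0 else 1 := by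
          have e2 : two T (g j) = T ∪ ((T.filter (fun x => g j + x ∉ T)).image (fun x => g j + x)) := by
            ext y
            rw [mem_two, Finset.mem_union, Finset.mem_image]
            constructor
            · rintro (h | ⟨s, hs, rfl⟩)
              · exact Or.inl h
              · by_cases h : g j + s ∈ T
                · exact Or.inl h
                · exact Or.inr ⟨s, Finset.mem_filter.2 ⟨hs, h⟩, rfl⟩
            · rintro (h | ⟨s, hs, rfl⟩)
              · exact Or.inl h
              · exact Or.inr ⟨s, (Finset.mem_filter.1 hs).1, rfl⟩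
          have e3 : Disjoint T ((T.filter (fun x => g j + x ∉ T)).image (fun x => g j + x)) := by
            rw [Finset.disjoint_left]
            intro y hy hy'
            obtain ⟨s, hs, rfl⟩ := Finset.mem_image.1 hy'
            exact (Finset.mem_filter.1 hs).2 hy
          rw [e2, Finset.card_union_of_disjoint e3,
            Finset.card_image_of_injective _ (add_right_injective (g j)), Finset.card_filter]
          push_cast
          rw [add_sub_cancel_left]
          apply Finset.sum_congr rfl
          intro x _
          by_cases h : g j + x ∈ T <;> simp [h]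
        rw [e1, Finset.mul_sum]
        have e5 : ∑ x ∈ T.erase z, max (F' x - F' (g j + x)) 0 ≤
            ∑ x ∈ T, max (F' x - F' (g j + x)) 0 :=
          Finset.sum_le_sum_of_subset_of_nonneg (Finset.erase_subset _ _)
            (fun x _ _ => le_max_right _ _)
        refine (add_le_add_left e5 _).trans ?_
        rw [← Finset.sum_add_distrib]
        apply Finset.sum_le_sum
        intro x hx
        simp only [hF', if_pos hx]
        by_cases h : g j + x ∈ T
        · simp only [if_pos h]
          rw [mul_zero, add_zero]
          apply le_of_eq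
          congr 1
          ring
        · simp only [if_neg h]
          rw [hFT _ h, sub_zero, sub_zero, mul_one]
          have hx1 := hzmin x hx
          rw [max_eq_left (by linarith), max_eq_left (hF0 x)]
          linarith
      have h5 := hmin T (Finset.Subset.refl _)
      rw [h2, h3] at h1
      calc ρ * ∑ x ∈ T, F x = ρ * (∑ x ∈ T, F x - m * T.card) + m * (ρ * T.card) := by ring
        _ ≤ ∑ j ∈ J, ∑ x ∈ T.erase z, max (F' x - F' (g j + x)) 0 + m * cost J g T := by gcongr
        _ = ∑ j ∈ J, (∑ x ∈ T.erase z, max (F' x - F' (g j + x)) 0 +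
            m * (((two T (g j)).card : ℝ) - T.card)) := by
          unfold cost
          rw [Finset.sum_add_distrib, Finset.mul_sum]
        _ ≤ _ := Finset.sum_le_sum (fun j _ => h4 j)

end Pool.Agent.KS6_86.FR
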