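import Pool.Agent.KS6_86.FR.Nrm
import Pool.Agent.KS6_86.FR.Absorb

/-! Convolution powers of the uniform distribution of a set of subset sums. -/

set_option autoImplicit false

open scoped Pointwise
open H139R2.GP AddMonoidAlgebra

namespace Pool.Agent.KS6_86.FR

variable {G : Type*} [AddCommGroup G]

set_option linter.unusedSectionVars false

/-- many disjoint pairs `{x, x + g}` in a set which is nearly invariant -/
theorem exists_pairs [DecidableEq G] (Q : Finset G) {x : G} (hx : x ≠ 0)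
    (h : ((two Q x).card : ℝ) ≤ 5 / 4 * Q.card) :
    ∃ H : Finset G, H ⊆ Q ∧ (x +ᵥ H) ⊆ Q ∧ Disjoint H (x +ᵥ H) ∧ Q.card ≤ 4 * H.card := by
  classical
  set Q₁ : Finset G := Q.filter (fun y => x + y ∈ Q) with hQ₁
  have e1 : Q ∩ (x +ᵥ Q) = x +ᵥ Q₁ := by
    ext y
    simp only [Finset.mem_inter, Finset.mem_vadd_finset, hQ₁, Finset.mem_filter, vadd_eq_add]
    constructor
    · rintro ⟨h1, a, ha, rfl⟩
      exact ⟨a, ⟨ha, h1⟩, rfl⟩
    · rintro ⟨a, ⟨ha, h1⟩, rfl⟩
      exact ⟨h1, a, ha, rfl⟩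
  have h1 : 3 * Q.card ≤ 4 * Q₁.card := by
    have h2 := Finset.card_union_add_card_inter Q (x +ᵥ Q)
    rw [e1, Finset.card_vadd_finset, Finset.card_vadd_finset] at h2
    have h3 : ((two Q x).card : ℝ) + Q₁.card = Q.card + Q.card := by
      unfold two
      exact_mod_cast h2
    have h4 : 3 * (Q.card : ℝ) ≤ 4 * Q₁.card := by linarith
    exact_mod_cast h4
  obtain ⟨H, hH, hmax⟩ := Finset.exists_max_image
    (Q₁.powerset.filter (fun H => Disjoint H (x +ᵥ H))) (fun H => H.card)
    ⟨∅, by simp⟩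
  rw [Finset.mem_filter, Finset.mem_powerset] at hH
  obtain ⟨hHQ, hHd⟩ := hH
  have hcov : Q₁ ⊆ H ∪ (x +ᵥ H) ∪ (-x +ᵥ H) := by
    intro y hy
    by_contra hcon
    simp only [Finset.mem_union, not_or, Finset.mem_vadd_finset, vadd_eq_add, not_exists,
      not_and] at hcon
    obtain ⟨⟨hc1, hc2⟩, hc3⟩ := hcon
    have h2 := hmax (insert y H) (by
      rw [Finset.mem_filter, Finset.mem_powerset]
      refine ⟨Finset.insert_subset hy hHQ, ?_⟩
      rw [Finset.disjoint_left]
      intro z hz hz'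
      obtain ⟨w, hw, rfl⟩ := Finset.mem_vadd_finset.1 hz'
      rw [vadd_eq_add] at hz
      rcases Finset.mem_insert.1 hw with rfl | hw
      · rcases Finset.mem_insert.1 hz with h3 | h3
        · exact hx (by simpa using h3)
        · exact hc3 (x + w) h3 (by abel)
      · rcases Finset.mem_insert.1 hz with h3 | h3
        · exact hc2 w hw h3
        · exact Finset.disjoint_left.1 hHd h3 (Finset.mem_vadd_finset.2 ⟨w, hw, rfl⟩))
    rw [Finset.card_insert_of_notMem hc1] at h2
    omega
  have h5 : Q₁.card ≤ 3 * H.card := by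
    have h6 := Finset.card_le_card hcov
    have h7 := Finset.card_union_le (H ∪ (x +ᵥ H)) (-x +ᵥ H)
    have h8 := Finset.card_union_le H (x +ᵥ H)
    rw [Finset.card_vadd_finset] at h7 h8
    omega
  refine ⟨H, hHQ.trans (Finset.filter_subset _ _), ?_, hHd, by omega⟩
  intro y hy
  obtain ⟨w, hw, rfl⟩ := Finset.mem_vadd_finset.1 hy
  exact (Finset.mem_filter.1 (hHQ hw)).2

/-- the uniform distribution -/
noncomputable def unif (Q : Finset G) : AddMonoidAlgebra ℝ G :=
  ∑ x ∈ Q, single x ((1 : ℝ) / Q.card)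

theorem nrm_sum_single_le (H : Finset G) (c : ℝ) :
    nrm (∑ x ∈ H, single x c : AddMonoidAlgebra ℝ G) ≤ H.card * |c| := by
  refine (nrm_sum_le _ _).trans ?_
  simp [nrm_single]

/-- the powers of the uniform distribution are almost invariant -/
theorem pow_shift [DecidableEq G] (Q : Finset G) (hQ : Q.Nonempty) {x : G} (hx : x ≠ 0)
    (h : ((two Q x).card : ℝ) ≤ 5 / 4 * Q.card) (N : ℕ) :
    nrm ((1 - single x 1) * unif Q ^ N) ≤ 2 / Real.sqrt ((N + 1) * (1 / 2)) := by
  classical
  obtain ⟨H, hHQ, hxH, hd, hc⟩ := exists_pairs Q hx h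
  have hQ0 : (0 : ℝ) < Q.card := by exact_mod_cast hQ.card_pos
  set c : ℝ := 1 / Q.card with hcdef
  have hc0 : 0 ≤ c := by positivity
  set R : Finset G := Q \ (H ∪ (x +ᵥ H)) with hR
  set θ : ℝ := 2 * H.card / Q.card with hθ
  have hsub : H ∪ (x +ᵥ H) ⊆ Q := Finset.union_subset hHQ hxH
  have hcard : (H ∪ (x +ᵥ H)).card = 2 * H.card := by
    rw [Finset.card_union_of_disjoint hd, Finset.card_vadd_finset]
    ring
  have hle : 2 * H.card ≤ Q.card := by
    rw [← hcard]; exact Finset.card_le_card hsub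
  have hRc : (R.card : ℝ) = Q.card - 2 * H.card := by
    rw [hR, Finset.card_sdiff_of_subset hsub, hcard, Nat.cast_sub hle]
    push_cast
    ring
  have e : unif Q = (∑ y ∈ H, single y c) * (1 + single x 1) + ∑ y ∈ R, single y c := by
    have e1 : (∑ y ∈ H, single y c : AddMonoidAlgebra ℝ G) * single x 1 =
        ∑ y ∈ (x +ᵥ H), single y c := by
      rw [Finset.sum_mul, ← Finset.image_vadd, Finset.sum_image (fun a _ b _ h => by simpa using h)]
      apply Finset.sum_congr rfl
      intro y _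
      rw [single_mul_single, mul_one, vadd_eq_add, add_comm]
    rw [mul_add, mul_one, e1, ← Finset.sum_union hd, add_comm,
      Finset.sum_sdiff hsub]
    rfl
  have h2 : (1 : ℝ) / 2 ≤ θ := by
    rw [hθ, le_div_iff₀ hQ0]
    have : (Q.card : ℝ) ≤ 4 * H.card := by exact_mod_cast hc
    linarith
  have h3 : θ ≤ 1 := by
    rw [hθ, div_le_one hQ0]
    exact_mod_cast hle
  rw [e]
  refine (walk (single x 1) _ _ (by rw [nrm_single]; simp) (by linarith) h3 ?_ ?_ N).trans ?_
  · refine (nrm_sum_single_le _ _).trans (le_of_eq ?_)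
    rw [abs_of_nonneg hc0, hθ, hcdef]
    field_simp
  · refine (nrm_sum_single_le _ _).trans (le_of_eq ?_)
    rw [abs_of_nonneg hc0, hRc, hθ, hcdef]
    field_simp
  · apply div_le_div_of_nonneg_left (by norm_num) (Real.sqrt_pos.2 (by positivity))
    apply Real.sqrt_le_sqrt
    gcongr

theorem coeff_sum_single_nonneg (H : Finset G) {c : ℝ} (hc : 0 ≤ c) (y : G) :
    0 ≤ (∑ x ∈ H, single x c : AddMonoidAlgebra ℝ G).coeff y := by
  classical
  rw [coeff_sum, Finsupp.finsetSum_apply]
  apply Finset.sum_nonneg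
  intro x _
  rw [coeff_single, Finsupp.single_apply]
  split_ifs <;> simp [hc]

theorem coeff_mul_nonneg {a b : AddMonoidAlgebra ℝ G} (ha : ∀ y, 0 ≤ a.coeff y)
    (hb : ∀ y, 0 ≤ b.coeff y) (y : G) : 0 ≤ (a * b).coeff y := by
  classical
  rw [coeff_mul]
  apply Finset.sum_nonneg
  intro u _
  apply Finset.sum_nonneg
  intro v _
  dsimp only
  split_ifs
  · exact mul_nonneg (ha u) (hb v)
  · exact le_rfl

theorem pow_nonneg' {a : AddMonoidAlgebra ℝ G} (ha : ∀ y, 0 ≤ a.coeff y) (N : ℕ) (y : G) :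
    0 ≤ (a ^ N).coeff y := by
  classical
  induction N generalizing y with
  | zero =>
    rw [pow_zero, one_def, coeff_single, Finsupp.single_apply]
    split_ifs <;> norm_num
  | succ N ih =>
    rw [pow_succ]
    exact coeff_mul_nonneg ih ha y

/-- the total mass -/
noncomputable def tot : AddMonoidAlgebra ℝ G →ₐ[ℝ] ℝ := AddMonoidAlgebra.lift ℝ ℝ G 1

theorem tot_eq (a : AddMonoidAlgebra ℝ G) : tot a = ∑ x ∈ a.coeff.support, a.coeff x := by
  unfold tot
  rw [AddMonoidAlgebra.lift_apply]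
  unfold Finsupp.sum
  simp

theorem tot_unif (Q : Finset G) (hQ : Q.Nonempty) : tot (unif Q) = 1 := by
  have hQ0 : (0 : ℝ) < Q.card := by exact_mod_cast hQ.card_pos
  unfold unif
  rw [map_sum]
  have : ∀ x ∈ Q, tot (single x ((1 : ℝ) / Q.card)) = 1 / Q.card := by
    intro x _
    unfold tot
    rw [AddMonoidAlgebra.lift_single]
    simp
  rw [Finset.sum_congr rfl this, Finset.sum_const, nsmul_eq_mul]
  field_simp

theorem supp_mul {a b : AddMonoidAlgebra ℝ G} {y : G} (h : y ∈ (a * b).coeff.support) :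
    ∃ u ∈ a.coeff.support, ∃ v ∈ b.coeff.support, u + v = y := by
  classical
  rw [Finsupp.mem_support_iff, coeff_mul] at h
  obtain ⟨u, hu, h1⟩ := Finset.exists_ne_zero_of_sum_ne_zero h
  obtain ⟨v, hv, h2⟩ := Finset.exists_ne_zero_of_sum_ne_zero h1
  refine ⟨u, hu, v, hv, ?_⟩
  by_contra hcon
  exact h2 (if_neg hcon)

theorem supp_unif {Q : Finset G} {y : G} (h : y ∈ (unif Q).coeff.support) : y ∈ Q := by
  classical
  rw [Finsupp.mem_support_iff] at h
  unfold unif at h
  rw [coeff_sum, Finsupp.finsetSum_apply] at h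
  obtain ⟨u, hu, h1⟩ := Finset.exists_ne_zero_of_sum_ne_zero h
  rw [coeff_single, Finsupp.single_apply] at h1
  by_cases hy : u = y
  · rw [← hy]; exact hu
  · exact absurd (if_neg hy) h1

theorem sums_Box {ι : Type*} (g : ι → G) {I : Finset ι} {S : Finset ι} (hS : S ⊆ I) :
    ∑ i ∈ S, g i ∈ Box g I 1 := by
  classical
  refine ⟨fun i => if i ∈ S then 1 else 0, fun i => ?_, ?_⟩
  · dsimp only
    split_ifs <;> simp
  · rw [← Finset.sum_subset hS (fun i _ hi => by simp [hi])]
    apply Finset.sum_congr rfl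
    intro i hi
    simp [hi]

theorem supp_pow_Box {ι : Type*} (g : ι → G) (I : Finset ι) (N : ℕ) :
    ∀ y ∈ (unif (sums g I) ^ N).coeff.support, y ∈ Box g I N := by
  classical
  induction N with
  | zero =>
    intro y hy
    rw [pow_zero, one_def, coeff_single] at hy
    have := Finsupp.support_single_subset hy
    rw [Finset.mem_singleton] at this
    exact ⟨0, by simp, by simp [this]⟩
  | succ N ih =>
    intro y hy
    rw [pow_succ] at hy
    obtain ⟨u, hu, v, hv, rfl⟩ := supp_mul hy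
    obtain ⟨S, hS, rfl⟩ := (mem_sums _ _ _).1 (supp_unif hv)
    exact Box.add (ih u hu) (sums_Box g hS)

/-- the mass moved by the shift is at most the norm -/
theorem moved_le [DecidableEq G] (a : AddMonoidAlgebra ℝ G) (x : G) :
    ∑ y ∈ a.coeff.support, max (a.coeff y - a.coeff (x + y)) 0 ≤
      nrm ((1 - single x 1) * a) := by
  classical
  have h1 : ∀ y, ((1 - single x 1) * a).coeff (x + y) = a.coeff (x + y) - a.coeff y := by
    intro y
    rw [sub_mul, one_mul, coeff_sub, Finsupp.sub_apply]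
    congr 1
    rw [coeff_single_mul_eq_mul_coeff (m₂ := y) (fun m' _ => by simp), one_mul]
  have h2 : ∑ y ∈ a.coeff.support, max (a.coeff y - a.coeff (x + y)) 0 ≤
      ∑ y ∈ a.coeff.support, |((1 - single x 1) * a).coeff (x + y)| := by
    apply Finset.sum_le_sum
    intro y _
    rw [h1, abs_sub_comm]
    exact max_le (le_abs_self _) (abs_nonneg _)
  refine h2.trans ?_
  have h3 : ∑ y ∈ a.coeff.support, |((1 - single x 1) * a).coeff (x + y)| =
      ∑ z ∈ a.coeff.support.image (fun y => x + y), |((1 - single x 1) * a).coeff z| := by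
    rw [Finset.sum_image (fun u _ v _ h => add_left_cancel h)]
  rw [h3, nrm_eq (T := a.coeff.support.image (fun y => x + y) ∪
      ((1 - single x 1) * a).coeff.support) Finset.subset_union_right]
  exact Finset.sum_le_sum_of_subset_of_nonneg Finset.subset_union_left
    (fun _ _ _ => abs_nonneg _)

end Pool.Agent.KS6_86.FR
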