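import Pool.Agent.KS6_86.FR.MainA

/-! From injective homomorphisms to homomorphisms which are injective on a large ball, by
ultraproducts. -/

set_option autoImplicit false

open scoped Pointwise
open Filter H139R2.GP

namespace Pool.Agent.KS6_86.FR

universe u

/-- sequences which vanish almost everywhere -/
def nullSub (G : ℕ → Type u) [∀ B, AddCommGroup (G B)] (U : Ultrafilter ℕ) :
    AddSubgroup (∀ B, G B) where
  carrier := {f | ∀ᶠ B in (U : Filter ℕ), f B = 0}
  add_mem' := by
    intro f g hf hg
    filter_upwards [hf, hg] with B h1 h2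
    rw [Pi.add_apply, h1, h2, add_zero]
  zero_mem' := Eventually.of_forall fun _ => rfl
  neg_mem' := by
    intro f hf
    filter_upwards [hf] with B h1
    rw [Pi.neg_apply, h1, neg_zero]

theorem mk_eq_iff (G : ℕ → Type u) [∀ B, AddCommGroup (G B)] (U : Ultrafilter ℕ)
    (f g : ∀ B, G B) : (QuotientAddGroup.mk f : (∀ B, G B) ⧸ nullSub G U) = QuotientAddGroup.mk g ↔
      ∀ᶠ B in (U : Filter ℕ), f B = g B := by
  rw [QuotientAddGroup.eq]
  change (∀ᶠ B in (U : Filter ℕ), (-f + g) B = 0) ↔ _
  constructor
  · intro h
    filter_upwards [h] with B hB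
    rw [Pi.add_apply, Pi.neg_apply, neg_add_eq_zero] at hB
    exact hB
  · intro h
    filter_upwards [h] with B hB
    rw [Pi.add_apply, Pi.neg_apply, neg_add_eq_zero]
    exact hB

/-- a statement which holds at `B` holds in the limit, for almost all `B` -/
theorem ev_imp (U : Ultrafilter ℕ) (p : ℕ → Prop) :
    ∀ᶠ B in (U : Filter ℕ), (p B → ∀ᶠ C in (U : Filter ℕ), p C) := by
  by_cases h : ∀ᶠ C in (U : Filter ℕ), p C
  · exact Eventually.of_forall fun _ _ => h
  · have h1 := Ultrafilter.eventually_not.2 h
    filter_upwards [h1] with B hB hB'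
    exact absurd hB' hB

/-- generators which do not change the set of the subset sums can be dropped -/
theorem reduce_family {G : Type*} [AddCommGroup G] {ι : Type*} [Fintype ι] (g : ι → G) {R : ℕ}
    (hR : (sums g Finset.univ).card ≤ R) :
    ∃ g' : Fin R → G, sums g' Finset.univ = sums g Finset.univ := by
  classical
  obtain ⟨I, hI, hmin⟩ := Finset.exists_min_image
    (Finset.univ.filter (fun I : Finset ι => sums g I = sums g Finset.univ)) (fun I => I.card)
    ⟨Finset.univ, by simp⟩
  rw [Finset.mem_filter] at hI
  have hI2 := hI.2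
  -- the sums are additive in the set of the generators
  have hadd : ∀ J K : Finset ι, Disjoint J K → sums g (J ∪ K) = sums g J + sums g K := by
    intro J K hJK
    ext x
    rw [Finset.mem_add]
    constructor
    · intro hx
      obtain ⟨S, hS, rfl⟩ := (mem_sums _ _ _).1 hx
      refine ⟨∑ i ∈ S ∩ J, g i, (mem_sums _ _ _).2 ⟨_, Finset.inter_subset_right, rfl⟩,
        ∑ i ∈ S \ J, g i, (mem_sums _ _ _).2 ⟨_, ?_, rfl⟩, Finset.sum_inter_add_sum_sdiff _ _ _⟩
      intro i hi
      obtain ⟨h1, h2⟩ := Finset.mem_sdiff.1 hi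
      exact (Finset.mem_union.1 (hS h1)).resolve_left h2
    · rintro ⟨y, hy, z, hz, rfl⟩
      obtain ⟨S, hS, rfl⟩ := (mem_sums _ _ _).1 hy
      obtain ⟨T, hT, rfl⟩ := (mem_sums _ _ _).1 hz
      refine (mem_sums _ _ _).2 ⟨S ∪ T, Finset.union_subset_union hS hT, ?_⟩
      rw [Finset.sum_union (Finset.disjoint_of_subset_left hS
        (Finset.disjoint_of_subset_right hT hJK))]
  -- every generator in `I` matters
  have hgrow : ∀ J ⊆ I, J.card + 1 ≤ (sums g J).card := by
    intro J
    induction J using Finset.induction_on with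
    | empty =>
      intro _
      simpa using one_le_card_sums g ∅
    | insert j J hj ih =>
      intro hJI
      have h1 := ih ((Finset.subset_insert _ _).trans hJI)
      have hsub : sums g J ⊆ sums g (insert j J) := sums_mono g (Finset.subset_insert _ _)
      have hne : sums g J ≠ sums g (insert j J) := by
        intro heq
        have hjI : j ∈ I := hJI (Finset.mem_insert_self _ _)
        have h2 : I = insert j J ∪ (I \ insert j J) := by
          rw [Finset.union_sdiff_of_subset hJI]
        have h3 : I.erase j = J ∪ (I \ insert j J) := by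
          ext i
          simp only [Finset.mem_erase, Finset.mem_union, Finset.mem_sdiff, Finset.mem_insert, not_or]
          constructor
          · rintro ⟨h4, h5⟩
            by_cases h6 : i ∈ J
            · exact Or.inl h6
            · exact Or.inr ⟨h5, h4, h6⟩
          · rintro (h4 | ⟨h4, h5, _⟩)
            · exact ⟨fun h => hj (h ▸ h4), hJI (Finset.mem_insert_of_mem h4)⟩
            · exact ⟨h5, h4⟩
        have h4 : sums g (I.erase j) = sums g I := by
          rw [h3, hadd _ _ (Finset.disjoint_of_subset_left (Finset.subset_insert _ _)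
            Finset.disjoint_sdiff), heq, ← hadd _ _ Finset.disjoint_sdiff, ← h2]
        have h5 := hmin (I.erase j) (Finset.mem_filter.2 ⟨Finset.mem_univ _, h4.trans hI2⟩)
        rw [Finset.card_erase_of_mem hjI] at h5
        have := Finset.card_pos.2 ⟨j, hjI⟩
        omega
      have h2 := Finset.card_lt_card (Finset.ssubset_iff_subset_ne.2 ⟨hsub, hne⟩)
      rw [Finset.card_insert_of_notMem hj]
      omega
  have hIR : I.card ≤ R := by
    have h1 := hgrow I (Finset.Subset.refl _)
    rw [hI2] at h1
    omega
  -- reindexing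
  obtain ⟨f⟩ : Nonempty (I ↪ Fin R) := by
    rw [Function.Embedding.nonempty_iff_card_le]
    simpa using hIR
  refine ⟨fun k => if h : ∃ i : I, f i = k then g h.choose else 0, ?_⟩
  have hval : ∀ i : I, (if h : ∃ i' : I, f i' = f i then g h.choose else 0) = g i := by
    intro i
    have h : ∃ i' : I, f i' = f i := ⟨i, rfl⟩
    rw [dif_pos h]
    congr 2
    exact f.injective h.choose_spec
  rw [← hI2]
  ext x
  rw [mem_sums, mem_sums]
  constructor
  · rintro ⟨S, _, rfl⟩
    refine ⟨(Finset.univ.filter (fun i : I => f i ∈ S)).map (Function.Embedding.subtype _), ?_, ?_⟩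
    · intro i hi
      obtain ⟨i', _, rfl⟩ := Finset.mem_map.1 hi
      exact i'.2
    · rw [Finset.sum_map]
      have h1 : ∑ i ∈ Finset.univ.filter (fun i : I => f i ∈ S), g (i : ι) =
          ∑ k ∈ (Finset.univ.filter (fun i : I => f i ∈ S)).map f,
            (if h : ∃ i : I, f i = k then g h.choose else 0) := by
        rw [Finset.sum_map]
        exact Finset.sum_congr rfl (fun i _ => (hval i).symm)
      refine h1.trans ?_
      apply Finset.sum_subset
      · intro k hk
        obtain ⟨i, hi, rfl⟩ := Finset.mem_map.1 hk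
        exact (Finset.mem_filter.1 hi).2
      · intro k hk hk'
        apply dif_neg
        rintro ⟨i, rfl⟩
        exact hk' (Finset.mem_map.2 ⟨i, Finset.mem_filter.2 ⟨Finset.mem_univ _, hk⟩, rfl⟩)
  · rintro ⟨S, hS, rfl⟩
    refine ⟨(Finset.univ.filter (fun i : I => (i : ι) ∈ S)).map f, Finset.subset_univ _, ?_⟩
    rw [Finset.sum_map]
    have h1 : ∑ i ∈ S, g i = ∑ i ∈ (Finset.univ.filter (fun i : I => (i : ι) ∈ S)), g (i : ι) := by
      rw [Finset.sum_filter, ← Finset.sum_coe_sort I (fun i => if i ∈ S then g i else 0) |>.symm,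
        ← Finset.sum_filter]
      apply Finset.sum_congr _ (fun _ _ => rfl)
      ext i
      rw [Finset.mem_filter]
      exact ⟨fun h => ⟨hS h, h⟩, fun h => h.2⟩
    rw [h1]
    exact Finset.sum_congr rfl (fun i _ => hval i)

end Pool.Agent.KS6_86.FR
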