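import Pool.Graph.R_seed8.Results.MP_86f7a7_co.NearPFRProg

/-! The upper bound for the loss, in the form of a large intersection. -/

set_option autoImplicit false

open scoped Pointwise

namespace Pool.Agent.KS6_86.FR

theorem num_upper {K : ℝ} (hK : 16 ≤ K) :
    (2 * K) ^ (17000 * (1 + Real.log (1 + Real.log (2 * K)))) ≤
      K ^ (64000 * Real.log (Real.log K)) := by
  have hK0 : 0 < K := by linarith
  have h2 := Real.log_two_gt_d9
  have h2' := Real.log_two_lt_d9
  have h16 : Real.log 16 = 4 * Real.log 2 := by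
    rw [show (16 : ℝ) = 2 ^ 4 by norm_num, Real.log_pow]; norm_num
  have hlK : 4 * Real.log 2 ≤ Real.log K := by
    rw [← h16]; exact Real.log_le_log (by norm_num) hK
  have hlK1 : 2.77 ≤ Real.log K := by linarith
  have hl2K : Real.log (2 * K) ≤ 1.25 * Real.log K := by
    rw [Real.log_mul (by norm_num) hK0.ne']
    linarith
  have hl2K0 : 0 < Real.log (2 * K) := Real.log_pos (by linarith)
  have he := Real.exp_one_lt_d9
  have hll1 : 1 ≤ Real.log (Real.log K) := by
    rw [Real.le_log_iff_exp_le (by linarith)]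
    linarith
  have h3 : Real.log (1 + Real.log (2 * K)) ≤ 1 + Real.log (Real.log K) := by
    have h4 : 1 + Real.log (2 * K) ≤ Real.exp 1 * Real.log K := by
      have := Real.exp_one_gt_d9
      nlinarith
    calc Real.log (1 + Real.log (2 * K)) ≤ Real.log (Real.exp 1 * Real.log K) :=
          Real.log_le_log (by linarith) h4
      _ = 1 + Real.log (Real.log K) := by
        rw [Real.log_mul (Real.exp_pos _).ne' (by linarith), Real.log_exp]
  have h5 : 0 ≤ Real.log (1 + Real.log (2 * K)) := Real.log_nonneg (by linarith)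
  have h6 : 0 ≤ Real.log K * Real.log (Real.log K) := by positivity
  rw [Real.rpow_def_of_pos (by linarith), Real.rpow_def_of_pos hK0]
  apply Real.exp_le_exp.2
  calc Real.log (2 * K) * (17000 * (1 + Real.log (1 + Real.log (2 * K))))
      ≤ (1.25 * Real.log K) * (17000 * (1 + (1 + Real.log (Real.log K)))) := by
        gcongr
    _ ≤ (1.25 * Real.log K) * (17000 * (3 * Real.log (Real.log K))) := by
        gcongr
        linarith
    _ = 63750 * (Real.log K * Real.log (Real.log K)) := by ring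
    _ ≤ Real.log K * (64000 * Real.log (Real.log K)) := by linarith

/-- near-polynomial Freiman theorem in torsion-free groups -/
theorem upper {Z : Type*} [AddCommGroup Z]
    (htf : ∀ (n : ℕ) (x : Z), n ≠ 0 → n • x = 0 → x = 0) {K : ℝ} (hK : 16 ≤ K) {A : Set Z}
    (hf : A.Finite) (hA : A.Nonempty) (hAK : ((A + A).ncard : ℝ) ≤ K * A.ncard) :
    ∃ (d : ℕ) (a : Z) (v : Fin d → Z) (N : Fin d → ℕ) (P : Set Z),
      P = {x | ∃ k : Fin d → ℕ, (∀ i, k i < N i) ∧ x = a + ∑ i, k i • v i} ∧
      (d : ℝ) ≤ 64000 * Real.log K ∧ (∀ i, 1 ≤ N i) ∧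
      (∀ k l : Fin d → ℕ, (∀ i, k i < N i) → (∀ i, l i < N i) →
        ∑ i, k i • v i = ∑ i, l i • v i → k = l) ∧
      P.ncard ≤ A.ncard ∧
      K ^ (-(64000 * Real.log (Real.log K))) * A.ncard ≤ ((A ∩ P).ncard : ℝ) := by
  classical
  set A' : Finset Z := hf.toFinset with hA'
  have hAA : (A' : Set Z) = A := hf.coe_toFinset
  have hcA : A.ncard = A'.card := by rw [← hAA, Set.ncard_coe_finset]
  have hAA2 : (A + A).ncard = (A' + A').card := by
    rw [← hAA, ← Finset.coe_add, Set.ncard_coe_finset]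
  have hne : A'.Nonempty := by
    rw [hA']
    exact hf.toFinset_nonempty.2 hA
  have hK0 : 0 < K := by linarith
  obtain ⟨d, v, N, T, hd, hN, hprop, hprod, hT, hcov⟩ :=
    Pool.Agent.Results.MP_86f7a7_co.NearPFRProg.result htf K A' hne (by
      rw [← hAA2, ← hcA]; exact hAK)
  set M : ℝ := K ^ (64000 * Real.log (Real.log K)) with hM
  have hM0 : 0 < M := Real.rpow_pos_of_pos hK0 _
  have hTM : (T.card : ℝ) ≤ M := hT.trans (num_upper hK)
  set PP : Z → Set Z := fun t => {x | ∃ k : Fin d → ℕ, (∀ i, k i < N i) ∧ x = t + ∑ i, k i • v i}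
    with hPP
  -- a translate which contains many points
  have hex : ∃ t ∈ T, (A'.card : ℝ) ≤ M * (A'.filter (fun x => x ∈ PP t)).card := by
    by_contra hcon
    push Not at hcon
    have h1 : A' ⊆ T.biUnion (fun t => A'.filter (fun x => x ∈ PP t)) := by
      intro x hx
      obtain ⟨t, ht, k, hk, hxk⟩ := hcov x hx
      rw [Finset.mem_biUnion]
      exact ⟨t, ht, Finset.mem_filter.2 ⟨hx, k, hk, hxk⟩⟩
    have hTne : T.Nonempty := by
      obtain ⟨x, hx⟩ := hne
      obtain ⟨t, ht, _⟩ := hcov x hx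
      exact ⟨t, ht⟩
    have h2 : (A'.card : ℝ) ≤ ∑ t ∈ T, ((A'.filter (fun x => x ∈ PP t)).card : ℝ) := by
      exact_mod_cast (Finset.card_le_card h1).trans Finset.card_biUnion_le
    have h3 : M * A'.card < ∑ t ∈ T, (A'.card : ℝ) := by
      calc M * A'.card ≤ M * ∑ t ∈ T, ((A'.filter (fun x => x ∈ PP t)).card : ℝ) := by gcongr
        _ = ∑ t ∈ T, M * ((A'.filter (fun x => x ∈ PP t)).card : ℝ) := Finset.mul_sum _ _ _
        _ < ∑ t ∈ T, (A'.card : ℝ) := Finset.sum_lt_sum_of_nonempty hTne (fun t ht => hcon t ht)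
    rw [Finset.sum_const, nsmul_eq_mul] at h3
    have h4 : (0 : ℝ) < A'.card := by exact_mod_cast hne.card_pos
    nlinarith
  obtain ⟨t, _, ht⟩ := hex
  -- the cardinality of the progression
  have hPfin : PP t = ((Fintype.piFinset (fun i => Finset.range (N i))).image
      (fun k : Fin d → ℕ => t + ∑ i, k i • v i) : Finset Z) := by
    ext x
    simp only [hPP, Set.mem_ofPred_eq, Finset.coe_image, Set.mem_image, Finset.mem_coe,
      Fintype.mem_piFinset, Finset.mem_range]
    constructor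
    · rintro ⟨k, hk, rfl⟩; exact ⟨k, hk, rfl⟩
    · rintro ⟨k, hk, rfl⟩; exact ⟨k, hk, rfl⟩
  have hPc : (PP t).ncard ≤ A.ncard := by
    rw [hPfin, Set.ncard_coe_finset, hcA]
    refine Finset.card_image_le.trans ?_
    rw [Fintype.card_piFinset]
    simpa using hprod
  refine ⟨d, t, v, N, PP t, rfl, ?_, hN, hprop, hPc, ?_⟩
  · have h2' := Real.log_two_lt_d9
    have h16 : Real.log 16 = 4 * Real.log 2 := by
      rw [show (16 : ℝ) = 2 ^ 4 by norm_num, Real.log_pow]; norm_num
    have hlK : 4 * Real.log 2 ≤ Real.log K := by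
      rw [← h16]; exact Real.log_le_log (by norm_num) hK
    have h2 := Real.log_two_gt_d9
    rw [Real.log_mul (by norm_num) hK0.ne'] at hd
    linarith
  · have h1 : A ∩ PP t = ((A'.filter (fun x => x ∈ PP t) : Finset Z) : Set Z) := by
      ext x
      rw [Finset.coe_filter, Set.mem_inter_iff, ← hAA, Finset.mem_coe]
      exact Iff.rfl
    rw [h1, Set.ncard_coe_finset, hcA, Real.rpow_neg hK0.le, ← hM, inv_mul_le_iff₀ hM0]
    exact ht

end Pool.Agent.KS6_86.FR
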